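import Pool.Agent.MP_250189_co.Out
import Pool.Agent.MP_250189_co.Basic

-- part MP_250189_co.Asm
section

/-! The four ways of assembling drawings. -/

namespace Pool.Agent.MP_250189_co

open Set Filter Topology

variable {V : Type*} {G G' : SimpleGraph V} {S X : Set V} {u v c a b : V} {x y y' x0 : V → ℝ}
  {T : ℝ} {L : List V}

lemma sl_congr (ha : y a = y' a) (hb : y b = y' b) : sl x y a b = sl x y' a b := by
  unfold sl; rw [ha, hb]

lemma ln_congr (ha : y a = y' a) (hb : y b = y' b) (t : ℝ) : ln x y a b t = ln x y' a b t := by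
  unfold ln; rw [sl_congr ha hb, ha]

lemma Desc.congr (h : Desc x y T L) (e : ∀ w ∈ L, y' w = y w) : Desc x y' T L := fun f hf => by
  rw [sl_congr (e _ (mem_of_edge hf).1) (e _ (mem_of_edge hf).2),
    ln_congr (e _ (mem_of_edge hf).1) (e _ (mem_of_edge hf).2)]
  exact h f hf

lemma Desc.later {T' : ℝ} (h : Desc x y T L) (hT : T ≤ T') : Desc x y T' L := fun f hf => by
  obtain ⟨h1, h2⟩ := h f hf
  refine ⟨h1, ?_⟩
  unfold ln at h2 ⊢
  nlinarith

lemma Desc.sub {L' : List V} (h : Desc x y T L) (e : edges L' ⊆ edges L) : Desc x y T L' :=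
  fun f hf => h f (e hf)

lemma Desc.eventually (h : Desc x y T L) (y' : V → ℝ) :
    ∀ᶠ η in 𝓝 (0 : ℝ), Desc x (fun a => y a + η * y' a) T L := by
  refine (Filter.eventually_all_finite (edges_finite L)).2 fun e he => ?_
  filter_upwards [small_lt (B := sl x y' e.1 e.2) (h e he).1,
    small_lt (B := ln x y' e.1 e.2 T) (h e he).2] with η h1 h2
  have e1 : sl x (fun a => y a + η * y' a) e.1 e.2 = sl x y e.1 e.2 + η * sl x y' e.1 e.2 := by
    unfold sl; ring
  refine ⟨by rw [e1]; exact h1, ?_⟩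
  unfold ln at h2 ⊢
  rw [e1]; linarith

lemma ln_right2 (h : x a < x b) (t : ℝ) : ln x y a b t = y b + sl x y a b * (t - x b) := by
  have : x b - x a ≠ 0 := by linarith
  unfold ln sl; field_simp; ring

lemma attach {S1 S2 X2 : Set V} {G2 : SimpleGraph V} {A τ2 β2 : List V} {y1 y2 : V → ℝ} {σ : ℝ}
    (hI : ∀ a ∈ S1, a ∈ S2 → a = c)
    (hA : ∀ w ∈ u :: (A ++ [c]), w ∈ S1) (iA : Inc x (u :: (A ++ [c])))
    (cA : Tri (fun a b c => b ∉ X → sl x y1 a b ≤ sl x y1 b c) (u :: (A ++ [c])))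
    (hh : 0 < y1 c) (hT : x v < T) (g2 : GeoS G2 X2 c v τ2 β2 x y2)
    (hβ2 : ∀ w ∈ c :: (β2 ++ [v]), w ∈ S2) (i2 : Inc x (c :: (β2 ++ [v])))
    (hX : ∀ w ∈ β2, w ∈ X ↔ w ∈ X2) (hσ : 0 ≤ σ)
    (hcase : (∃ A1 m A2, A ++ [c] = A1 ++ m :: A2 ∧ m ∈ X ∧ (∀ w ∈ A1, w ∉ X) ∧
        Desc x y1 (x v) (m :: A2)) ∨
      ((∀ w ∈ A ++ [c], w ∉ X) ∧ 0 < fs x y2 (c :: (β2 ++ [v])) ∧ Peak X2 v β2 x y2 T ∧
        ∀ a, (u :: A).getLast? = some a → sl x y1 a c ≤ σ)) :
    ∃ y κ l m, 0 < κ ∧ (∀ a ∈ S1, y a = y1 a) ∧ Aff S2 x y2 y κ l m ∧ y v = 0 ∧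
      sl x y c v = l ∧ κ * fs x y2 (c :: (τ2 ++ [v])) + l ≤ σ ∧
      Tri (fun a b c => b ∉ X → sl x y a b ≤ sl x y b c) (u :: (A ++ c :: β2 ++ [v])) ∧
      Peak X v (A ++ c :: β2) x y T := by
  classical
  have hcv : x c < x v := i2.ends
  set l := -y1 c / (x v - x c) with hl
  have hl0 : l < 0 := div_neg_of_neg_of_pos (by linarith) (by linarith)
  have hlc : l * (x c - x v) = y1 c := by
    have : x v - x c ≠ 0 := by linarith
    rw [hl]; field_simp; ring
  have hv2 : v ∈ S2 := hβ2 v (by simp)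
  have hc2 : c ∈ S2 := hβ2 c (by simp)
  -- the glued heights for a given factor
  have main : ∀ κ : ℝ, 0 < κ → ∃ y, (∀ a ∈ S1, y a = y1 a) ∧ Aff S2 x y2 y κ l (-l * x v) ∧
      y v = 0 ∧ sl x y c v = l ∧
      ((c ∉ X → ∀ a, (u :: A).getLast? = some a →
          sl x y1 a c ≤ κ * fs x y2 (c :: (β2 ++ [v])) + l) →
        Tri (fun a b c => b ∉ X → sl x y a b ≤ sl x y b c) (u :: (A ++ c :: β2 ++ [v]))) := by
    intro κ hκ
    set y : V → ℝ := fun a => if a ∈ S1 then y1 a else κ * y2 a + l * x a + -l * x v with hy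
    have e1 : ∀ a ∈ S1, y a = y1 a := fun a ha => if_pos ha
    have e2 : Aff S2 x y2 y κ l (-l * x v) := by
      intro a ha
      by_cases h : a ∈ S1
      · rw [e1 a h, hI a h ha, g2.yu]; linarith
      · exact if_neg h
    have e3 : y v = 0 := by rw [e2 v hv2, g2.yv]; ring
    refine ⟨y, e1, e2, e3, ?_, fun hc => ?_⟩
    · rw [e2.sl hc2 hv2 hcv]; unfold sl; rw [g2.yu, g2.yv]; simp
    · have e : u :: (A ++ c :: β2 ++ [v]) = (u :: A) ++ c :: (β2 ++ [v]) := by simp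
      rw [e, tri_split]
      refine ⟨cA.imp fun p q r h1 h2 h3 h4 => ?_,
        e2.tri_le hκ hβ2 i2 (fun p q r h1 h2 h3 h4 => h3 ((hX q (mid_mem i2 h1 h2)).2 h4)) g2.cvx,
        fun p q h1 h2 h3 => ?_⟩
      · rw [sl_congr (e1 _ (hA _ (mem_of_edge h1).1)) (e1 _ (hA _ (mem_of_edge h1).2)),
          sl_congr (e1 _ (hA _ (mem_of_edge h2).1)) (e1 _ (hA _ (mem_of_edge h2).2))]
        exact h3 h4
      · have hp := mem_of_edge (last_edge (c := c) h1)
        rw [sl_congr (e1 _ (hA _ hp.1)) (e1 _ (hA _ hp.2)), ← fs_head h2, e2.fs hβ2 i2]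
        exact hc h3 p h1
  have f0 := g2.f0
  have f1 := g2.f1
  rcases hcase with ⟨A1, m, A2, hA', hm, hA1, hd⟩ | ⟨hn, hp, ⟨B1, m, B2, rfl, hm, hB1, hd⟩, hs⟩
  · have d0 : Desc x (fun a => l * (x a - x v)) T (c :: (β2 ++ [v])) := by
      intro e he
      have h1 := i2 e he
      have h2 : sl x (fun a => l * (x a - x v)) e.1 e.2 = l := by
        have : x e.2 - x e.1 ≠ 0 := by linarith
        unfold sl; field_simp; ring
      refine ⟨by rw [h2]; exact hl0, ?_⟩
      unfold ln; rw [h2]; nlinarith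
    obtain ⟨κ, hκ, k1, k2⟩ := exists_small ((d0.eventually y2).and
      (small_lt (B := fs x y2 (c :: (τ2 ++ [v]))) (hl0.trans_le hσ)))
    obtain ⟨y, e1, e2, e3, e4, e5⟩ := main κ hκ
    have hsub : edges (m :: A2) ⊆ edges (u :: (A ++ [c])) := by
      rw [hA']; exact edges_sub_append_right (u :: A1) _
    have hne : c ∉ X → A2 ≠ [] := by
      rintro hc rfl
      have := congrArg List.getLast? hA'
      simp at this
      exact hc (this ▸ hm)
    refine ⟨y, κ, l, _, hκ, e1, e2, e3, e4, by linarith, e5 fun hc a ha => ?_, ?_⟩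
    · obtain ⟨A3, d, rfl⟩ := (List.eq_nil_or_concat A2).resolve_left (hne hc)
      rw [List.concat_eq_append, ← List.cons_append, ← List.append_assoc] at hA'
      obtain ⟨rfl, h2⟩ := List.append_inj' hA' rfl
      simp at h2; subst h2
      have h3 : (a, c) ∈ edges (m :: A3.concat c) := by
        rw [List.concat_eq_append, ← List.cons_append]
        apply last_edge
        simpa [List.getLast?_append, List.getLast?_cons] using ha
      have h4 := (hd _ h3).2
      rw [ln_right2 (iA _ (hsub h3))] at h4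
      have h5 : sl x y1 a c < l := by
        rw [hl, lt_div_iff₀ (by linarith)]; linarith
      nlinarith [mul_nonneg hκ.le (f0.trans f1)]
    · have hd1 : Desc x y T (m :: A2) := (hd.later hT.le).congr fun w hw => e1 w (hA w (by
        rw [hA']; simp only [List.mem_cons, List.mem_append] at hw ⊢; clear * - hw; tauto))
      have hd2 : Desc x y T (c :: (β2 ++ [v])) := k1.congr fun w hw => by
        rw [e2 w (hβ2 w hw)]; ring
      rcases List.eq_nil_or_concat A2 with rfl | ⟨A3, d, rfl⟩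
      · obtain ⟨rfl, h2⟩ := List.append_inj' hA' rfl
        simp at h2; subst h2
        exact ⟨A, c, β2, rfl, hm, hA1, hd2⟩
      · rw [List.concat_eq_append, ← List.cons_append, ← List.append_assoc] at hA'
        obtain ⟨rfl, h2⟩ := List.append_inj' hA' rfl
        simp at h2; subst h2
        refine ⟨A1, m, A3 ++ c :: β2, by simp, hm, hA1, fun e he => ?_⟩
        have e6 : m :: (A3 ++ c :: β2 ++ [v]) = (m :: A3) ++ c :: (β2 ++ [v]) := by simp
        rw [e6, edges_split] at he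
        rcases he with he | he
        · exact hd1 e (by simpa using he)
        · exact hd2 e he
  · set κ := (σ - l) / fs x y2 (c :: (B1 ++ m :: B2 ++ [v])) with hκ
    have hκ0 : 0 < κ := div_pos (by linarith) hp
    have hκ1 : κ * fs x y2 (c :: (B1 ++ m :: B2 ++ [v])) = σ - l := by
      rw [hκ]; field_simp
    obtain ⟨y, e1, e2, e3, e4, e5⟩ := main κ hκ0
    refine ⟨y, κ, l, _, hκ0, e1, e2, e3, e4, by nlinarith, e5 fun _ a ha => by
      linarith [hs a ha], A ++ c :: B1, m, B2, by simp, (hX m (by simp)).2 hm, ?_, ?_⟩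
    · intro w hw
      simp only [List.mem_append, List.mem_cons] at hw
      rcases hw with hw | rfl | hw
      · exact hn w (by simp [hw])
      · exact hn w (by simp)
      · exact fun h => hB1 w hw ((hX w (by simp [hw])).1 h)
    · intro e he
      have he' : e ∈ edges (c :: (B1 ++ m :: B2 ++ [v])) := by
        have := edges_sub_append_right (c :: B1) _ he
        simpa using this
      have h1 := hβ2 _ (mem_of_edge he').1
      have h2 := hβ2 _ (mem_of_edge he').2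
      rw [e2.sl h1 h2 (i2 e he'), e2.ln h1 h2 (i2 e he')]
      obtain ⟨h3, h4⟩ := hd e he
      constructor <;> nlinarith

lemma out_triv (hS : S = {u, v}) (hG : ∀ p q, G.Adj p q → p ∈ S) (huv : G.Adj u v) (hX : X ⊆ S) :
    Out G S X u v [] (Flat []) := by
  classical
  have hne := huv.ne
  have e1 : (fun a => if a = u then (0 : ℝ) else 1) u = 0 := by simp
  have e2 : (fun a => if a = u then (0 : ℝ) else 1) v = 1 := by simp [hne.symm]
  subst hS
  refine ⟨[], fun a => if a = u then 0 else 1, ⟨?_, ?_, ?_, ?_, ?_, ?_⟩, ⟨?_, ?_, ?_⟩, ?_⟩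
  · rintro a (rfl | rfl) b (rfl | rfl) h <;> simp_all
  · rintro a (rfl | rfl) h <;> simp_all
  · rintro a (rfl | rfl) h <;> simp_all
  · rintro a (rfl | rfl) t (rfl | rfl) h1 h2 h3 <;> simp_all
  · rintro a (rfl | rfl) h
    · simp_all
    · exact ⟨u, huv.symm, by simp [h]⟩
  · rintro a (rfl | rfl) h
    · exact ⟨v, huv, by simp [hne.symm]⟩
    · simp_all
  · simp [huv, hne.symm]
  · simp [huv, hne.symm]
  · intro w hw; simpa using hX hw
  · intro x _ T _
    refine ⟨fun _ => 0, ⟨rfl, rfl, ⟨∅, Shell.refl _, by simp, fun a b hab => ?_⟩, by simp [Ccv],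
      by simp, by simp [sl], le_rfl⟩, ?_, by simp [Flat]⟩
    · have h1 := hG a b hab
      have h2 := hG b a hab.symm
      have h3 := hab.ne
      rcases h1 with rfl | rfl <;> rcases h2 with rfl | rfl <;> simp_all
    · rintro ⟨w, rfl | rfl, h1, h2⟩ <;> simp_all

lemma out_A {τ : List V} (huv : G.Adj u v) (o : Out (delE G u v) S X u v τ (Arch u v τ)) :
    Out G S X u v [] (Flat []) := by
  obtain ⟨β, x0, o⟩ := o
  have hle : delE G u v ≤ G := fun _ _ h => h.1
  have i0 : Inc x0 (u :: (τ ++ [v])) := o.cb.incτ fun _ _ _ h => h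
  refine ⟨β, x0, o.gr.mono hle, ⟨by simpa [huv] using i0.ends,
    fun e he => ⟨hle (o.cb.adjβ e he).1, (o.cb.adjβ e he).2⟩, o.cb.Xβ⟩, fun x hx T hT => ?_⟩
  have hx' : Cons (delE G u v) x0 x := fun a b h => hx a b (hle h)
  obtain ⟨y, g, h1, h2⟩ := o.geo x hx' T hT
  obtain ⟨E, s1, s2, s3⟩ := g.sh
  have i1 := o.cb.incτ hx'
  have z : sl x y u v = 0 := by unfold sl; rw [g.yu, g.yv]; simp
  have hf : Face x y u [] τ v := ⟨fun e he => by simp at he; rw [he]; exact i1.ends, i1,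
    by simp [Cvx], g.ccv, by simpa [z, Arch] using h2⟩
  refine ⟨y, ⟨g.yu, g.yv, ⟨_, hf.shell.trans s1, ?_, fun a b hab => ?_⟩, by simp [Ccv], g.cvx,
    by simp [z], by simpa [z] using g.f0.trans g.f1⟩, h1, by simp [Flat]⟩
  · rintro e (he | he)
    · exact hle (o.cb.adjτ e he).1
    · exact hle (s2 e he)
  · by_cases h : (a = u ∧ b = v) ∨ (b = u ∧ a = v)
    · rcases h with ⟨rfl, rfl⟩ | ⟨rfl, rfl⟩ <;> simp
    · rcases s3 a b ⟨hab, h⟩ with h | h
      · exact Or.inl (Or.inl h.symm)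
      · exact Or.inr (Or.inl h.symm)

lemma aff_shear (S : Set V) (x y : V → ℝ) (η r : ℝ) :
    Aff S x y (fun a => y a + η * (x a - r)) 1 η (-η * r) := fun a _ => by ring

lemma Aff.congr {κ l m : ℝ} {y'' : V → ℝ} (h : Aff S x y y' κ l m) (e : ∀ a ∈ S, y'' a = y' a) :
    Aff S x y y'' κ l m := fun a ha => by rw [e a ha, h a ha]

lemma sl_flat (ha : y a = 0) (hb : y b = 0) : sl x y a b = 0 := by unfold sl; rw [ha, hb]; simp

lemma GeoS.flat {τ β : List V} (g : GeoS G X u v τ β x y) (hf : Flat τ x y) :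
    ∀ w ∈ u :: (τ ++ [v]), y w = 0 := by
  intro w hw
  simp only [List.mem_cons, List.mem_append, List.not_mem_nil, or_false] at hw
  rcases hw with rfl | hw | rfl
  exacts [g.yu, hf w hw, g.yv]

lemma Inc.mem_ne (h : Inc x (u :: (L ++ [v]))) {w : V} (hw : w ∈ L) : w ≠ u ∧ w ≠ v := by
  have := h.ne_ends hw
  exact ⟨fun e => by rw [e] at this; exact lt_irrefl _ this.1,
    fun e => by rw [e] at this; exact lt_irrefl _ this.2⟩

lemma out_series [Finite V] {S1 S2 X1 X2 : Set V} {τ1 τ2 : List V} (hS : S = S1 ∪ S2)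
    (hI : ∀ a ∈ S1, a ∈ S2 → a = c) (hu : u ∈ S1) (hc1 : c ∈ S1) (hc2 : c ∈ S2) (hv : v ∈ S2)
    (huc : u ≠ c) (hcv : c ≠ v)
    (hG : ∀ a b, G.Adj a b → (a ∈ S1 ∧ b ∈ S1) ∨ (a ∈ S2 ∧ b ∈ S2))
    (hX1 : ∀ w ∈ S1, w ≠ c → (w ∈ X ↔ w ∈ X1)) (hX2 : ∀ w ∈ S2, w ≠ c → (w ∈ X ↔ w ∈ X2))
    (hXS : X ⊆ S) (o1 : Out (res G S1) S1 X1 u c τ1 (Flat τ1))
    (o2 : Out (res G S2) S2 X2 c v τ2 fun _ _ => True)
    (hnt : ¬ NT S1 u c → c ∉ X → NT S2 c v) :
    Out G S X u v (τ1 ++ c :: τ2) (Arch u v (τ1 ++ c :: τ2)) := by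
  obtain ⟨β1, x1, o1⟩ := o1
  obtain ⟨β2, x2, o2⟩ := o2
  obtain ⟨x0, gr, m1, m2⟩ := greedy_series hS hI hu hc1 hc2 hv huc hcv o1.gr o2.gr
  have es : ∀ P Q : List V, u :: (P ++ c :: Q ++ [v]) = (u :: P) ++ c :: (Q ++ [v]) := by simp
  have adj : ∀ P Q : List V,
      (∀ e ∈ edges (u :: (P ++ [c])), (res G S1).Adj e.1 e.2 ∧ x1 e.1 < x1 e.2) →
      (∀ e ∈ edges (c :: (Q ++ [v])), (res G S2).Adj e.1 e.2 ∧ x2 e.1 < x2 e.2) →
      ∀ e ∈ edges (u :: (P ++ c :: Q ++ [v])), G.Adj e.1 e.2 ∧ x0 e.1 < x0 e.2 := by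
    intro P Q h1 h2 e he
    rw [es, edges_split] at he
    rcases he with he | he
    · exact ⟨(h1 e he).1.1, m1 _ (h1 e he).1.2.1 _ (h1 e he).1.2.2 (h1 e he).2⟩
    · exact ⟨(h2 e he).1.1, m2 _ (h2 e he).1.2.1 _ (h2 e he).1.2.2 (h2 e he).2⟩
  have sτ1 := path_sub res_in fun e he => (o1.cb.adjτ e he).1
  have sβ1 := path_sub res_in fun e he => (o1.cb.adjβ e he).1
  have sτ2 := path_sub res_in fun e he => (o2.cb.adjτ e he).1
  have sβ2 := path_sub res_in fun e he => (o2.cb.adjβ e he).1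
  refine ⟨β1 ++ c :: β2, x0, gr, ⟨adj _ _ o1.cb.adjτ o2.cb.adjτ, adj _ _ o1.cb.adjβ o2.cb.adjβ,
    fun w hw => ?_⟩, fun x hx T hT => ?_⟩
  · by_cases hwc : w = c
    · simp [hwc]
    have := hXS hw
    rw [hS] at this
    rcases this with h | h
    · have := o1.cb.Xβ w ((hX1 w h hwc).1 hw)
      simp only [List.mem_cons, List.mem_append] at this ⊢; clear * - this; tauto
    · have := o2.cb.Xβ w ((hX2 w h hwc).1 hw)
      simp only [List.mem_cons, List.mem_append] at this ⊢; clear * - this; tauto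
  have hx1 : Cons (res G S1) x1 x := fun a b h h' => hx a b h.1 (m1 _ h.2.1 _ h.2.2 h')
  have hx2 : Cons (res G S2) x2 x := fun a b h h' => hx a b h.1 (m2 _ h.2.1 _ h.2.2 h')
  have iτ1 := o1.cb.incτ hx1
  have iβ1 := o1.cb.incβ hx1
  have iτ2 := o2.cb.incτ hx2
  have iβ2 := o2.cb.incβ hx2
  obtain ⟨y1, g1, n1, k1⟩ := o1.geo x hx1 (x v) iτ2.ends
  obtain ⟨y2, g2, n2, -⟩ := o2.geo x hx2 T hT
  have fl := g1.flat k1
  have xβ1 : ∀ w ∈ β1, w ∈ X ↔ w ∈ X1 := fun w hw =>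
    hX1 w (sβ1 w (by simp [hw])) (iβ1.mem_ne hw).2
  have hη : ∃ η, 0 < η ∧ ((∃ A1 m A2, β1 ++ [c] = A1 ++ m :: A2 ∧ m ∈ X ∧ (∀ w ∈ A1, w ∉ X) ∧
        Desc x (fun a => y1 a + η * (x a - x u)) (x v) (m :: A2)) ∨
      ((∀ w ∈ β1 ++ [c], w ∉ X) ∧ 0 < fs x y2 (c :: (β2 ++ [v])) ∧ Peak X2 v β2 x y2 T ∧
        ∀ a, (u :: β1).getLast? = some a → sl x (fun a => y1 a + η * (x a - x u)) a c ≤ η)) := by
    by_cases hn : NT S1 u c
    · obtain ⟨-, B1, m, B2, rfl, h1, h2, h3⟩ := n1 hn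
      obtain ⟨η, h4, h5⟩ := exists_small (h3.eventually fun a => x a - x u)
      exact ⟨η, h4, Or.inl ⟨B1, m, B2 ++ [c], by simp, (xβ1 m (by simp)).2 h1,
        fun w hw h => h2 w hw ((xβ1 w (by simp [hw])).1 h), h5⟩⟩
    · obtain rfl := triv_nil iβ1 sβ1 hn
      refine ⟨1, one_pos, ?_⟩
      by_cases hc : c ∈ X
      · exact Or.inl ⟨[], c, [], rfl, hc, by simp, by simp [Desc]⟩
      · refine Or.inr ⟨by simpa using hc, (n2 (hnt hn hc)).1, (n2 (hnt hn hc)).2, fun a ha => ?_⟩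
        simp at ha; subst ha
        rw [(aff_shear S1 x y1 1 (x u)).sl hu hc1 iτ1.ends, sl_flat g1.yu g1.yv]; simp
  obtain ⟨η, hη, hcase⟩ := hη
  have a0 := aff_shear S1 x y1 η (x u)
  obtain ⟨y, κ, l, m, hκ, e1, a2, e3, -, e5, e6, e7⟩ := attach (τ2 := τ2) hI sβ1 iβ1
    (a0.tri_le one_pos sβ1 iβ1 (fun p q r h1 h2 h3 h4 => h3 ((xβ1 q (mid_mem iβ1 h1 h2)).2 h4))
      g1.cvx)
    (by rw [g1.yv, zero_add]; exact mul_pos hη (sub_pos.2 iτ1.ends)) hT g2 sβ2 iβ2
    (fun w hw => hX2 w (sβ2 w (by simp [hw])) (iβ2.mem_ne hw).1) hη.le hcase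
  have a1 := a0.congr e1
  have sη : ∀ e ∈ edges (u :: (τ1 ++ [c])), sl x y e.1 e.2 = η := fun e he => by
    rw [a1.sl (sτ1 _ (mem_of_edge he).1) (sτ1 _ (mem_of_edge he).2) (iτ1 e he),
      sl_flat (fl _ (mem_of_edge he).1) (fl _ (mem_of_edge he).2)]; simp
  have ef : ∀ P Q : List V, fs x y (u :: (P ++ c :: Q ++ [v])) = fs x y (u :: (P ++ [c])) := by
    intro P Q; rw [← fs_append P (Q ++ [v])]; simp
  have fτ : fs x y (u :: (τ1 ++ c :: τ2 ++ [v])) = fs x y1 (u :: (τ1 ++ [c])) + η := by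
    rw [ef, a1.fs sτ1 iτ1]; ring
  have fβ : fs x y (u :: (β1 ++ c :: β2 ++ [v])) = fs x y1 (u :: (β1 ++ [c])) + η := by
    rw [ef, a1.fs sβ1 iβ1]; ring
  have f0 := g1.f0
  have f1 := g1.f1
  obtain ⟨E1, s1, s2, s3⟩ := g1.sh
  obtain ⟨E2, t1, t2, t3⟩ := g2.sh
  refine ⟨y, ⟨by rw [e1 u hu, g1.yu]; simp, e3, ⟨E1 ∪ E2, ?_, ?_, fun a b hab => ?_⟩, ?_, e6,
    by linarith, by linarith⟩, fun _ => ⟨by linarith, e7⟩, by unfold Arch; linarith⟩
  · have p1 := (s1.aff a1 one_pos sτ1 fun e he => (s2 e he).2).ctx [] (τ2 ++ [v])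
    have p2 := (t1.aff a2 hκ sτ2 fun e he => (t2 e he).2).ctx (u :: β1) []
    simp only [List.nil_append, List.append_nil, List.cons_append, List.append_assoc] at p1 p2 ⊢
    exact p1.trans p2
  · rintro e (he | he)
    exacts [(s2 e he).1, (t2 e he).1]
  · rw [es, edges_split]
    rcases hG a b hab with h | h
    · have := s3 a b ⟨hab, h⟩
      simp only [mem_union, List.cons_append] at this ⊢; clear * - this; tauto
    · have := t3 a b ⟨hab, h⟩
      simp only [mem_union, List.cons_append] at this ⊢; clear * - this; tauto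
  · unfold Ccv
    rw [es, tri_split]
    refine ⟨a1.ccv one_pos sτ1 iτ1 g1.ccv, a2.ccv hκ sτ2 iτ2 g2.ccv, fun p q h1 h2 => ?_⟩
    rw [sη (p, c) (last_edge h1), ← fs_head h2, a2.fs sτ2 iτ2]
    exact e5

lemma out_B {H B XH XB : Set V} {τH τB B1 B' : List V} {y1 : V} {x1 : V → ℝ} (hS : S = H ∪ B)
    (hI : ∀ a ∈ H, a ∈ B → a = c) (hv : v ∈ B) (hcv : c ≠ v) (hadj : G.Adj y1 v)
    (hG : ∀ a b, G.Adj a b → (a ∈ H ∧ b ∈ H) ∨ (a ∈ B ∧ b ∈ B) ∨
      (a = v ∧ b ∈ B' ++ [y1]) ∨ (b = v ∧ a ∈ B' ++ [y1]))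
    (o1 : OutAt (res G H) H XH u y1 τH (B1 ++ c :: B') x1 (Flat τH))
    (o2 : Out (res G B) B XB c v τB fun _ _ => True)
    (hXH : ∀ w ∈ B1, w ∈ X ↔ w ∈ XH) (hcX : c ∈ XH) (hN : ∀ w ∈ B', w ∈ XH → G.Adj w v)
    (hXB : ∀ w ∈ B, w ≠ c → w ≠ v → (w ∈ X ↔ w ∈ XB))
    (hX : ∀ w ∈ X, w ∈ u :: B1 ∨ w = c ∨ w ∈ XB)
    (hnt : c ∉ X → (∀ w ∈ B1, w ∉ X) → NT B c v) (arch : Prop) :
    Out G S X u v (τH ++ [y1]) fun x y =>
      (arch → Arch u v (τH ++ [y1]) x y) ∧ (¬ arch → Flat (τH ++ [y1]) x y) := by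
  obtain ⟨β2, x2, o2⟩ := o2
  have sτ1 := path_sub res_in fun e he => (o1.cb.adjτ e he).1
  have sβ1 := path_sub res_in fun e he => (o1.cb.adjβ e he).1
  have sτ2 := path_sub res_in fun e he => (o2.cb.adjτ e he).1
  have sβ2 := path_sub res_in fun e he => (o2.cb.adjβ e he).1
  have hu : u ∈ H := sτ1 u (by simp)
  have hy1 : y1 ∈ H := sτ1 y1 (by simp)
  have hc1 : c ∈ H := sβ1 c (by simp)
  have hc2 : c ∈ B := sτ2 c (by simp)
  have hvH : v ∉ H := fun h => hcv (hI v h hv).symm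
  have hcne := (o1.cb.incβ fun _ _ _ h => h).mem_ne (w := c) (by simp)
  obtain ⟨x0, gr, m1, m2⟩ := greedy_B hS hI hu hc1 hy1 hc2 hv hcne.1.symm hcv hadj o1.gr o2.gr
  have es : ∀ P Q : List V, ∀ w, u :: (P ++ c :: Q ++ [w]) = (u :: P) ++ c :: (Q ++ [w]) := by simp
  have et : u :: (τH ++ [y1] ++ [v]) = (u :: τH) ++ y1 :: [v] := by simp
  have sub1 : edges (u :: (B1 ++ [c])) ⊆ edges (u :: (B1 ++ c :: B' ++ [y1])) := by
    rw [es, edges_split]; exact subset_union_left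
  have sub2 : edges (c :: (B' ++ [y1])) ⊆ edges (u :: (B1 ++ c :: B' ++ [y1])) := by
    rw [es, edges_split]; exact subset_union_right
  have hy1v : x0 y1 < x0 v := gr.hi y1 (hS ▸ Or.inl hy1) fun e => hvH (e ▸ hy1)
  refine ⟨B1 ++ c :: β2, x0, gr, ⟨fun e he => ?_, fun e he => ?_, fun w hw => ?_⟩,
    fun x hx T hT => ?_⟩
  · rw [et, edges_split] at he
    rcases he with he | he
    · have h1 := o1.cb.adjτ e he
      exact ⟨h1.1.1, m1 _ h1.1.2.1 _ h1.1.2.2 h1.2⟩
    · simp at he; rw [he]; exact ⟨hadj, hy1v⟩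
  · rw [es, edges_split] at he
    rcases he with he | he
    · have h1 := o1.cb.adjβ e (sub1 he)
      exact ⟨h1.1.1, m1 _ h1.1.2.1 _ h1.1.2.2 h1.2⟩
    · have h1 := o2.cb.adjβ e he
      exact ⟨h1.1.1, m2 _ h1.1.2.1 _ h1.1.2.2 h1.2⟩
  · rcases hX w hw with h | h | h
    · simp only [List.mem_cons, List.mem_append] at h ⊢; clear * - h; tauto
    · simp [h]
    · have := o2.cb.Xβ w h
      simp only [List.mem_cons, List.mem_append] at this ⊢; clear * - this; tauto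
  have hx1 : Cons (res G H) x1 x := fun a b h h' => hx a b h.1 (m1 _ h.2.1 _ h.2.2 h')
  have hx2 : Cons (res G B) x2 x := fun a b h h' => hx a b h.1 (m2 _ h.2.1 _ h.2.2 h')
  have iτ1 := o1.cb.incτ hx1
  have iβ1 := o1.cb.incβ hx1
  have iτ2 := o2.cb.incτ hx2
  have iβ2 := o2.cb.incβ hx2
  have hyv : x y1 < x v := hx _ _ hadj hy1v
  obtain ⟨y', g1, n1, k1⟩ := o1.geo x hx1 (x v) hyv
  obtain ⟨y2, g2, n2, -⟩ := o2.geo x hx2 T hT
  have fl := g1.flat k1
  obtain ⟨p1, p2⟩ := n1 ⟨c, hc1, hcne.1, hcne.2⟩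
  have hh := peak_pos g1 iβ1 p1 p2 c (by simp)
  obtain ⟨A1, m, A2, q1, q2, q3, q4⟩ := p2
  obtain ⟨η, hη, hη1, hη2, q5⟩ : ∃ η : ℝ, 0 ≤ η ∧ (arch → 0 < η) ∧ (¬ arch → η = 0) ∧
      Desc x (fun a => y' a + η * (x a - x u)) (x v) (m :: (A2 ++ [y1])) := by
    by_cases ha : arch
    · obtain ⟨η, h4, h5⟩ := exists_small (q4.eventually fun a => x a - x u)
      exact ⟨η, h4.le, fun _ => h4, fun h => absurd ha h, h5⟩
    · exact ⟨0, le_rfl, fun h => absurd h ha, fun _ => rfl, by simpa using q4⟩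
  -- the peak is not after `c`
  obtain ⟨A3, q6, q7⟩ : ∃ A3, B1 ++ [c] = A1 ++ m :: A3 ∧ A2 = A3 ++ B' := by
    rcases List.append_eq_append_iff.1 q1 with ⟨a', h1, h2⟩ | ⟨a', h1, h2⟩
    · cases a' with
      | nil => simp at h1 h2; exact ⟨[], by simp [h1, h2.1], by simp [h2.2]⟩
      | cons d a' => simp at h2; exact absurd hcX (q3 c (by simp [h1, h2.1]))
    · cases a' with
      | nil => simp at h1 h2; exact ⟨[], by simp [h1, h2.1], by simp [h2.2]⟩
      | cons d a' => simp at h2; exact ⟨a' ++ [c], by simp [h1, h2.1], by simp [h2.2]⟩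
  subst q7
  have q8 : ∃ A4, m :: A3 = A4 ++ [c] := by
    rcases List.eq_nil_or_concat A3 with rfl | ⟨A4, d, rfl⟩
    · obtain ⟨-, h2⟩ := List.append_inj' q6 rfl
      exact ⟨[], h2.symm⟩
    · rw [List.concat_eq_append, ← List.cons_append, ← List.append_assoc] at q6
      obtain ⟨-, h2⟩ := List.append_inj' q6 rfl
      exact ⟨m :: A4, by simp [h2]⟩
  obtain ⟨A4, q8⟩ := q8
  have q9 : m :: (A3 ++ B' ++ [y1]) = A4 ++ c :: (B' ++ [y1]) := by
    rw [List.append_assoc, ← List.cons_append, q8]; simp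
  have a0 := aff_shear H x y' η (x u)
  have sA : ∀ w ∈ u :: (B1 ++ [c]), w ∈ H := fun w hw => sβ1 w (by
    simp only [List.mem_cons, List.mem_append] at hw ⊢; clear * - hw; tauto)
  have sR : ∀ w ∈ c :: (B' ++ [y1]), w ∈ H := fun w hw => sβ1 w (by
    simp only [List.mem_cons, List.mem_append] at hw ⊢; clear * - hw; tauto)
  have iA : Inc x (u :: (B1 ++ [c])) := fun e he => iβ1 e (sub1 he)
  have iR : Inc x (c :: (B' ++ [y1])) := fun e he => iβ1 e (sub2 he)
  have cv := g1.cvx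
  rw [es, tri_split] at cv
  obtain ⟨a', ha'⟩ : ∃ a', (u :: B1).getLast? = some a' :=
    ⟨_, List.getLast?_eq_getLast_of_ne_nil (by simp)⟩
  obtain ⟨y, κ, l, mm, hκ, e1, a2, e3, e4, -, e6, e7⟩ := attach (τ2 := τB) (X := X)
    (σ := max 0 (sl x (fun a => y' a + η * (x a - x u)) a' c)) hI sA iA
    (a0.tri_le one_pos sA iA (fun p q r h1 h2 h3 h4 => h3 ((hXH q (mid_mem iA h1 h2)).2 h4)) cv.1)
    (add_pos_of_pos_of_nonneg hh (mul_nonneg hη (sub_pos.2 iA.ends).le)) hT g2 sβ2 iβ2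
    (fun w hw => hXB w (sβ2 w (by simp [hw])) (iβ2.mem_ne hw).1 (iβ2.mem_ne hw).2)
    (le_max_left _ _) (by
      have hA1 : ∀ w ∈ A1, w ∈ B1 := by
        intro w hw
        rw [q8, ← List.append_assoc] at q6
        rw [(List.append_inj' q6 rfl).1]; simp [hw]
      by_cases hm : m ∈ X
      · refine Or.inl ⟨A1, m, A3, q6, hm, fun w hw h => q3 w hw ((hXH w (hA1 w hw)).1 h),
          q5.sub ?_⟩
        rw [List.append_assoc, ← List.cons_append]; exact edges_sub_append_left _ _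
      · have hA4 : A4 = [] := by
          cases A4 with
          | nil => rfl
          | cons d A4 =>
            exfalso
            rw [q8, ← List.append_assoc] at q6
            simp at q8
            exact hm ((hXH m (by rw [(List.append_inj' q6 rfl).1]; simp [q8.1])).2 q2)
        subst hA4
        simp at q8
        obtain ⟨rfl, rfl⟩ := q8
        obtain ⟨rfl, -⟩ := List.append_inj' q6 rfl
        have hB1 : ∀ w ∈ B1, w ∉ X := fun w hw h => q3 w hw ((hXH w hw).1 h)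
        refine Or.inr ⟨fun w hw => ?_, (n2 (hnt hm hB1)).1, (n2 (hnt hm hB1)).2, fun a ha => ?_⟩
        · rcases List.mem_append.1 hw with hw | hw
          · exact hB1 w hw
          · simp at hw; rwa [hw]
        · rw [ha'] at ha; simp at ha; subst ha; exact le_max_right _ _)
  have a1 := a0.congr e1
  have dR : Desc x y (x v) (c :: (B' ++ [y1])) :=
    (q5.sub (by rw [q9]; exact edges_sub_append_right _ _)).congr fun w hw => e1 w (sR w hw)
  have iR' : Inc x (c :: (B' ++ [y1] ++ [v])) := by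
    have : c :: (B' ++ [y1] ++ [v]) = (c :: B') ++ y1 :: [v] := by simp
    rw [this, inc_split]
    exact ⟨iR, fun e he => by simp at he; rw [he]; exact hyv⟩
  obtain ⟨M, EF, r1, r2, r3, r4, r5, r6⟩ := fan (x := x) (y := y) {w | G.Adj w v} (B' ++ [y1]) c iR'
    (a1.tri_le one_pos sR iR (fun p q r h1 h2 h3 h4 => h3 (hN q (mid_mem iR h1 h2) h4)) cv.2.1)
    fun e he => by rw [e3]; exact (dR e he).2
  have hf : Face x y c M τB v := by
    refine ⟨r2, iτ2, r3, a2.ccv hκ sτ2 iτ2 g2.ccv, ?_⟩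
    obtain ⟨d, d1, d2, -⟩ := fs_edge (x := x) (a := c) (c := y1) B'
    rw [fs_head (b := d) (by rw [← r4] at d2; rw [List.head?_append, d2]; rfl), a2.fs sτ2 iτ2, ← e4]
    have h1 := (sl_lt_of_ln (y := y) (iR _ d1) (Inc.lt (P := c :: (B' ++ [y1])) iR' (mem_of_edge d1).2
      (by simp : v ∈ [v])) (by rw [e3]; exact (dR _ d1).2)).2
    linarith [mul_nonneg hκ.le g2.f0]
  have sη : ∀ e ∈ edges (u :: (τH ++ [y1])), sl x y e.1 e.2 = η := fun e he => by
    rw [a1.sl (sτ1 _ (mem_of_edge he).1) (sτ1 _ (mem_of_edge he).2) (iτ1 e he),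
      sl_flat (fl _ (mem_of_edge he).1) (fl _ (mem_of_edge he).2)]; simp
  have fτ : fs x y (u :: (τH ++ [y1] ++ [v])) = fs x y' (u :: (τH ++ [y1])) + η := by
    rw [List.append_assoc, List.singleton_append, fs_append, a1.fs sτ1 iτ1]; ring
  have fτ' : fs x y' (u :: (τH ++ [y1])) = 0 := by
    obtain ⟨d, d1, -, d2⟩ := fs_edge (x := x) (a := u) (c := y1) τH
    rw [d2, sl_flat (fl _ (mem_of_edge d1).1) (fl _ (mem_of_edge d1).2)]
  have fβ : fs x y (u :: (B1 ++ c :: β2 ++ [v])) = fs x y' (u :: (B1 ++ c :: B' ++ [y1])) + η := by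
    rw [List.append_assoc, List.append_assoc, List.cons_append, List.cons_append,
      fs_append B1 (β2 ++ [v]), fs_append B1 (B' ++ [y1]), a1.fs sA iA]; ring
  obtain ⟨E1, s1, s2, s3⟩ := g1.sh
  obtain ⟨E2, t1, t2, t3⟩ := g2.sh
  refine ⟨y, ⟨by rw [e1 u hu, g1.yu]; simp, e3,
    ⟨E1 ∪ (EF ∪ (edges (c :: (τB ++ [v])) ∪ E2)), ?_, ?_, fun a b hab => ?_⟩, ?_, e6,
    by linarith, by linarith⟩, fun _ => ⟨by linarith, e7⟩,
    fun h => by unfold Arch; linarith [hη1 h], fun h w hw => ?_⟩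
  · have p1 := (s1.aff a1 one_pos sτ1 fun e he => (s2 e he).2).ctx [] [v]
    have p2 := (r1.trans (hf.shell.trans
      (t1.aff a2 hκ sτ2 fun e he => (t2 e he).2))).ctx (u :: B1) []
    simp only [List.nil_append, List.append_nil, List.cons_append, List.append_assoc] at p1 p2 ⊢
    exact p1.trans p2
  · rintro e (he | he | he | he)
    · exact (s2 e he).1
    · have := r5 e he
      rw [this.1]; exact this.2.1
    · exact (o2.cb.adjτ e he).1.1
    · exact (t2 e he).1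
  · rw [et, edges_split]
    have key : ∀ w ∈ B' ++ [y1], G.Adj w v → (w, v) ∈ EF ∨ (w, v) ∈ edges [y1, v] := by
      intro w hw hwv
      refine (r6 w hw hwv).imp id fun h => ?_
      have : c :: (B' ++ [y1] ++ [v]) = (c :: B') ++ y1 :: [v] := by simp
      rw [this, edges_split] at h
      exact h.resolve_left fun h => hvH (sR v (mem_of_edge h).2)
    rcases hG a b hab with h | h | ⟨rfl, h⟩ | ⟨rfl, h⟩
    · have := s3 a b ⟨hab, h⟩
      simp only [mem_union, List.cons_append] at this ⊢; clear * - this; tauto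
    · have := t3 a b ⟨hab, h⟩
      simp only [mem_union, List.cons_append] at this ⊢; clear * - this; tauto
    · have := key b h hab.symm
      simp only [mem_union, List.cons_append] at this ⊢; clear * - this; tauto
    · have := key a h hab
      simp only [mem_union, List.cons_append] at this ⊢; clear * - this; tauto
  · unfold Ccv
    rw [et, tri_split]
    refine ⟨a1.ccv one_pos sτ1 iτ1 g1.ccv, by simp, fun p q h1 h2 => ?_⟩
    simp at h2; subst h2
    rw [sη (p, y1) (last_edge h1)]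
    refine le_trans ?_ hη
    unfold sl
    rw [e3, e1 y1 hy1, g1.yv]
    exact div_nonpos_of_nonpos_of_nonneg
      (by linarith [mul_nonneg hη (sub_pos.2 iτ1.ends).le]) (by linarith)
  · have hw' : w ∈ u :: (τH ++ [y1]) := List.mem_cons_of_mem _ hw
    rw [e1 w (sτ1 w hw'), fl w hw', hη2 h]; simp

end Pool.Agent.MP_250189_co

end

-- part MP_250189_co.PathT
section

/-! Existence of an induced path with connected complement that avoids the marked vertices. -/

namespace Pool.Agent.MP_250189_co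

open Set

variable {V : Type*} {G : SimpleGraph V}

lemma nd4 {L1 L2 L3 L4 : List V} (h : (L1 ++ L2 ++ L3 ++ L4).Nodup) :
    Disjoint (ls L1) (ls L2) ∧ Disjoint (ls L1) (ls L3) ∧ Disjoint (ls L1) (ls L4) ∧
    Disjoint (ls L2) (ls L3) ∧ Disjoint (ls L2) (ls L4) ∧ Disjoint (ls L3) (ls L4) := by
  simp only [List.nodup_append, List.mem_append] at h
  obtain ⟨⟨⟨-, -, h1⟩, -, h2⟩, -, h3⟩ := h
  simp only [Set.disjoint_left, mem_ls]
  exact ⟨fun x a b => h1 x a x b rfl, fun x a b => h2 x (Or.inl a) x b rfl,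
    fun x a b => h3 x (Or.inl (Or.inl a)) x b rfl, fun x a b => h2 x (Or.inr a) x b rfl,
    fun x a b => h3 x (Or.inl (Or.inr a)) x b rfl, fun x a b => h3 x (Or.inr a) x b rfl⟩

lemma ch4 {R : V → V → Prop} {L1 L2 L3 L4 : List V} (h : (L1 ++ L2 ++ L3 ++ L4).IsChain R) :
    L1.IsChain R ∧ L2.IsChain R ∧ L3.IsChain R ∧ L4.IsChain R ∧ (L1 ++ L2).IsChain R ∧
      (L3 ++ L4).IsChain R := by
  have h1 := h.left_of_append
  have h2 := h1.left_of_append
  have h3 : (L3 ++ L4).IsChain R := by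
    rw [List.append_assoc] at h; exact h.right_of_append
  exact ⟨h2.left_of_append, h2.right_of_append, h1.right_of_append, h.right_of_append, h2, h3⟩

lemma Wk.head_mem {a b : V} {P R : List V} (h : Wk G a (P ++ R) b) (hP : P ≠ []) : a ∈ P := by
  cases P with
  | nil => exact absurd rfl hP
  | cons p P => have := h.2.1; simp at this; simp [this]

lemma Wk.last_mem {a b : V} {P R : List V} (h : Wk G a (P ++ R) b) (hR : R ≠ []) : b ∈ R := by
  have := h.2.2
  rw [List.getLast?_append, List.getLast?_eq_getLast_of_ne_nil hR] at this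
  simp at this
  rw [← this]; exact List.getLast_mem hR

lemma mem_of_concat_eq {A P I : List V} {l L : V} (h : A ++ [l] = P ++ L :: I) : l ∈ L :: I := by
  have := congrArg List.getLast? h
  rw [List.getLast?_append, List.getLast?_append] at this
  rw [List.getLast?_eq_getLast_of_ne_nil (List.cons_ne_nil L I)] at this
  simp only [List.getLast?_singleton, Option.some_or, Option.some.injEq] at this
  rw [this]; exact List.getLast_mem _

theorem lemmaT [Finite V] {S X : Set V} {a b x0 : V} (hS : ∀ p q, G.Adj p q → p ∈ S)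
    (ha : a ∈ S) (hb : b ∈ S) (hab : a ≠ b) (hx0 : x0 ∈ S) (hx0a : x0 ≠ a) (hx0b : x0 ≠ b)
    (h2 : ∀ c, Conn G (S \ {c}))
    (h3 : ∀ W, W ⊆ S → W.Nonempty → a ∉ W → b ∉ W → x0 ∉ W → Disjoint W X →
      ∀ L R, L ≠ x0 → R ≠ x0 → ¬ Cl G W {L, R})
    (hc : Conn G (S \ {a, b}))
    (hK : ∀ w ∈ X, w ≠ a → w ≠ b →
      x0 ∈ X ∧ a ∈ X ∧ b ∈ X ∧ ∃ z, z ∉ S ∧ NoK (aug (addE G a b) X z)) :
    ∃ τ, Wk G a τ b ∧ τ.Nodup ∧ Ind G τ ∧ (∀ w ∈ τ, w ∈ X → w = a ∨ w = b) ∧
      Conn G (S \ ls τ) := by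
  classical
  set Good : List V → Prop := fun τ => Wk G a τ b ∧ x0 ∉ τ ∧ ∀ x ∈ τ, x ∈ S with hGood
  set cp : List V → Set V := fun τ => comp G (S \ ls τ) x0 with hcp
  have hex : ∃ n, ∃ τ, Good τ ∧ (cp τ)ᶜ.ncard = n := by
    obtain ⟨τ, h1, h2'⟩ := (h2 x0 a ⟨ha, hx0a.symm⟩ b ⟨hb, hx0b.symm⟩).exists_wk ⟨ha, hx0a.symm⟩
    exact ⟨_, τ, ⟨h1, fun h => (h2' _ h).2 rfl, fun x hx => (h2' x hx).1⟩, rfl⟩
  have hex2 : ∃ m, ∃ τ, (Good τ ∧ (cp τ)ᶜ.ncard = Nat.find hex) ∧ τ.length = m := by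
    obtain ⟨τ, h⟩ := Nat.find_spec hex
    exact ⟨_, τ, h, rfl⟩
  obtain ⟨τ, ⟨⟨hwk, hx0τ, hτS⟩, hn⟩, hlen⟩ := Nat.find_spec hex2
  set D := S \ ls τ with hD
  set M0 := comp G D x0 with hM0
  have hx0D : x0 ∈ D := ⟨hx0, hx0τ⟩
  have hx0M : x0 ∈ M0 := mem_comp_self hx0D
  have hM0c : Conn G M0 := conn_comp hx0D
  have hM0τ : ∀ x ∈ M0, x ∉ τ := fun x hx => hx.1.2
  have hmax : ∀ τ', Good τ' → M0 ⊆ cp τ' → cp τ' = M0 := by
    intro τ' hg hsub
    have h1 := Nat.find_min' hex ⟨τ', hg, rfl⟩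
    rw [← hn] at h1
    have := Set.eq_of_subset_of_ncard_le (compl_subset_compl.2 hsub) h1 (Set.toFinite _)
    exact compl_injective this
  have hmin : ∀ τ', Wk G a τ' b → (∀ x ∈ τ', x ∈ τ) → τ.length ≤ τ'.length := by
    intro τ' hw hsub
    have hg : Good τ' := ⟨hw, fun h => hx0τ (hsub _ h), fun x hx => hτS x (hsub x hx)⟩
    have h1 : M0 ⊆ cp τ' := hM0c.subset_comp
      (fun x hx => ⟨hx.1.1, fun h => hM0τ x hx (hsub x h)⟩) hx0M
    have h2' := hmax τ' hg h1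
    rw [hlen]
    exact Nat.find_min' hex2 ⟨τ', ⟨hg, by rw [h2', ← hn]⟩, rfl⟩
  have hnd : τ.Nodup := by
    by_contra hcon
    obtain ⟨P, c, M, R, rfl⟩ := not_nodup_split hcon
    have := hmin _ hwk.shortcut (fun x hx => by
      simp only [List.mem_append, List.mem_cons] at hx ⊢; tauto)
    simp at this; omega
  have hind : Ind G τ := by
    rintro P c M d R rfl hcd
    have := hmin _ (hwk.replace (N := []) (by simpa using hcd)) (fun x hx => by
      simp only [List.mem_append, List.mem_cons, List.not_mem_nil] at hx ⊢; tauto)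
    simp only [List.length_append, List.length_cons, List.length_nil] at this
    exact List.eq_nil_of_length_eq_zero (by omega)
  have haτ : a ∈ τ := by
    have := Wk.head_mem (P := τ) (R := []) (by simpa using hwk) hwk.ne_nil; exact this
  have hbτ : b ∈ τ := by
    have := Wk.last_mem (P := []) (R := τ) (by simpa using hwk) hwk.ne_nil; exact this
  set att : V → Prop := fun t => ∃ m ∈ M0, G.Adj t m with hatt
  have RC : ∀ P l Mid r R w w1 w2 t, τ = P ++ l :: Mid ++ r :: R → w ∈ D → w ∉ M0 →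
      w1 ∈ comp G D w → w2 ∈ comp G D w → G.Adj l w1 → G.Adj r w2 → t ∈ Mid → ¬ att t := by
    rintro P l Mid r R w w1 w2 t hτ hw hwM h1 h2' a1 a2 ht ⟨m, hm, htm⟩
    obtain ⟨N, hN, hNsub⟩ := (conn_comp hw w1 h1 w2 h2').exists_wk h1
    have hdis := Set.disjoint_left.1 (comp_disjoint hwM hw)
    have hch : (l :: N ++ [r]).IsChain G.Adj := by
      rw [List.isChain_append]
      refine ⟨?_, by simp, ?_⟩
      · rw [List.isChain_cons]
        exact ⟨fun y hy => by rw [hN.2.1] at hy; cases hy; exact a1, hN.1⟩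
      · intro x hx y hy
        rw [List.getLast?_cons, hN.2.2] at hx
        simp at hx hy
        rw [← hx, ← hy]; exact a2.symm
    have hw' : Wk G a (P ++ l :: N ++ r :: R) b := (hτ ▸ hwk).replace hch
    have hsub : ∀ x ∈ P ++ l :: N ++ r :: R, x ∈ N ∨ (x ∈ τ ∧ x ∉ Mid) := by
      intro x hx
      by_cases hxN : x ∈ N
      · exact Or.inl hxN
      · right
        have hnd' := hnd
        rw [hτ] at hnd' ⊢
        have e : P ++ l :: Mid ++ r :: R = P ++ [l] ++ Mid ++ (r :: R) := by simp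
        rw [e] at hnd'
        obtain ⟨-, d1, -, d2, -, d3⟩ := nd4 hnd'
        simp only [List.mem_append, List.mem_cons] at hx ⊢
        refine ⟨by tauto, fun hxM => ?_⟩
        rcases hx with (hx | hx | hx) | hx
        · exact Set.disjoint_left.1 d1 hx hxM
        · exact Set.disjoint_left.1 d2 (by simp [hx]) hxM
        · exact hxN hx
        · exact Set.disjoint_left.1 d3 hxM (by simpa using hx)
    have hg : Good (P ++ l :: N ++ r :: R) := by
      refine ⟨hw', fun h => ?_, fun x hx => ?_⟩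
      · rcases hsub _ h with h | h
        · exact hdis hx0M (hNsub _ h)
        · exact hx0τ h.1
      · rcases hsub _ hx with h | h
        · exact (hNsub _ h).1.1
        · exact hτS _ h.1
    have h5 : M0 ⊆ cp (P ++ l :: N ++ r :: R) := hM0c.subset_comp (fun x hx => ⟨hx.1.1, fun h => by
      rcases hsub _ h with h | h
      · exact hdis hx (hNsub _ h)
      · exact hM0τ x hx h.1⟩) hx0M
    have htτ : t ∈ τ := by rw [hτ]; simp [ht]
    have h6 : t ∈ cp (P ++ l :: N ++ r :: R) := comp_closed (h5 hm) htm.symm ⟨hτS t htτ, fun h => by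
      rcases hsub _ h with h | h
      · exact (hNsub _ h).1.2 htτ
      · exact h.2 ht⟩
    rw [hmax _ hg h5] at h6
    exact hM0τ t h6 htτ
  set WI : List V → Set V := fun I => ls I ∪
    {w | w ∈ D ∧ w ∉ M0 ∧ ∃ t ∈ I, ∃ w' ∈ comp G D w, G.Adj t w'} with hWI
  have GC : ∀ (P I Q : List V) (C : Set V), τ = P ++ I ++ Q → (∀ t ∈ I, ¬ att t) →
      (∀ t' ∈ P, t' ∈ C ∨ ∃ P1 P2, P = P1 ++ t' :: P2 ∧ ∃ L ∈ P2, att L) →
      (∀ t' ∈ Q, t' ∈ C ∨ ∃ Q1 Q2, Q = Q1 ++ t' :: Q2 ∧ ∃ R ∈ Q1, att R) → Cl G (WI I) C := by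
    intro P I Q C hτ hI hP hQ x hx y hxy
    have hyS : y ∈ S := hS _ _ hxy.symm
    by_cases hyτ : y ∈ τ
    · have hy' : y ∈ P ∨ y ∈ I ∨ y ∈ Q := by rw [hτ] at hyτ; simpa [or_assoc] using hyτ
      rcases hy' with hy | hy | hy
      · rcases hP y hy with h | ⟨P1, P2, rfl, L, hL, hLa⟩
        · exact Or.inr h
        · exfalso
          rcases hx with hx | ⟨hxD, hxM, t, ht, w', hw', htw⟩
          · obtain ⟨I1, I2, rfl⟩ := List.append_of_mem hx
            have := hind P1 y (P2 ++ I1) x (I2 ++ Q) (by rw [hτ]; simp) hxy.symm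
            simp at this
            rw [this.1] at hL; simp at hL
          · obtain ⟨I1, I2, rfl⟩ := List.append_of_mem ht
            exact RC P1 y (P2 ++ I1) t (I2 ++ Q) x x w' L (by rw [hτ]; simp) hxD hxM
              (mem_comp_self hxD) hw' hxy.symm htw (by simp [hL]) hLa
      · exact Or.inl (Or.inl hy)
      · rcases hQ y hy with h | ⟨Q1, Q2, rfl, L, hL, hLa⟩
        · exact Or.inr h
        · exfalso
          rcases hx with hx | ⟨hxD, hxM, t, ht, w', hw', htw⟩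
          · obtain ⟨I1, I2, rfl⟩ := List.append_of_mem hx
            have := hind (P ++ I1) x (I2 ++ Q1) y Q2 (by rw [hτ]; simp) hxy
            simp at this
            rw [this.2] at hL; simp at hL
          · obtain ⟨I1, I2, rfl⟩ := List.append_of_mem ht
            exact RC (P ++ I1) t (I2 ++ Q1) y Q2 x w' x L (by rw [hτ]; simp) hxD hxM
              hw' (mem_comp_self hxD) htw hxy.symm (by simp [hL]) hLa
    · left; right
      have hyD : y ∈ D := ⟨hyS, hyτ⟩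
      rcases hx with hx | ⟨hxD, hxM, t, ht, w', hw', htw⟩
      · exact ⟨hyD, fun h => hI x hx ⟨y, h, hxy⟩, x, hx, y, mem_comp_self hyD, hxy⟩
      · have hyx : y ∈ comp G D x := comp_closed (mem_comp_self hxD) hxy hyD
        refine ⟨hyD, fun h => hxM (comp_closed h hxy.symm hxD), t, ht, w', ?_, htw⟩
        rw [comp_eq_of_mem hyx]; exact hw'
  have hWIτ : ∀ I, ∀ x ∈ WI I, x ∈ τ → x ∈ I := by
    rintro I x (hx | hx) hxτ
    · exact hx
    · exact absurd hxτ hx.1.2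
  have hab' : (addE G a b).Adj b a := Or.inr ⟨hab.symm, Or.inr ⟨rfl, rfl⟩⟩
  have mT : ∀ {T T' : Set V}, Tch G T T' → Tch (addE G a b) T T' := fun h =>
    h.mono le_addE Subset.rfl Subset.rfl
  have K1 : ∀ (T A1 I A2 : List V) (W' : Set V), τ = T ++ A1 ++ I ++ A2 → T ≠ [] → A1 ≠ [] →
      A2 ≠ [] → W' ⊆ S → Conn G W' → (∃ x ∈ W', x ∈ X ∧ x ≠ a ∧ x ≠ b) → Disjoint W' M0 →
      (∀ x ∈ W', x ∈ τ → x ∈ I) → Tch G (ls A1) W' → Tch G (ls A2) W' → Tch G (ls A1) M0 →
      Tch G (ls A2) M0 → False := by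
    rintro T A1 I A2 W' hτ n1 n2 n3 hW'S hW'c ⟨x, hx, hxX, hxa, hxb⟩ hd hWI' t1 t2 t3 t4
    obtain ⟨k1, k2, k3, z, hz, hNoK⟩ := hK x hxX hxa hxb
    obtain ⟨d1, d2, d3, d4, d5, d6⟩ := nd4 (hτ ▸ hnd)
    obtain ⟨c1, c2, c3, c4, c5, c6⟩ := ch4 (hτ ▸ hwk.1)
    have haT : a ∈ T := Wk.head_mem (R := A1 ++ I ++ A2) (by rw [hτ] at hwk; simpa using hwk) n1
    have hbA : b ∈ A2 := Wk.last_mem (hτ ▸ hwk) n3
    have sub : ∀ L : List V, (∀ x ∈ L, x ∈ τ) → ls L ⊆ S := fun L h x hx => hτS x (h x hx)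
    have dW : ∀ L : List V, (∀ x ∈ L, x ∈ τ) → Disjoint (ls L) (ls I) → Disjoint (ls L) W' :=
      fun L h hd => Set.disjoint_left.2 fun x hx hx' =>
        Set.disjoint_left.1 hd hx (hWI' x hx' (h x hx))
    have dM : ∀ L : List V, (∀ x ∈ L, x ∈ τ) → Disjoint (ls L) M0 :=
      fun L h => Set.disjoint_left.2 fun x hx hx' => hM0τ x hx' (h x hx)
    have m1 : ∀ x ∈ T, x ∈ τ := fun x hx => by rw [hτ]; simp [hx]
    have m2 : ∀ x ∈ A1, x ∈ τ := fun x hx => by rw [hτ]; simp [hx]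
    have m3 : ∀ x ∈ A2, x ∈ τ := fun x hx => by rw [hτ]; simp [hx]
    exact k33z (A1 := ls A1) (A2 := ls A2) (B1 := W') (B2 := M0) (B3 := ls T) hNoK hz
      (sub _ m2) (sub _ m3) hW'S (fun x hx => hx.1.1) (sub _ m1)
      ((conn_ls c2).mono le_addE) ((conn_ls c4).mono le_addE) (hW'c.mono le_addE)
      (hM0c.mono le_addE) ((conn_ls c1).mono le_addE)
      d5 (dW _ m2 d4) (dM _ m2) d1.symm (dW _ m3 d6.symm) (dM _ m3) d3.symm hd
      (dW _ m1 d2).symm (dM _ m1).symm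
      (mT t1) (mT t3) (mT (tch_of_chain c5 n1 n2).symm) (mT t2) (mT t4) ⟨b, hbA, a, haT, hab'⟩
      ⟨x, hx, hxX⟩ ⟨x0, hx0M, k1⟩ ⟨a, haT, k2⟩
  have K2 : ∀ (A1 I A2 T : List V) (W' : Set V), τ = A1 ++ I ++ A2 ++ T → T ≠ [] → A1 ≠ [] →
      A2 ≠ [] → W' ⊆ S → Conn G W' → (∃ x ∈ W', x ∈ X ∧ x ≠ a ∧ x ≠ b) → Disjoint W' M0 →
      (∀ x ∈ W', x ∈ τ → x ∈ I) → Tch G (ls A1) W' → Tch G (ls A2) W' → Tch G (ls A1) M0 →
      Tch G (ls A2) M0 → False := by
    rintro A1 I A2 T W' hτ n1 n2 n3 hW'S hW'c ⟨x, hx, hxX, hxa, hxb⟩ hd hWI' t1 t2 t3 t4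
    obtain ⟨k1, k2, k3, z, hz, hNoK⟩ := hK x hxX hxa hxb
    obtain ⟨d1, d2, d3, d4, d5, d6⟩ := nd4 (hτ ▸ hnd)
    obtain ⟨c1, c2, c3, c4, c5, c6⟩ := ch4 (hτ ▸ hwk.1)
    have haT : a ∈ A1 := Wk.head_mem (R := I ++ A2 ++ T) (by rw [hτ] at hwk; simpa using hwk) n2
    have hbA : b ∈ T := Wk.last_mem (hτ ▸ hwk) n1
    have sub : ∀ L : List V, (∀ x ∈ L, x ∈ τ) → ls L ⊆ S := fun L h x hx => hτS x (h x hx)
    have dW : ∀ L : List V, (∀ x ∈ L, x ∈ τ) → Disjoint (ls L) (ls I) → Disjoint (ls L) W' :=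
      fun L h hd => Set.disjoint_left.2 fun x hx hx' =>
        Set.disjoint_left.1 hd hx (hWI' x hx' (h x hx))
    have dM : ∀ L : List V, (∀ x ∈ L, x ∈ τ) → Disjoint (ls L) M0 :=
      fun L h => Set.disjoint_left.2 fun x hx hx' => hM0τ x hx' (h x hx)
    have m1 : ∀ x ∈ T, x ∈ τ := fun x hx => by rw [hτ]; simp [hx]
    have m2 : ∀ x ∈ A1, x ∈ τ := fun x hx => by rw [hτ]; simp [hx]
    have m3 : ∀ x ∈ A2, x ∈ τ := fun x hx => by rw [hτ]; simp [hx]
    exact k33z (A1 := ls A1) (A2 := ls A2) (B1 := W') (B2 := M0) (B3 := ls T) hNoK hz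
      (sub _ m2) (sub _ m3) hW'S (fun x hx => hx.1.1) (sub _ m1)
      ((conn_ls c1).mono le_addE) ((conn_ls c3).mono le_addE) (hW'c.mono le_addE)
      (hM0c.mono le_addE) ((conn_ls c4).mono le_addE)
      d2 (dW _ m2 d1) (dM _ m2) d3 (dW _ m3 d4.symm) (dM _ m3) d6 hd
      (dW _ m1 d5.symm).symm (dM _ m1).symm
      (mT t1) (mT t3) ⟨a, haT, b, hbA, hab'.symm⟩ (mT t2) (mT t4) (mT (tch_of_chain c6 n3 n1))
      ⟨x, hx, hxX⟩ ⟨x0, hx0M, k1⟩ ⟨b, hbA, k3⟩
  have hm : ∀ w ∈ S, w ≠ a → w ≠ b → w ∉ M0 → ∃ m ∈ τ, att m ∧ m ≠ a ∧ m ≠ b := by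
    intro w hw hwa hwb hwM
    by_contra hcon
    push Not at hcon
    apply hwM
    refine hc.closed hx0M ⟨hx0, by simp [hx0a, hx0b]⟩ (fun x hx _ y hy hxy => ?_)
      ⟨hw, by simp [hwa, hwb]⟩
    by_cases hyτ : y ∈ τ
    · have := hcon y hyτ ⟨x, hx, hxy.symm⟩
      have hy2 := hy.2
      simp only [mem_insert_iff, mem_singleton_iff, not_or] at hy2
      exact absurd (this hy2.1) hy2.2
    · exact comp_closed hx hxy ⟨hy.1, hyτ⟩
  -- right of an attachment there is another attachment, and the same on the left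
  have hright : ∀ P L Q, τ = P ++ L :: Q → P ≠ [] → Q ≠ [] → (att L ∨ D ⊆ M0) →
      ∃ r ∈ Q, att r := by
    intro P L Q hτ hP hQ hL
    by_contra hcon
    push Not at hcon
    have haP : a ∈ P := Wk.head_mem (hτ ▸ hwk) hP
    have hbQ : b ∈ Q := Wk.last_mem (P := P ++ [L]) (by rw [hτ] at hwk; simpa using hwk) hQ
    have e : τ = P ++ [L] ++ Q ++ [] := by rw [hτ]; simp
    obtain ⟨d1, d2, -, d4, -, -⟩ := nd4 (e ▸ hnd)
    have hcl : Cl G (WI Q) {L} := by
      rcases hL with hL | hL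
      · refine GC (P ++ [L]) Q [] {L} (by rw [hτ]; simp) hcon (fun t' ht' => ?_) (by simp)
        rcases List.mem_append.1 ht' with h | h
        · obtain ⟨P1, P2, rfl⟩ := List.append_of_mem h
          exact Or.inr ⟨P1, P2 ++ [L], by simp, L, by simp, hL⟩
        · left; simpa using h
      · rintro x (hx | hx) y hxy
        · by_cases hyτ : y ∈ τ
          · rw [hτ] at hyτ
            rcases List.mem_append.1 hyτ with h | h
            · obtain ⟨P1, P2, rfl⟩ := List.append_of_mem h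
              obtain ⟨Q1, Q2, rfl⟩ := List.append_of_mem hx
              have := hind P1 y (P2 ++ L :: Q1) x Q2 (by rw [hτ]; simp) hxy.symm
              simp at this
            · rcases List.mem_cons.1 h with h | h
              · exact Or.inr h
              · exact Or.inl (Or.inl h)
          · exact absurd ⟨y, hL ⟨hS _ _ hxy.symm, hyτ⟩, hxy⟩ (hcon x hx)
        · exact absurd (hL hx.1) hx.2.1
    have := two_conn h2 hcl (a := b) (Or.inl hbQ) hb
      (fun h => Set.disjoint_left.1 d4 (show b ∈ ls [L] by simp [h]) hbQ) ha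
      (fun h => Set.disjoint_left.1 d1 haP (by simp [h]))
    exact Set.disjoint_left.1 d2 haP (hWIτ _ _ this haτ)
  have hleft : ∀ P L Q, τ = P ++ L :: Q → P ≠ [] → Q ≠ [] → (att L ∨ D ⊆ M0) →
      ∃ r ∈ P, att r := by
    intro P L Q hτ hP hQ hL
    by_contra hcon
    push Not at hcon
    have haP : a ∈ P := Wk.head_mem (hτ ▸ hwk) hP
    have hbQ : b ∈ Q := Wk.last_mem (P := P ++ [L]) (by rw [hτ] at hwk; simpa using hwk) hQ
    have e : τ = P ++ [L] ++ Q ++ [] := by rw [hτ]; simp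
    obtain ⟨d1, d2, -, d4, -, -⟩ := nd4 (e ▸ hnd)
    have hcl : Cl G (WI P) {L} := by
      rcases hL with hL | hL
      · refine GC [] P (L :: Q) {L} (by rw [hτ]; simp) hcon (by simp) (fun t' ht' => ?_)
        rcases List.mem_cons.1 ht' with h | h
        · left; simpa using h
        · obtain ⟨Q1, Q2, rfl⟩ := List.append_of_mem h
          exact Or.inr ⟨L :: Q1, Q2, by simp, L, by simp, hL⟩
      · rintro x (hx | hx) y hxy
        · by_cases hyτ : y ∈ τ
          · rw [hτ] at hyτ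
            rcases List.mem_append.1 hyτ with h | h
            · exact Or.inl (Or.inl h)
            · rcases List.mem_cons.1 h with h | h
              · exact Or.inr h
              · obtain ⟨P1, P2, rfl⟩ := List.append_of_mem hx
                obtain ⟨Q1, Q2, rfl⟩ := List.append_of_mem h
                have := hind P1 x (P2 ++ L :: Q1) y Q2 (by rw [hτ]; simp) hxy
                simp at this
          · exact absurd ⟨y, hL ⟨hS _ _ hxy.symm, hyτ⟩, hxy⟩ (hcon x hx)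
        · exact absurd (hL hx.1) hx.2.1
    have := two_conn h2 hcl (a := a) (Or.inl haP) ha
      (fun h => Set.disjoint_left.1 d1 haP (by simp [h])) hb
      (fun h => Set.disjoint_left.1 d4 (show b ∈ ls [L] by simp [h]) hbQ)
    exact Set.disjoint_left.1 d2 (hWIτ _ _ this hbτ) hbQ
  have attT : ∀ {L : List V} {t : V}, t ∈ L → att t → Tch G (ls L) M0 := by
    rintro L t ht ⟨m, hm, h⟩; exact ⟨t, ht, m, hm, h⟩
  have hDM : D ⊆ M0 := by
    intro w hw
    by_contra hwM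
    set M := comp G D w with hM
    have hwa : w ≠ a := fun h => hw.2 (h ▸ haτ)
    have hwb : w ≠ b := fun h => hw.2 (h ▸ hbτ)
    set atM : V → Prop := fun t => ∃ m ∈ M, G.Adj t m with hatM
    have hMcl : ∀ c, (∀ t ∈ τ, atM t → t = c) → c ∈ τ → False := by
      intro c h hcτ
      have hcl : Cl G M {c} := by
        intro x hx y hxy
        by_cases hyτ : y ∈ τ
        · exact Or.inr (h y hyτ ⟨x, hx, hxy.symm⟩)
        · exact Or.inl (comp_closed hx hxy ⟨hS _ _ hxy.symm, hyτ⟩)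
      have hwc : w ≠ c := fun h => hw.2 (h ▸ hcτ)
      by_cases hac : a = c
      · exact (two_conn h2 hcl (mem_comp_self hw) hw.1 hwc hb (hac ▸ hab.symm)).1.2 hbτ
      · exact (two_conn h2 hcl (mem_comp_self hw) hw.1 hwc ha hac).1.2 haτ
    have e1 : ∃ t ∈ τ, atM t := by
      by_contra hcon
      push Not at hcon
      exact hMcl a (fun t ht h => absurd h (hcon t ht)) haτ
    obtain ⟨A, l, Rest, hτ1, hl, hA⟩ := split_first atM e1
    have e2 : ∃ t ∈ Rest, atM t := by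
      by_contra hcon
      push Not at hcon
      refine hMcl l (fun t ht h => ?_) (by rw [hτ1]; simp)
      rw [hτ1] at ht
      rcases List.mem_append.1 ht with h' | h'
      · exact absurd h (hA t h')
      · rcases List.mem_cons.1 h' with h' | h'
        · exact h'
        · exact absurd h (hcon t h')
    obtain ⟨Mid, r, B, rfl, hr, hB⟩ := split_last atM e2
    have haA : a ∈ A ++ [l] := Wk.head_mem (R := Mid ++ r :: B)
      (by rw [hτ1] at hwk; simpa using hwk) (by simp)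
    have hbB : b ∈ r :: B := Wk.last_mem (P := A ++ l :: Mid)
      (by rw [hτ1] at hwk; simpa using hwk) (by simp)
    obtain ⟨P', L, I1, eA, hL, hI1⟩ := split_last (fun t => att t ∨ t = a) ⟨a, haA, Or.inr rfl⟩
    obtain ⟨I2, R, Q', eB, hR, hI2⟩ := split_first (fun t => att t ∨ t = b) ⟨b, hbB, Or.inr rfl⟩
    have hτ2 : τ = (P' ++ [L]) ++ (I1 ++ Mid ++ I2) ++ (R :: Q') := by
      rw [hτ1]
      calc A ++ l :: (Mid ++ r :: B) = (A ++ [l]) ++ Mid ++ (r :: B) := by simp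
        _ = _ := by rw [eA, eB]; simp
    set I := I1 ++ Mid ++ I2 with hI
    have hτ3 : τ = P' ++ [L] ++ I ++ (R :: Q') := hτ2
    obtain ⟨d1, d2, d3, d4, d5, d6⟩ := nd4 (hτ3 ▸ hnd)
    have hLatt : P' ≠ [] → att L := by
      intro hP'
      rcases hL with h | h
      · exact h
      · have : a ∈ P' := Wk.head_mem (R := [L] ++ I ++ R :: Q')
          (by rw [hτ3] at hwk; simpa using hwk) hP'
        exact absurd (show a ∈ ls [L] by simp [h]) (Set.disjoint_left.1 d1 this)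
    have hRatt : Q' ≠ [] → att R := by
      intro hQ'
      rcases hR with h | h
      · exact h
      · have hb' : b ∈ Q' := Wk.last_mem (P := P' ++ [L] ++ I ++ [R])
          (by rw [hτ3] at hwk; simpa using hwk) hQ'
        have := (hτ3 ▸ hnd).of_append_right
        rw [List.nodup_cons, h] at this
        exact absurd hb' this.1
    have hIatt : ∀ t ∈ I, ¬ att t := by
      intro t ht
      simp only [hI, List.mem_append] at ht
      rcases ht with (ht | ht) | ht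
      · exact fun h => hI1 t ht (Or.inl h)
      · obtain ⟨w1, hw1, a1⟩ := hl
        obtain ⟨w2, hw2, a2⟩ := hr
        exact RC A l Mid r B w w1 w2 t (by rw [hτ1]; simp) hw hwM hw1 hw2 a1 a2 ht
      · exact fun h => hI2 t ht (Or.inl h)
    have hcl1 : Cl G (WI I) {L, R} := by
      refine GC (P' ++ [L]) I (R :: Q') _ hτ2 hIatt (fun t' ht' => ?_) (fun t' ht' => ?_)
      · rcases List.mem_append.1 ht' with h | h
        · obtain ⟨P1, P2, rfl⟩ := List.append_of_mem h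
          exact Or.inr ⟨P1, P2 ++ [L], by simp, L, by simp, hLatt (by simp)⟩
        · left; simp at h; simp [h]
      · rcases List.mem_cons.1 ht' with h | h
        · left; simp [h]
        · obtain ⟨Q1, Q2, rfl⟩ := List.append_of_mem h
          exact Or.inr ⟨R :: Q1, Q2, by simp, R, by simp, hRatt (by simp)⟩
    set W := WI I ∪ M with hW
    have hcl : Cl G W {L, R} := by
      rintro x (hx | hx) y hxy
      · exact (hcl1 x hx y hxy).imp Or.inl id
      · by_cases hyτ : y ∈ τ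
        · have hya : atM y := ⟨x, hx, hxy.symm⟩
          have hl' : l ∈ L :: I1 := mem_of_concat_eq eA
          have hr' : r ∈ I2 ++ [R] := by
            cases I2 with
            | nil => simp at eB; simp [eB.1]
            | cons i I2 => simp at eB; simp [eB.1]
          rw [hτ1] at hyτ
          simp only [List.mem_append, List.mem_cons] at hyτ
          rcases hyτ with h | h | h | h | h
          · exact absurd hya (hA y h)
          · subst h
            rcases List.mem_cons.1 hl' with h | h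
            · right; simp [h]
            · left; left; left; simp [hI, h]
          · left; left; left; simp [hI, h]
          · subst h
            rcases List.mem_append.1 hr' with h | h
            · left; left; left; simp [hI, h]
            · right; simp at h; simp [h]
          · exact absurd hya (hB y h)
        · exact Or.inl (Or.inr (comp_closed hx hxy ⟨hS _ _ hxy.symm, hyτ⟩))
    have hWτ : ∀ x ∈ W, x ∈ τ → x ∈ I := by
      rintro x (hx | hx) hxτ
      · exact hWIτ _ _ hx hxτ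
      · exact absurd hxτ hx.1.2
    have hIτ : ∀ x ∈ I, x ∈ τ := fun x hx => by rw [hτ3]; simp [hx]
    have hWS : W ⊆ S := by
      rintro x ((hx | hx) | hx)
      · exact hτS x (hIτ x hx)
      · exact hx.1.1
      · exact hx.1.1
    have hWM : Disjoint W M0 := by
      rw [Set.disjoint_left]
      rintro x ((hx | hx) | hx) hxM
      · exact hM0τ x hxM (hIτ x hx)
      · exact hx.2.1 hxM
      · exact Set.disjoint_left.1 (comp_disjoint hwM hw) hxM hx
    have haP : a ∈ P' ++ [L] := Wk.head_mem (R := I ++ R :: Q')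
      (by rw [hτ2] at hwk; simpa using hwk) (by simp)
    have hbQ : b ∈ R :: Q' := Wk.last_mem (hτ2 ▸ hwk) (by simp)
    have haW : a ∉ W := fun h => by
      have := hWτ a h haτ
      rcases List.mem_append.1 haP with h' | h'
      · exact Set.disjoint_left.1 d2 h' this
      · exact Set.disjoint_left.1 d4 h' this
    have hbW : b ∉ W := fun h => Set.disjoint_left.1 d6 (hWτ b h hbτ) hbQ
    have hLτ : L ∈ τ := by rw [hτ3]; simp
    have hRτ : R ∈ τ := by rw [hτ3]; simp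
    have hLx : L ≠ x0 := fun h => hx0τ (h ▸ hLτ)
    have hRx : R ≠ x0 := fun h => hx0τ (h ▸ hRτ)
    have hx0W : x0 ∉ W := fun h => Set.disjoint_left.1 hWM h hx0M
    have hXW : ¬ Disjoint W X := fun hd =>
      h3 W hWS ⟨w, Or.inr (mem_comp_self hw)⟩ haW hbW hx0W hd L R hLx hRx hcl
    obtain ⟨w', hw'W, hw'X⟩ := Set.not_disjoint_iff.1 hXW
    set W' := comp G W w' with hW'
    have hcl' : Cl G W' {L, R} := by
      intro x hx y hxy
      rcases hcl x hx.1 y hxy with h | h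
      · exact Or.inl (comp_closed hx hxy h)
      · exact Or.inr h
    have hLW : L ∉ W := fun h => Set.disjoint_left.1 d4 (show L ∈ ls [L] by simp) (hWτ L h hLτ)
    have hRW : R ∉ W := fun h => Set.disjoint_left.1 d6 (hWτ R h hRτ) (by simp)
    have tL : Tch G W' {L} := by
      by_contra hcon
      exact hx0W (two_conn h2 (hcl'.erase hcon) (mem_comp_self hw'W) (hWS hw'W)
        (fun h => hRW (h ▸ hw'W)) hx0 hRx.symm).1
    have tR : Tch G W' {R} := by
      by_contra hcon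
      rw [Set.pair_comm] at hcl'
      exact hx0W (two_conn h2 (hcl'.erase hcon) (mem_comp_self hw'W) (hWS hw'W)
        (fun h => hLW (h ▸ hw'W)) hx0 hLx.symm).1
    have hW'X : ∃ x ∈ W', x ∈ X ∧ x ≠ a ∧ x ≠ b :=
      ⟨w', mem_comp_self hw'W, hw'X, fun h => haW (h ▸ hw'W), fun h => hbW (h ▸ hw'W)⟩
    obtain ⟨m, hmτ, hma, hm1, hm2⟩ := hm w hw.1 hwa hwb hwM
    have hm' : m ∈ P' ++ [L] ∨ m ∈ R :: Q' := by
      rw [hτ2] at hmτ
      rcases List.mem_append.1 hmτ with h | h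
      · rcases List.mem_append.1 h with h | h
        · exact Or.inl h
        · exact absurd hma (hIatt m h)
      · exact Or.inr h
    rcases hm' with h | h
    · obtain ⟨T, T2, eT⟩ := List.append_of_mem h
      have hT : T ≠ [] := by
        rintro rfl
        have := hwk.2.1
        rw [hτ2, eT] at this
        simp at this
        exact hm1 this
      have hP' : P' ≠ [] := by
        rintro rfl
        cases T with
        | nil => exact hT rfl
        | cons t T => simp at eT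
      obtain ⟨r', hr', hr'a⟩ := hright P' L (I ++ R :: Q') (by rw [hτ3]; simp) hP' (by simp)
        (Or.inl (hLatt hP'))
      have hr'' : r' ∈ R :: Q' := (List.mem_append.1 hr').resolve_left fun h => hIatt r' h hr'a
      exact K1 T (m :: T2) I (R :: Q') W' (by rw [hτ2, eT]) hT (by simp) (by simp)
        (fun x hx => hWS hx.1) (conn_comp hw'W) hW'X (hWM.mono_left comp_subset)
        (fun x hx => hWτ x hx.1)
        (tL.symm.mono le_rfl (by simpa using mem_of_concat_eq eT) Subset.rfl)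
        (tR.symm.mono le_rfl (by simp) Subset.rfl) (attT (by simp) hma) (attT hr'' hr'a)
    · obtain ⟨T2, T, eT⟩ := List.append_of_mem h
      have hT : T ≠ [] := by
        rintro rfl
        have := Wk.last_mem (P := P' ++ [L] ++ I ++ T2) (R := [m])
          (by rw [hτ2, eT] at hwk; simpa using hwk) (by simp)
        simp at this
        exact hm2 this.symm
      have hQ' : Q' ≠ [] := by
        rintro rfl
        cases T2 with
        | nil => simp at eT; exact hT eT.2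
        | cons t T2 => simp at eT
      obtain ⟨r', hr', hr'a⟩ := hleft (P' ++ [L] ++ I) R Q' (by rw [hτ3]) (by simp) hQ'
        (Or.inl (hRatt hQ'))
      have hr'' : r' ∈ P' ++ [L] := (List.mem_append.1 hr').resolve_right fun h => hIatt r' h hr'a
      have hR' : R ∈ T2 ++ [m] := by
        cases T2 with
        | nil => simp at eT; simp [eT.1]
        | cons t T2 => simp at eT; simp [eT.1]
      exact K2 (P' ++ [L]) I (T2 ++ [m]) T W' (by rw [hτ2, eT]; simp) hT (by simp) (by simp)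
        (fun x hx => hWS hx.1) (conn_comp hw'W) hW'X (hWM.mono_left comp_subset)
        (fun x hx => hWτ x hx.1)
        (tL.symm.mono le_rfl (by simp) Subset.rfl)
        (tR.symm.mono le_rfl (by simpa using hR') Subset.rfl) (attT hr'' hr'a) (attT (by simp) hma)
  have hDeq : D = M0 := Subset.antisymm hDM comp_subset
  refine ⟨τ, hwk, hnd, hind, fun x hxτ hxX => ?_, by rw [← hD, hDeq]; exact hM0c⟩
  by_contra hcon
  push Not at hcon
  obtain ⟨A, B, hτ1⟩ := List.append_of_mem hxτ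
  have hA : A ≠ [] := by
    rintro rfl
    have := hwk.2.1
    rw [hτ1] at this; simp at this; exact hcon.1 this
  have hB : B ≠ [] := by
    rintro rfl
    have := hwk.2.2
    rw [hτ1] at this; simp at this; exact hcon.2 this
  obtain ⟨qa, hqa, hqa'⟩ := hleft A x B hτ1 hA hB (Or.inr hDM)
  obtain ⟨qb, hqb, hqb'⟩ := hright A x B hτ1 hA hB (Or.inr hDM)
  have hτ4 : τ = A ++ [x] ++ B ++ [] := by rw [hτ1]; simp
  obtain ⟨d1, d2, -, d4, -, -⟩ := nd4 (hτ4 ▸ hnd)
  obtain ⟨c1, -, c3, -, c5, -⟩ := ch4 (hτ4 ▸ hwk.1)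
  have c6 : ([x] ++ B).IsChain G.Adj := by
    have := hwk.1; rw [hτ1] at this; exact this.right_of_append
  have lx : ls [x] = {x} := by ext; simp
  have hxM : x ∉ M0 := fun h => hM0τ x h hxτ
  have hxx : ∃ y ∈ ({x} : Set V), y ∈ X ∧ y ≠ a ∧ y ≠ b := ⟨x, rfl, hxX, hcon.1, hcon.2⟩
  have tB : Tch G (ls B) {x} := lx ▸ (tch_of_chain c6 (by simp) hB).symm
  have tA : Tch G (ls A) {x} := lx ▸ tch_of_chain c5 hA (by simp)
  obtain ⟨m, hmτ, hma, hm1, hm2⟩ := hm x (hτS x hxτ) hcon.1 hcon.2 hxM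
  rw [hτ1] at hmτ
  rcases List.mem_append.1 hmτ with h | h
  · obtain ⟨T, T2, rfl⟩ := List.append_of_mem h
    have hT : T ≠ [] := by
      rintro rfl
      have := hwk.2.1
      rw [hτ1] at this; simp at this; exact hm1 this
    have c7 : ((m :: T2) ++ [x]).IsChain G.Adj := by
      rw [List.append_assoc] at c5; exact c5.right_of_append
    exact K1 T (m :: T2) [x] B {x} (by rw [hτ1]; simp) hT (by simp) hB
      (by simpa using hτS x hxτ) conn_singleton hxx (by simpa using hxM) (by simp)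
      (lx ▸ tch_of_chain c7 (by simp) (by simp)) tB (attT (by simp) hma) (attT hqb hqb')
  · rcases List.mem_cons.1 h with h | h
    · subst h
      obtain ⟨k1, k2, k3, z, hz, hNoK⟩ := hK m hxX hcon.1 hcon.2
      have haA : a ∈ A := Wk.head_mem (hτ1 ▸ hwk) hA
      have hbB : b ∈ B := Wk.last_mem (P := A ++ [m]) (by rw [hτ1] at hwk; simpa using hwk) hB
      have m1 : ∀ y ∈ A, y ∈ τ := fun y hy => by rw [hτ1]; simp [hy]
      have m2 : ∀ y ∈ B, y ∈ τ := fun y hy => by rw [hτ1]; simp [hy]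
      exact k5z (B1 := ls A) (B2 := ls B) (B3 := {m}) (B4 := M0) hNoK hz
        (fun y hy => hτS y (m1 y hy)) (fun y hy => hτS y (m2 y hy)) (by simpa using hτS m hxτ)
        (fun y hy => hy.1.1) ((conn_ls c1).mono le_addE) ((conn_ls c3).mono le_addE)
        conn_singleton (hM0c.mono le_addE) d2 (lx ▸ d1)
        (Set.disjoint_left.2 fun y hy hy' => hM0τ y hy' (m1 y hy)) (lx ▸ d4.symm)
        (Set.disjoint_left.2 fun y hy hy' => hM0τ y hy' (m2 y hy)) (by simpa using hxM)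
        ⟨a, haA, b, hbB, hab'.symm⟩ (mT tA) (mT (attT hqa hqa')) (mT tB) (mT (attT hqb hqb'))
        (mT (lx ▸ attT (L := [m]) (by simp) hma)) ⟨a, haA, k2⟩ ⟨b, hbB, k3⟩ ⟨m, rfl, hxX⟩
        ⟨x0, hx0M, k1⟩
    · obtain ⟨T2, T, rfl⟩ := List.append_of_mem h
      have hT : T ≠ [] := by
        rintro rfl
        have := Wk.last_mem (P := A ++ x :: T2) (R := [m])
          (by rw [hτ1] at hwk; simpa using hwk) (by simp)
        simp at this
        exact hm2 this.symm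
      have c7 : ([x] ++ (T2 ++ [m])).IsChain G.Adj := by
        have e : [x] ++ (T2 ++ m :: T) = ([x] ++ (T2 ++ [m])) ++ T := by simp
        rw [e] at c6; exact c6.left_of_append
      exact K2 A [x] (T2 ++ [m]) T {x} (by rw [hτ1]; simp) hT hA (by simp)
        (by simpa using hτS x hxτ) conn_singleton hxx (by simpa using hxM) (by simp)
        tA (lx ▸ (tch_of_chain c7 (by simp) (by simp)).symm) (attT hqa hqa') (attT (by simp) hma)

end Pool.Agent.MP_250189_co

end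

-- part MP_250189_co.Rec1
section

/-! The hypotheses of the recursion, deletion of the edge `uv`, and cut vertices. -/

namespace Pool.Agent.MP_250189_co

open Set

variable {V : Type*} {G G' : SimpleGraph V} {S X W A C : Set V} {u v c z a b : V} {τ : List V}

structure Base (G : SimpleGraph V) (S X : Set V) (u v z : V) : Prop where
  ins : ∀ p q, G.Adj p q → p ∈ S
  hz : z ∉ S
  XS : X ⊆ S
  uX : u ∈ X
  vX : v ∈ X
  ne : u ≠ v
  c3 : ∀ W, W ⊆ S → W.Nonempty → Disjoint W X → ∀ a b, ¬ Cl G W {a, b}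

def C2 (G : SimpleGraph V) (S : Set V) : Prop := ∀ c, Conn G (S \ {c})

def C2' (G : SimpleGraph V) (S : Set V) (u v : V) : Prop :=
  ∀ W, W ⊆ S → W.Nonempty → u ∉ W → v ∉ W → ∀ c, ¬ Cl G W {c}

structure PH (G : SimpleGraph V) (S X : Set V) (u v z : V) (τ : List V) : Prop
    extends Base G S X u v z where
  c2 : C2 G S
  ch : (u :: (τ ++ [v])).IsChain G.Adj
  nd : (u :: (τ ++ [v])).Nodup
  ind : Ind G (u :: (τ ++ [v]))
  τX : ∀ w ∈ τ, w ∉ X
  cD : Conn G (S \ ls (u :: (τ ++ [v])))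
  nk : NoK (aug G X z)

structure QH (G : SimpleGraph V) (S X : Set V) (u v z : V) : Prop extends Base G S X u v z where
  c2 : C2' G S u v
  cS : Conn G S
  cI : Conn G (S \ {u, v})
  nk : NoK (aug (addE G u v) X z)

def PC (G : SimpleGraph V) (S X : Set V) (u v : V) (τ : List V) : Prop :=
  Out G S X u v τ (Flat τ) ∧ (¬ G.Adj u v → Out G S X u v τ (Arch u v τ))

def GoodP (G : SimpleGraph V) (z : V) : Prop :=
  ∀ S X u v τ, PH G S X u v z τ → PC G S X u v τ

def GoodQ (G : SimpleGraph V) (z : V) : Prop :=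
  ∀ S X u v, QH G S X u v z → ¬ G.Adj u v → ∃ τ, Out G S X u v τ (Arch u v τ)

lemma Conn.res (h : Conn G A) (hA : A ⊆ S) : Conn (res G S) A :=
  h.mono' fun _ hx _ hy hxy => ⟨hxy, hA hx, hA hy⟩

lemma Cl.of_res (h : Cl (res G A) W C) (hW : W ⊆ A) (hN : ∀ a ∈ W, ∀ b, G.Adj a b → b ∈ A) :
    Cl G W C := fun a ha b hab => h a ha b ⟨hab, hW ha, hN a ha b hab⟩

lemma cl_comp (hS : ∀ p q, G.Adj p q → p ∈ S) : Cl G (comp G (S \ C) a) C := by
  intro p hp q hpq
  by_cases hq : q ∈ C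
  · exact Or.inr hq
  · exact Or.inl (comp_closed hp hpq ⟨hS _ _ hpq.symm, hq⟩)

lemma C2.conn (h : C2 G S) (hz : z ∉ S) : Conn G S := by
  have := h z
  rwa [Set.diff_singleton_eq_self hz] at this

lemma C2.c2' (h : C2 G S) (hz : z ∉ S) (hu : u ∈ S) (hv : v ∈ S) (huv : u ≠ v) : C2' G S u v := by
  have key : ∀ W, W ⊆ S → W.Nonempty → u ∉ W → v ∉ W → ∀ c, c ∉ W → ¬ Cl G W {c} := by
    rintro W hW ⟨a, ha⟩ h1 h2 c hc hcl
    have hac : a ≠ c := fun e => hc (e ▸ ha)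
    by_cases huc : u = c
    · exact h2 (two_conn h hcl ha (hW ha) hac hv fun e => huv (huc.trans e.symm))
    · exact h1 (two_conn h hcl ha (hW ha) hac hu huc)
  intro W hW hne h1 h2 c hcl
  by_cases hc : c ∈ W
  · exact key W hW hne h1 h2 z (fun h => hz (hW h)) fun p hp q hpq =>
      Or.inl ((hcl p hp q hpq).elim id fun e => e ▸ hc)
  · exact key W hW hne h1 h2 c hc hcl

/-- a part that hangs on two vertices touches both -/
lemma C2'.tch (h : C2' G S u v) (hW : W ⊆ S) (hne : W.Nonempty) (hu : u ∉ W) (hv : v ∉ W)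
    (hcl : Cl G W {a, b}) : Tch G W {a} ∧ Tch G W {b} := by
  constructor
  · by_contra hn; exact h W hW hne hu hv b (hcl.erase hn)
  · by_contra hn; rw [Set.pair_comm] at hcl; exact h W hW hne hu hv a (hcl.erase hn)

lemma Base.hasX (h : Base G S X u v z) (hW : W ⊆ S) (hne : W.Nonempty) (hcl : Cl G W {a, b}) :
    ∃ w ∈ W, w ∈ X := by
  by_contra hn
  exact h.c3 W hW hne (Set.disjoint_left.2 fun w h1 h2 => hn ⟨w, h1, h2⟩) a b hcl

lemma cl_diff (hS : ∀ p q, G.Adj p q → p ∈ S) : Cl G (S \ C) C := by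
  intro p _ q hpq
  by_cases hq : q ∈ C
  · exact Or.inr hq
  · exact Or.inl ⟨hS _ _ hpq.symm, hq⟩

lemma exists_nbr (h : Conn G A) (ha : a ∈ A) (hb : b ∈ A) (hab : a ≠ b) : ∃ w ∈ A, G.Adj a w := by
  rcases Relation.ReflTransGen.cases_head (h a ha b hb) with h | ⟨w, hw, -⟩
  · exact absurd h hab
  · exact ⟨w, hw.2.2, hw.1⟩

lemma res_lt (ha : a ∉ A) (hab : G.Adj a b) : res G A < G :=
  lt_of_le_of_ne res_le fun e => ha (by rw [← e] at hab; exact hab.2.1)

lemma aug_mono (h : G ≤ G') : aug G X z ≤ aug G' X z := fun _ _ h' => h'.imp (fun k => h k) id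

lemma addE_comm : addE G u v = addE G v u := by
  ext a b; simp only [addE]; tauto

lemma QH.symm (h : QH G S X u v z) : QH G S X v u z :=
  ⟨⟨h.ins, h.hz, h.XS, h.vX, h.uX, h.ne.symm, h.c3⟩,
    fun W h1 h2 h3 h4 => h.c2 W h1 h2 h4 h3, h.cS, by rw [Set.pair_comm]; exact h.cI,
    by rw [addE_comm]; exact h.nk⟩

lemma QH.reach (h : QH G S X u v z) (ha : a ∈ S) (hac : a ≠ c) :
    a ∈ comp G (S \ {c}) u ∨ a ∈ comp G (S \ {c}) v := by
  by_contra hn
  push Not at hn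
  have ha' : a ∈ S \ {c} := ⟨ha, hac⟩
  exact h.c2 _ (comp_subset.trans diff_subset) ⟨a, mem_comp_self ha'⟩
    (fun k => hn.1 ⟨ha', k.2.symm⟩) (fun k => hn.2 ⟨ha', k.2.symm⟩) c (cl_comp h.ins)

lemma QH.c2_of (h : QH G S X u v z)
    (hc : ∀ c, c ≠ u → c ≠ v → v ∈ comp G (S \ {c}) u) : C2 G S := by
  intro c
  have one : ∀ {u v}, QH G S X u v z → Conn G (S \ {u}) := by
    intro u v h
    refine conn_of_base v fun a ha => ?_
    rcases h.reach ha.1 ha.2 with k | k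
    · have := k.2.symm.mem ha
      exact absurd rfl this.2
    · exact k.2.symm
  by_cases h1 : c = u
  · rw [h1]; exact one h
  by_cases h2 : c = v
  · rw [h2]; exact one h.symm
  refine conn_of_base u fun a ha => ?_
  rcases h.reach ha.1 ha.2 with k | k
  · exact k.2.symm
  · exact k.2.symm.trans (hc c h1 h2).2.symm

lemma QH.ph_adj (h : QH G S X u v z) (huv : G.Adj u v) : PH G S X u v z [] := by
  refine ⟨h.toBase, h.c2_of fun c h1 h2 => ?_, by simpa using huv, by simpa using h.ne, ?_,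
    by simp, ?_, h.nk.mono (aug_mono le_addE)⟩
  · exact comp_closed (mem_comp_self ⟨h.XS h.uX, h1.symm⟩) huv ⟨h.XS h.vX, h2.symm⟩
  · intro P c M d R e _
    have := congrArg List.length e
    simp at this
    exact List.length_eq_zero_iff.1 (by omega)
  · have : ls (u :: ([] ++ [v])) = {u, v} := by ext; simp
    rw [this]; exact h.cI

lemma QH.ph_T [Finite V] (h : QH G S X u v z) (huv : ¬ G.Adj u v) (h2 : C2 G S) :
    ∃ τ, PH G S X u v z τ := by
  obtain ⟨w, hw, hadj⟩ := exists_nbr h.cS (h.XS h.uX) (h.XS h.vX) h.ne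
  obtain ⟨x0, hx0, hx0X⟩ := h.hasX (W := S \ {u, v}) diff_subset
    ⟨w, hw, by rintro (rfl | rfl); exacts [G.irrefl hadj, huv hadj]⟩ (cl_diff h.ins)
  obtain ⟨τ, h1, h3, h4, h5, h6⟩ := lemmaT (X := X) h.ins (h.XS h.uX) (h.XS h.vX) h.ne hx0.1
    (fun e => hx0.2 (Or.inl e)) (fun e => hx0.2 (Or.inr e)) h2
    (fun W k1 k2 _ _ _ k3 L R _ _ => h.c3 W k1 k2 k3 L R) h.cI
    fun _ _ _ _ => ⟨hx0X, h.uX, h.vX, z, h.hz, h.nk⟩
  obtain ⟨τ', rfl⟩ : ∃ τ', τ = u :: (τ' ++ [v]) := by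
    obtain ⟨-, k1, k2⟩ := h1
    obtain ⟨L, rfl⟩ := List.getLast?_eq_some_iff.1 k2
    cases L with
    | nil => simp at k1; exact absurd k1.symm h.ne
    | cons p L => simp at k1; exact ⟨L, by simp [k1]⟩
  refine ⟨τ', h.toBase, h2, h1.1, h3, h4, fun t ht htX => ?_, h6, h.nk.mono (aug_mono le_addE)⟩
  simp only [List.nodup_cons, List.nodup_append, List.mem_append] at h3
  rcases h5 t (by simp [ht]) htX with rfl | rfl
  · exact h3.1 (Or.inl ht)
  · exact h3.2.2.2 t ht t (by simp) rfl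

lemma anyOut (hP : GoodP G z) (hQ : GoodQ G z) (h : QH G S X u v z) :
    ∃ τ, Out G S X u v τ fun _ _ => True := by
  by_cases huv : G.Adj u v
  · exact ⟨[], (hP _ _ _ _ _ (h.ph_adj huv)).1.mono fun _ _ _ => trivial⟩
  · obtain ⟨τ, o⟩ := hQ _ _ _ _ h huv
    exact ⟨τ, o.mono fun _ _ _ => trivial⟩

lemma flatOut [Finite V] (hP : GoodP G z) (h : QH G S X u v z) (h2 : C2 G S) :
    ∃ τ, Out G S X u v τ (Flat τ) := by
  by_cases huv : G.Adj u v
  · exact ⟨[], (hP _ _ _ _ _ (h.ph_adj huv)).1⟩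
  · obtain ⟨τ, o⟩ := h.ph_T huv h2
    exact ⟨τ, (hP _ _ _ _ _ o).1⟩

lemma caseA (ih : ∀ G' < G, GoodP G' z ∧ GoodQ G' z) (h : PH G S X u v z τ) (huv : G.Adj u v) :
    PC G S X u v τ := by
  obtain rfl : τ = [] := h.ind [] u τ v [] (by simp) huv
  refine ⟨?_, fun k => absurd huv k⟩
  have hu := h.XS h.uX
  have hv := h.XS h.vX
  by_cases hne : (S \ {u, v}).Nonempty
  swap
  · refine out_triv (Set.Subset.antisymm (fun w hw => ?_) ?_) h.ins huv h.XS
    · by_contra k; exact hne ⟨w, hw, k⟩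
    · rintro w (rfl | rfl); exacts [hu, hv]
  have hle : delE G u v ≤ G := fun _ _ k => k.1
  have hn : ¬ (delE G u v).Adj u v := fun k => k.2 (Or.inl ⟨rfl, rfl⟩)
  have hcl : ∀ W C, u ∉ W → v ∉ W → Cl (delE G u v) W C → Cl G W C := by
    intro W C h1 h2 h3 p hp q hpq
    refine h3 p hp q ⟨hpq, ?_⟩
    rintro (⟨rfl, -⟩ | ⟨-, rfl⟩)
    exacts [h1 hp, h2 hp]
  have c2 : C2' (delE G u v) S u v := fun W k1 k2 k3 k4 c k5 =>
    h.c2.c2' h.hz hu hv h.ne W k1 k2 k3 k4 c (hcl W _ k3 k4 k5)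
  have cI : Conn (delE G u v) (S \ {u, v}) := by
    have : ls (u :: ([] ++ [v])) = {u, v} := by ext; simp
    have k := h.cD
    rw [this] at k
    refine k.mono' fun p hp q hq hpq => ⟨hpq, ?_⟩
    rintro (⟨rfl, -⟩ | ⟨rfl, -⟩)
    exacts [hp.2 (by simp), hq.2 (by simp)]
  have ins : ∀ p q, (delE G u v).Adj p q → p ∈ S := fun p q k => h.ins p q k.1
  obtain ⟨τ', o⟩ := (ih _ (lt_of_le_of_ne hle fun e => hn (by rw [e]; exact huv))).2 S X u v
    ⟨⟨ins, h.hz, h.XS, h.uX, h.vX, h.ne, fun W k1 k2 k3 a b k4 => h.c3 W k1 k2 k3 a b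
      (hcl W _ (fun k => Set.disjoint_left.1 k3 k h.uX) (fun k => Set.disjoint_left.1 k3 k h.vX)
        k4)⟩, c2, by
      have t := c2.tch (W := S \ {u, v}) diff_subset hne (by simp) (by simp) (cl_diff ins)
      have k := (cI.union conn_singleton t.1).union conn_singleton
        (t.2.mono le_rfl subset_union_left Subset.rfl)
      have e : S \ {u, v} ∪ {u} ∪ {v} = S := by
        ext w; simp only [mem_union, mem_diff, mem_insert_iff, mem_singleton_iff]
        constructor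
        · rintro ((k | rfl) | rfl); exacts [k.1, hu, hv]
        · tauto
      rwa [e] at k, cI, h.nk.mono (aug_mono (by
        rintro p q (k | ⟨-, ⟨rfl, rfl⟩ | ⟨rfl, rfl⟩⟩)
        exacts [k.1, huv, huv.symm]))⟩ hn
  exact out_A huv o

lemma QH.side (h : QH G S X u v z) (hcu : c ≠ u) (hcv : c ≠ v) (hv : v ∉ comp G (S \ {c}) u) :
    QH (res G (insert c (comp G (S \ {c}) u))) (insert c (comp G (S \ {c}) u))
      (insert c (X ∩ comp G (S \ {c}) u)) u c z := by
  set U := comp G (S \ {c}) u with hU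
  set U' := comp G (S \ {c}) v with hU'
  have huS := h.XS h.uX
  have hvS := h.XS h.vX
  have hu : u ∈ U := mem_comp_self ⟨huS, hcu.symm⟩
  have hv' : v ∈ U' := mem_comp_self ⟨hvS, hcv.symm⟩
  have hcU : c ∉ U := fun k => k.1.2 rfl
  have hcU' : c ∉ U' := fun k => k.1.2 rfl
  have clU : Cl G U {c} := cl_comp h.ins
  have clU' : Cl G U' {c} := cl_comp h.ins
  have dU : Disjoint U U' := comp_disjoint hv ⟨hvS, hcv.symm⟩
  have US : U ⊆ S := comp_subset.trans diff_subset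
  have US' : U' ⊆ S := comp_subset.trans diff_subset
  have tch : ∀ W : Set V, ∀ a ∈ W, a ∈ S → ∀ b ∈ S, b ∉ W → Cl G W {c} → Tch G W {c} := by
    intro W a ha haS b hb hbW hcl
    by_contra hn
    refine hbW (h.cS.closed ha haS (fun p hp _ q _ hpq => ?_) hb)
    exact (hcl p hp q hpq).resolve_right fun e => hn ⟨p, hp, q, e, hpq⟩
  have t1 := tch U u hu huS v hvS hv clU
  have t2 := tch U' v hv' hvS u huS (Set.disjoint_left.1 dU hu) clU'
  have hcS : c ∈ S := by obtain ⟨p, -, q, rfl, hpq⟩ := t1; exact h.ins _ _ hpq.symm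
  have sub : insert c U ⊆ S := Set.insert_subset hcS US
  have hcl : ∀ W C, W ⊆ insert c U → c ∉ W → Cl (res G (insert c U)) W C → Cl G W C :=
    fun W C k1 k2 k3 => k3.of_res k1 fun p hp q hpq =>
      (clU p ((k1 hp).resolve_left fun e => k2 (e ▸ hp)) q hpq).symm
  have hvW : ∀ W, W ⊆ insert c U → v ∉ W := fun W k1 k2 => (k1 k2).elim hcv.symm hv
  refine ⟨⟨res_in, fun k => h.hz (sub k), Set.insert_subset_insert inter_subset_right,
    Or.inr ⟨h.uX, hu⟩, Or.inl rfl, hcu.symm, fun W k1 k2 k3 a b k4 => ?_⟩,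
    fun W k1 k2 k3 k4 d k5 => h.c2 W (k1.trans sub) k2 k3 (hvW W k1) d (hcl W _ k1 k4 k5),
    ?_, ?_, ?_⟩
  · have k5 : c ∉ W := fun k => Set.disjoint_left.1 k3 k (Or.inl rfl)
    refine h.c3 W (k1.trans sub) k2 (Set.disjoint_left.2 fun w k6 k7 => ?_) a b (hcl W _ k1 k5 k4)
    exact Set.disjoint_left.1 k3 k6 (Or.inr ⟨k7, (k1 k6).resolve_left fun e => k5 (e ▸ k6)⟩)
  · refine Conn.res ?_ Subset.rfl
    rw [Set.insert_eq]
    exact conn_singleton.union (conn_comp hu.1) t1.symm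
  · refine Conn.res ?_ diff_subset
    by_contra hn
    set I := insert c U \ {u, c} with hI
    have IU : I ⊆ U := fun w hw => hw.1.resolve_left fun e => hw.2 (Or.inr e)
    obtain ⟨a, ha⟩ : I.Nonempty := by
      by_contra k; rw [Set.not_nonempty_iff_eq_empty] at k; rw [k] at hn; exact hn conn_empty
    obtain ⟨b, hb, hba⟩ := exists_not_mem_comp hn ha
    have f : ∀ a ∈ I, comp G I a ⊆ U ∧ u ∉ comp G I a ∧ Tch G (comp G I a) {u} ∧
        Tch G (comp G I a) {c} ∧ ∃ w ∈ comp G I a, w ∈ X := by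
      intro a ha
      have s1 : comp G I a ⊆ U := comp_subset.trans IU
      have s2 : u ∉ comp G I a := fun k => k.1.2 (Or.inl rfl)
      have s3 : Cl G (comp G I a) {u, c} := by
        intro p hp q hpq
        by_cases hq : q ∈ ({u, c} : Set V)
        · exact Or.inr hq
        · exact Or.inl (comp_closed hp hpq ⟨(clU p (s1 hp) q hpq).symm, hq⟩)
      have s4 := h.c2.tch (s1.trans US) ⟨a, mem_comp_self ha⟩ s2 (fun k => hv (s1 k)) s3
      exact ⟨s1, s2, s4.1, s4.2, h.hasX (s1.trans US) ⟨a, mem_comp_self ha⟩ s3⟩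
    obtain ⟨a1, a2, a3, a4, a5⟩ := f a ha
    obtain ⟨b1, b2, b3, b4, b5⟩ := f b hb
    have m : ∀ {P Q : Set V}, Tch G P Q → Tch (addE G u v) Q P := fun k =>
      k.symm.mono le_addE Subset.rfl Subset.rfl
    exact k33z (A1 := {u}) (A2 := {c}) (B1 := comp G I a) (B2 := comp G I b) (B3 := U') h.nk h.hz
      (by simpa) (by simpa) (a1.trans US) (b1.trans US) US' conn_singleton conn_singleton
      ((conn_comp ha).mono le_addE) ((conn_comp hb).mono le_addE) ((conn_comp hv'.1).mono le_addE)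
      (by simpa using hcu.symm) (by simpa) (by simpa)
      (by simpa using Set.disjoint_left.1 dU hu) (by simpa using fun k => hcU (a1 k))
      (by simpa using fun k => hcU (b1 k)) (by simpa) (comp_disjoint hba hb)
      (dU.mono_left a1) (dU.mono_left b1) (m a3) (m b3)
      ⟨u, rfl, v, hv', Or.inr ⟨h.ne, Or.inl ⟨rfl, rfl⟩⟩⟩ (m a4) (m b4) (m t2) a5 b5 ⟨v, hv', h.vX⟩
  · have cC : Conn G (insert c U') := by
      rw [Set.insert_eq]; exact conn_singleton.union (conn_comp hv'.1) t2.symm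
    have hzv : z ≠ v := fun e => h.hz (e ▸ hvS)
    have inS : ∀ p ∈ insert c U, p ∈ insert c U' → p = c := fun p k1 k2 =>
      k1.elim id fun k1 => k2.elim id fun k2 => (Set.disjoint_left.1 dU k1 k2).elim
    have zC : z ∈ insert c U' → z = c := fun k => (h.hz (Set.insert_subset hcS US' k)).elim
    refine h.nk.merge (C := insert c U') (c := c) ((cC.mono le_addE).mono le_aug) (Or.inl rfl) ?_
    rintro p q ((k | ⟨-, ⟨rfl, rfl⟩ | ⟨rfl, rfl⟩⟩) | ⟨k0, ⟨rfl, rfl | k⟩ | ⟨rfl, rfl | k⟩⟩)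
    · exact ⟨inS p k.2.1, Or.inl (Or.inl (Or.inl k.1))⟩
    · exact ⟨inS p (Or.inr hu), Or.inr (Or.inr ⟨rfl, v, Or.inr hv',
        Or.inl (Or.inr ⟨h.ne, Or.inl ⟨rfl, rfl⟩⟩)⟩)⟩
    · exact ⟨fun _ => rfl, Or.inr (Or.inl ⟨rfl, v, Or.inr hv',
        Or.inl (Or.inr ⟨h.ne.symm, Or.inr ⟨rfl, rfl⟩⟩)⟩)⟩
    · exact ⟨zC, Or.inr (Or.inr ⟨rfl, v, Or.inr hv', Or.inr ⟨hzv, Or.inl ⟨rfl, h.vX⟩⟩⟩)⟩
    · exact ⟨zC, Or.inl (Or.inr ⟨k0, Or.inl ⟨rfl, k.1⟩⟩)⟩
    · exact ⟨fun _ => rfl, Or.inr (Or.inl ⟨rfl, v, Or.inr hv',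
        Or.inr ⟨hzv.symm, Or.inr ⟨rfl, h.vX⟩⟩⟩)⟩
    · exact ⟨inS p (Or.inr k.2), Or.inl (Or.inr ⟨k0, Or.inr ⟨rfl, k.1⟩⟩)⟩

lemma goodQ [Finite V] (ih : ∀ G' < G, GoodP G' z ∧ GoodQ G' z) (hP : GoodP G z) : GoodQ G z := by
  intro S X u v h huv
  by_cases hex : ∀ c, c ≠ u → c ≠ v → v ∈ comp G (S \ {c}) u
  · obtain ⟨τ, o⟩ := h.ph_T huv (h.c2_of hex)
    exact ⟨τ, (hP _ _ _ _ _ o).2 huv⟩
  push Not at hex
  obtain ⟨c, ⟨hcu, hcv, hv⟩, hmin⟩ := Set.exists_min_image
    {c | c ≠ u ∧ c ≠ v ∧ v ∉ comp G (S \ {c}) u} (fun c => (comp G (S \ {c}) u).ncard)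
    (Set.toFinite _) hex
  have huS := h.XS h.uX
  have hvS := h.XS h.vX
  have hu' : u ∉ comp G (S \ {c}) v := fun k => hv ⟨⟨hvS, hcv.symm⟩, k.2.symm⟩
  have q1 := h.side hcu hcv hv
  have q2 := (h.symm.side hcv hcu hu').symm
  set U := comp G (S \ {c}) u with hU
  set U' := comp G (S \ {c}) v with hU'
  have hu : u ∈ U := mem_comp_self ⟨huS, hcu.symm⟩
  have hv' : v ∈ U' := mem_comp_self ⟨hvS, hcv.symm⟩
  have clU : Cl G U {c} := cl_comp h.ins
  have clU' : Cl G U' {c} := cl_comp h.ins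
  have dU : Disjoint U U' := comp_disjoint hv ⟨hvS, hcv.symm⟩
  have US : U ⊆ S := comp_subset.trans diff_subset
  have US' : U' ⊆ S := comp_subset.trans diff_subset
  have hcS : c ∈ S := by
    by_contra k
    exact hv ⟨⟨hvS, hcv.symm⟩, by rw [Set.diff_singleton_eq_self k]; exact h.cS u huS v hvS⟩
  have h2 : C2 (res G (insert c U)) (insert c U) := by
    refine q1.c2_of fun d hdu hdc => ?_
    by_contra hn
    set W := comp (res G (insert c U)) (insert c U \ {d}) u with hW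
    have huW : u ∈ W := mem_comp_self ⟨Or.inr hu, hdu.symm⟩
    have WU : W ⊆ U := fun w hw => hw.1.1.resolve_left fun e => hn (e ▸ hw)
    have nb : ∀ p ∈ W, ∀ q, G.Adj p q → q ∈ insert c U := fun p hp q hpq =>
      (clU p (WU hp) q hpq).symm
    have clW : Cl G W {d} := (cl_comp res_in).of_res (comp_subset.trans diff_subset) nb
    by_cases hd : d ∈ U
    · have s1 : comp G (S \ {d}) u ⊆ W := fun w hw =>
        hw.2.closed huW fun p hp _ q hq hpq => (clW p hp q hpq).resolve_right hq.2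
      have s2 := hmin d ⟨hdu, fun e => hv (e ▸ hd), fun k => hv (WU (s1 k))⟩
      have s3 : comp G (S \ {d}) u ⊂ U :=
        ⟨s1.trans WU, fun k => (k hd).1.2 rfl⟩
      exact absurd s2 (not_le.2 (Set.ncard_lt_ncard s3))
    · refine hn (h.cS.closed huW huS (fun p hp _ q _ hpq => ?_) hcS)
      refine (clW p hp q hpq).resolve_right fun e => ?_
      have := nb p hp q hpq
      rw [e] at this
      exact this.elim hdc hd
  obtain ⟨p, -, hp⟩ := exists_nbr h.cS huS hvS h.ne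
  obtain ⟨q, -, hq⟩ := exists_nbr h.cS hvS huS h.ne.symm
  obtain ⟨τ1, o1⟩ := flatOut (ih _ (res_lt (fun k => k.elim hcv.symm hv) hq)).1 q1 h2
  have i2 := ih _ (res_lt (A := insert c U') (fun k => k.elim hcu.symm hu') hp)
  obtain ⟨τ2, o2⟩ := anyOut i2.1 i2.2 q2
  have hS : S = insert c U ∪ insert c U' := by
    refine Set.Subset.antisymm (fun w hw => ?_)
      (union_subset (Set.insert_subset hcS US) (Set.insert_subset hcS US'))
    by_cases e : w = c
    · exact Or.inl (Or.inl e)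
    · exact (h.reach hw e).imp Or.inr Or.inr
  refine ⟨_, out_series hS (fun p k1 k2 => k1.elim id fun k1 => k2.elim id fun k2 =>
    (Set.disjoint_left.1 dU k1 k2).elim) (Or.inr hu) (Or.inl rfl) (Or.inl rfl) (Or.inr hv')
    hcu.symm hcv (fun a b hab => ?_) (fun w k1 k2 => ?_) (fun w k1 k2 => ?_) h.XS o1 o2
    fun k1 k2 => ?_⟩
  · have ha := h.ins _ _ hab
    have hb := h.ins _ _ hab.symm
    rw [hS] at ha hb
    rcases ha with (rfl | ha) | rfl | ha
    · exact hb.imp (fun k => ⟨Or.inl rfl, k⟩) fun k => ⟨Or.inl rfl, k⟩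
    · exact Or.inl ⟨Or.inr ha, (clU a ha b hab).symm⟩
    · exact hb.imp (fun k => ⟨Or.inl rfl, k⟩) fun k => ⟨Or.inl rfl, k⟩
    · exact Or.inr ⟨Or.inr ha, (clU' a ha b hab).symm⟩
  · exact ⟨fun k => Or.inr ⟨k, k1.resolve_left k2⟩, fun k => (k.resolve_left k2).1⟩
  · exact ⟨fun k => Or.inr ⟨k, k1.resolve_left k2⟩, fun k => (k.resolve_left k2).1⟩
  · by_contra k3
    refine h.c3 {c} (by simpa) (by simp) (by simpa) u v fun a ha b hab => ?_
    have hb := h.ins _ _ hab.symm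
    rw [hS] at hb
    by_contra k4
    simp only [mem_singleton_iff, mem_insert_iff, not_or] at k4
    rcases hb with hb | hb
    · exact k1 ⟨b, hb, k4.2.1, k4.1⟩
    · exact k3 ⟨b, hb, k4.1, k4.2.2⟩

end Pool.Agent.MP_250189_co

end

-- part MP_250189_co.Rec2
section

/-! Removal of the sink, and the recursion. -/

namespace Pool.Agent.MP_250189_co

open Set

variable {V : Type*} {G G' : SimpleGraph V} {S X W A C K : Set V} {u v c z a b y1 ys : V}
  {τ : List V}

lemma ind_nbr {P R : List V} {t w : V} (h : Ind G (P ++ t :: R)) (hw : w ∈ P ++ t :: R)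
    (hadj : G.Adj t w) : P.getLast? = some w ∨ R.head? = some w := by
  rcases List.mem_append.1 hw with hw | hw
  · obtain ⟨P1, P2, rfl⟩ := List.append_of_mem hw
    obtain rfl := h P1 w P2 t R (by simp) hadj.symm
    simp
  · rcases List.mem_cons.1 hw with rfl | hw
    · exact (G.irrefl hadj).elim
    · obtain ⟨R1, R2, rfl⟩ := List.append_of_mem hw
      obtain rfl := h P t R1 w R2 (by simp) hadj
      simp

lemma PH.sub (h : PH G S X u v z τ) : ∀ w ∈ u :: (τ ++ [v]), w ∈ S :=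
  path_sub h.ins (isChain_iff_edges.1 h.ch)

lemma PH.nd' (h : PH G S X u v z τ) : (u :: τ).Nodup ∧ v ∉ u :: τ := by
  have k : ((u :: τ) ++ [v]).Nodup := h.nd
  rw [List.nodup_append] at k
  exact ⟨k.1, fun k' => k.2.2 v k' v (by simp) rfl⟩

lemma mem_pre {t : V} (h : t ∈ u :: τ) : t ∈ u :: (τ ++ [v]) :=
  List.mem_append_left (as := u :: τ) _ h

lemma of_mem_path {t : V} (h : t ∈ u :: (τ ++ [v])) : t ∈ u :: τ ∨ t = v := by
  simpa [or_assoc] using h

lemma PH.c2' (h : PH G S X u v z τ) : C2' G S u v :=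
  h.c2.c2' h.hz (h.XS h.uX) (h.XS h.vX) h.ne

/-- every vertex of the path has a neighbour off the path -/
lemma PH.nbr (h : PH G S X u v z τ) (hτ : τ ≠ []) {t : V} (ht : t ∈ u :: (τ ++ [v])) :
    ∃ d ∈ S \ ls (u :: (τ ++ [v])), G.Adj t d := by
  by_contra hn
  have key : ∀ P R, u :: (τ ++ [v]) = P ++ t :: R → ∀ w, G.Adj t w →
      P.getLast? = some w ∨ R.head? = some w := by
    intro P R e w hw
    have hw' : w ∈ u :: (τ ++ [v]) := by
      by_contra k; exact hn ⟨w, ⟨h.ins _ _ hw.symm, k⟩, hw⟩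
    have hi := h.ind
    rw [e] at hi hw'
    exact ind_nbr hi hw' hw
  have huS := h.XS h.uX
  have hvS := h.XS h.vX
  simp only [List.mem_cons, List.mem_append, List.not_mem_nil, or_false] at ht
  rcases ht with rfl | ht | rfl
  · obtain ⟨n, τ', rfl⟩ := List.exists_cons_of_ne_nil hτ
    have hnX := h.τX n (by simp)
    refine h.ne (two_conn (W := {t}) (c := n) h.c2 ?_ rfl huS (fun e => hnX (e ▸ h.uX)) hvS
      (fun e => hnX (e ▸ h.vX))).symm
    rintro p rfl q hq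
    have := key [] _ rfl q hq
    simp at this
    exact Or.inr this.symm
  · obtain ⟨P, R, rfl⟩ := List.append_of_mem ht
    refine h.c3 {t} (by simpa using h.sub t (by simp)) (by simp) (by simpa using h.τX t ht)
      ((u :: P).getLast (by simp)) ((R ++ [v]).head (by simp)) ?_
    rintro p rfl q hq
    rcases key (u :: P) (R ++ [v]) (by simp) q hq with k | k
    · rw [List.getLast?_eq_getLast_of_ne_nil (by simp)] at k
      exact Or.inr (Or.inl (Option.some.inj k).symm)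
    · rw [List.head?_eq_some_head (by simp)] at k
      exact Or.inr (Or.inr (Option.some.inj k).symm)
  · obtain ⟨τ', n, rfl⟩ := (List.eq_nil_or_concat τ).resolve_left hτ
    rw [List.concat_eq_append] at h key
    have hnX := h.τX n (by simp)
    refine h.ne (two_conn (W := {t}) (c := n) h.c2 ?_ rfl hvS (fun e => hnX (e ▸ h.vX)) huS
      (fun e => hnX (e ▸ h.uX)))
    rintro p rfl q hq
    have := key (u :: (τ' ++ [n])) [] rfl q hq
    rw [← List.cons_append, List.getLast?_append] at this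
    simp at this
    exact Or.inr this.symm

structure Pend (G : SimpleGraph V) (S : Set V) (u v : V) (K : Set V) (y : V) : Prop where
  sub : K ⊆ S
  conn : Conn G K
  hu : u ∉ K
  hv : v ∉ K
  hy : y ∉ K
  yu : y ≠ u
  yv : y ≠ v
  cl : Cl G K {y, v}

lemma PH.pend (h : PH G S X u v z τ) (hτ : τ ≠ []) (hp : Pend G S u v K c) (hne : K.Nonempty) :
    c ∈ S \ ls (u :: (τ ++ [v])) ∧ K ⊆ S \ ls (u :: (τ ++ [v])) ∧ Tch G K {c} ∧ Tch G K {v} ∧
      ∃ w ∈ K, w ∈ X := by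
  have t := h.c2'.tch hp.sub hne hp.hu hp.hv hp.cl
  have hcS : c ∈ S := by obtain ⟨p, -, q, rfl, hpq⟩ := t.1; exact h.ins _ _ hpq.symm
  have hc : c ∉ u :: (τ ++ [v]) := by
    intro hc
    have cl : ∀ p ∈ K, ∀ d ∈ S \ ls (u :: (τ ++ [v])), G.Adj p d → d ∈ K := by
      intro p hp' d hd hpd
      rcases hp.cl p hp' d hpd with k | rfl | rfl
      · exact k
      · exact (hd.2 hc).elim
      · exact (hd.2 (by simp)).elim
    obtain ⟨d, hd, hdK⟩ : ∃ d ∈ S \ ls (u :: (τ ++ [v])), d ∈ K := by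
      obtain ⟨a, ha⟩ := hne
      by_cases k : a ∈ u :: (τ ++ [v])
      · obtain ⟨d, hd, had⟩ := h.nbr hτ k
        exact ⟨d, hd, cl a ha d hd had⟩
      · exact ⟨a, ⟨hp.sub ha, k⟩, ha⟩
    obtain ⟨e, he, hue⟩ := h.nbr hτ (t := u) (by simp)
    rcases hp.cl e (h.cD.closed hdK hd (fun p k _ q hq => cl p k q hq) he) u hue.symm
      with k | k | k
    exacts [hp.hu k, hp.yu k.symm, h.ne k]
  refine ⟨⟨hcS, hc⟩, fun a ha => ⟨hp.sub ha, fun k => ?_⟩, t.1, t.2, h.hasX hp.sub hne hp.cl⟩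
  have hv : v ∉ u :: τ := h.nd'.2
  have k' : a ∈ u :: τ := (of_mem_path k).resolve_right fun e => hp.hv (e ▸ ha)
  refine hp.hu ((conn_ls (List.IsChain.left_of_append (l₁ := u :: τ) h.ch)).closed ha k'
    (fun p k1 _ q hq hpq => ?_) (by simp))
  rcases hp.cl p k1 q hpq with k | rfl | rfl
  · exact k
  · exact (hc (mem_pre hq)).elim
  · exact (hv hq).elim

lemma PH.rest_conn (h : PH G S X u v z τ) (hτ : τ ≠ []) (hp : Pend G S u v K ys) :
    Conn G ((S \ ls (u :: (τ ++ [v]))) \ K) := by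
  rcases K.eq_empty_or_nonempty with rfl | hne
  · simpa using h.cD
  · refine h.cD.remove_pendant (h.pend hτ hp hne).1 hp.hy fun p k q hq hpq => ?_
    rcases hp.cl p k q hpq with k | k | rfl
    exacts [Or.inl k, Or.inr k, (hq.2 (by simp)).elim]

lemma PH.not_tch (h : PH G S X u v z τ) (hτ : τ ≠ []) (hp : Pend G S u v K ys) {t d : V}
    (ht : t ∈ u :: τ) (hd : d ∈ K) : ¬ G.Adj t d := by
  intro hadj
  obtain ⟨k1, k2, -⟩ := h.pend hτ hp ⟨d, hd⟩
  have ht' : t ∈ u :: (τ ++ [v]) := mem_pre ht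
  rcases hp.cl d hd t hadj.symm with k | rfl | rfl
  · exact (k2 k).2 ht'
  · exact k1.2 ht'
  · exact h.nd'.2 ht

lemma PH.c2H [Finite V] (h : PH G S X u v z (τ ++ [y1])) (hp : Pend G S u v K ys)
    (hmax : ∀ W c, Pend G S u v W c → W.ncard ≤ K.ncard) :
    ∀ d, Conn G ((S \ insert v K) \ {d}) := by
  intro d
  have hτ : τ ++ [y1] ≠ [] := by simp
  set D := S \ ls (u :: (τ ++ [y1] ++ [v])) with hD
  set H := S \ insert v K with hH
  have cDK : Conn G (D \ K) := h.rest_conn hτ hp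
  have hvτ : v ∉ u :: (τ ++ [y1]) := h.nd'.2
  have nb : ∀ t ∈ u :: (τ ++ [y1]), ∃ e ∈ D \ K, G.Adj t e := by
    intro t ht
    obtain ⟨e, he, hte⟩ := h.nbr hτ (mem_pre ht)
    exact ⟨e, ⟨he, fun k => h.not_tch hτ hp ht k hte⟩, hte⟩
  have DH : D \ K ⊆ H := fun w hw => ⟨hw.1.1, fun k => k.elim (fun e => hw.1.2 (by simp [e])) hw.2⟩
  have cases : ∀ w ∈ H, w ∈ u :: (τ ++ [y1]) ∨ w ∈ D \ K := by
    intro w hw
    by_cases k : w ∈ u :: (τ ++ [y1])
    · exact Or.inl k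
    · refine Or.inr ⟨⟨hw.1, fun k' => ?_⟩, fun k' => hw.2 (Or.inr k')⟩
      exact (of_mem_path k').elim k fun k' => hw.2 (Or.inl k')
  by_cases hd : d ∈ D \ K
  swap
  · obtain ⟨e0, he0, -⟩ := nb u (by simp)
    have s : D \ K ⊆ H \ {d} := fun w hw => ⟨DH hw, fun e => hd (e ▸ hw)⟩
    refine conn_of_base e0 fun w hw => ?_
    rcases cases w hw.1 with k | k
    · obtain ⟨e, he, hwe⟩ := nb w k
      exact (Reach.single hwe hw (s he)).trans ((cDK e he e0 he0).mono s)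
    · exact (cDK w k e0 he0).mono s
  have cT : Conn G (ls (u :: (τ ++ [y1]))) :=
    conn_ls (List.IsChain.left_of_append (l₁ := u :: (τ ++ [y1])) h.ch)
  have TP : ∀ w ∈ u :: (τ ++ [y1]), w ∈ u :: (τ ++ [y1] ++ [v]) := fun w hw => mem_pre hw
  have TK : ∀ w ∈ u :: (τ ++ [y1]), w ∉ K := fun w hw k => ((h.pend hτ hp ⟨w, k⟩).2.1 k).2 (TP w hw)
  have TH : ls (u :: (τ ++ [y1])) ⊆ H \ {d} := fun w hw =>
    ⟨⟨h.sub w (TP w hw), fun k => k.elim (fun e => hvτ (e ▸ hw)) (TK w hw)⟩,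
      fun e => hd.1.2 (e ▸ TP w hw)⟩
  by_contra hn
  obtain ⟨w, hw, hwU⟩ := exists_not_mem_comp hn (TH (a := u) (by simp))
  have dis := comp_disjoint hwU hw
  set W := comp G (H \ {d}) w with hW
  have WT : ∀ t ∈ u :: (τ ++ [y1]), t ∉ W := fun t ht =>
    Set.disjoint_left.1 dis (cT.subset_comp TH (by simp) ht)
  have WD : W ⊆ D \ K := fun p k => (cases p k.1.1).resolve_left fun k' => WT p k' k
  have hwW : w ∈ W := mem_comp_self hw
  have hdW : d ∉ W := fun k => k.1.2 rfl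
  have hdu : d ≠ u := fun e => hd.1.2 (by simp [e])
  have hdv : d ≠ v := fun e => hd.1.2 (by simp [e])
  have hvW : v ∉ W := fun k => k.1.1.2 (Or.inl rfl)
  have clW : ∀ p ∈ W, ∀ q, G.Adj p q → q ∈ W ∨ q ∈ K ∨ q = d ∨ q = v := by
    intro p k q hpq
    by_contra k'
    push Not at k'
    exact k'.1 (comp_closed k hpq ⟨⟨h.ins _ _ hpq.symm, fun e => e.elim k'.2.2.2 k'.2.1⟩, k'.2.2.1⟩)
  have WS : W ⊆ S := fun p k => k.1.1.1
  by_cases ht : Tch G W K
  · have hys : ys ∈ W := by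
      obtain ⟨p, k1, q, k2, hpq⟩ := ht
      rcases hp.cl q k2 p hpq.symm with k | rfl | rfl
      exacts [((WD k1).2 k).elim, k1, (hvW k1).elim]
    have := hmax (W ∪ K) d ⟨union_subset WS hp.sub, (conn_comp hw).union hp.conn ht,
      fun k => k.elim (WT u (by simp)) hp.hu, fun k => k.elim hvW hp.hv,
      fun k => k.elim hdW hd.2, hdu, hdv, by
        rintro p (k | k) q hpq
        · rcases clW p k q hpq with k | k | k | k
          exacts [Or.inl (Or.inl k), Or.inl (Or.inr k), Or.inr (Or.inl k), Or.inr (Or.inr k)]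
        · rcases hp.cl p k q hpq with k | rfl | k
          exacts [Or.inl (Or.inr k), Or.inl (Or.inl hys), Or.inr (Or.inr k)]⟩
    exact absurd this (not_le.2 (Set.ncard_lt_ncard
      ⟨subset_union_right, fun k => (WD hwW).2 (k (Or.inl hwW))⟩))
  have pW : Pend G S u v W d := ⟨WS, conn_comp hw, WT u (by simp), hvW, hdW, hdu, hdv,
    fun p k q hpq => (clW p k q hpq).imp id fun k' =>
      k'.resolve_left fun k' => ht ⟨p, k, q, k', hpq⟩⟩
  rcases K.eq_empty_or_nonempty with rfl | hne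
  · have := hmax W d pW
    simp only [Set.ncard_empty, nonpos_iff_eq_zero] at this
    rw [Set.ncard_eq_zero] at this
    exact Set.Nonempty.ne_empty ⟨w, hwW⟩ this
  obtain ⟨a1, a2, a3, a4, a5⟩ := h.pend hτ hp hne
  obtain ⟨-, -, b3, b4, b5⟩ := h.pend hτ pW ⟨w, hwW⟩
  have hys : ys ∉ W := fun k => ht (a3.symm.mono le_rfl (by simpa using k) Subset.rfl)
  obtain ⟨e, he, hue⟩ := nb u (by simp)
  have heW : e ∉ W := fun k => by
    rcases pW.cl e k u hue.symm with k | k | k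
    exacts [pW.hu k, hdu k.symm, h.ne k]
  have hy : G.Adj y1 v := isChain_iff_edges.1 h.ch (y1, v)
    (edges_iff.2 ⟨u :: τ, [], by simp⟩)
  exact k33z (A1 := {v}) (A2 := (D \ K) \ W) (B1 := K) (B2 := W) (B3 := ls (u :: (τ ++ [y1])))
    h.nk h.hz (by simpa using h.XS h.vX) (fun p k => k.1.1.1) hp.sub WS
    (fun p k => h.sub p (TP p k)) conn_singleton
    (cDK.remove_pendant hd hdW fun p k q hq hpq => by
      rcases pW.cl p k q hpq with k | k | rfl
      exacts [Or.inl k, Or.inr k, (hq.1.2 (by simp)).elim])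
    hp.conn pW.conn cT
    (Set.disjoint_singleton_left.2 fun k => k.1.1.2 (by simp))
    (Set.disjoint_singleton_left.2 hp.hv) (Set.disjoint_singleton_left.2 hvW)
    (Set.disjoint_singleton_left.2 hvτ) (Set.disjoint_left.2 fun p k => k.1.2)
    (Set.disjoint_left.2 fun p k => k.2) (Set.disjoint_left.2 fun p k k' => k.1.1.2 (TP p k'))
    (Set.disjoint_left.2 fun p k k' => (WD k').2 k) (Set.disjoint_left.2 fun p k k' => TK p k' k)
    (Set.disjoint_left.2 fun p k k' => WT p k' k) a4.symm b4.symm ⟨v, rfl, y1, by simp, hy.symm⟩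
    (a3.symm.mono le_rfl (Set.singleton_subset_iff.2 ⟨⟨a1, hp.hy⟩, hys⟩) Subset.rfl)
    (b3.symm.mono le_rfl (Set.singleton_subset_iff.2 ⟨hd, hdW⟩) Subset.rfl)
    ⟨e, ⟨he, heW⟩, u, by simp, hue.symm⟩ a5 b5 ⟨u, by simp, h.uX⟩

lemma PH.connC (h : PH G S X u v z τ) (hτ : τ ≠ []) (hp : Pend G S u v K ys) :
    Conn G (insert v K) := by
  rcases K.eq_empty_or_nonempty with rfl | hne
  · simpa using conn_singleton
  · rw [Set.insert_eq]; exact conn_singleton.union hp.conn (h.pend hτ hp hne).2.2.2.1.symm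

lemma PH.phH [Finite V] (h : PH G S X u v z (τ ++ [y1])) (hp : Pend G S u v K ys)
    (hmax : ∀ W c, Pend G S u v W c → W.ncard ≤ K.ncard) :
    PH (res G (S \ insert v K)) (S \ insert v K)
      {w | w ∈ S \ insert v K ∧ (w ∈ X ∨ ∃ d ∈ insert v K, G.Adj w d)} u y1 z τ := by
  have hτ : τ ++ [y1] ≠ [] := by simp
  set H := S \ insert v K with hH
  have nd := h.nd'
  have TP : ∀ w ∈ u :: (τ ++ [y1]), w ∈ u :: (τ ++ [y1] ++ [v]) := fun w hw => mem_pre hw
  have TH : ∀ w ∈ u :: (τ ++ [y1]), w ∈ H := fun w hw =>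
    ⟨h.sub w (TP w hw), fun k => k.elim (fun e => nd.2 (e ▸ hw))
      fun k => ((h.pend hτ hp ⟨w, k⟩).2.1 k).2 (TP w hw)⟩
  have hy : G.Adj y1 v := isChain_iff_edges.1 h.ch (y1, v) (edges_iff.2 ⟨u :: τ, [], by simp⟩)
  have ch := isChain_iff_edges.1 (List.IsChain.left_of_append (l₁ := u :: (τ ++ [y1])) h.ch)
  refine ⟨⟨res_in, fun k => h.hz k.1, fun w k => k.1, ⟨TH u (by simp), Or.inl h.uX⟩,
    ⟨TH y1 (by simp), Or.inr ⟨v, Or.inl rfl, hy⟩⟩, fun e => h.τX y1 (by simp) (e ▸ h.uX),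
    fun W k1 k2 k3 a b k4 => ?_⟩, fun d => (h.c2H hp hmax d).res sdiff_subset,
    isChain_iff_edges.2 fun e he => ⟨ch e he, TH _ (mem_of_edge he).1, TH _ (mem_of_edge he).2⟩,
    nd.1, fun P c M d R e k => h.ind P c M d (R ++ [v]) (by rw [← List.cons_append, e]; simp) k.1,
    ?_, ?_, ?_⟩
  · have k5 := Set.disjoint_left.1 k3
    refine h.c3 W (k1.trans sdiff_subset) k2
      (Set.disjoint_left.2 fun w k6 k7 => k5 k6 ⟨k1 k6, Or.inl k7⟩) a b
      (k4.of_res k1 fun p k6 q hpq => ⟨h.ins _ _ hpq.symm, fun k7 => ?_⟩)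
    exact k5 k6 ⟨k1 k6, Or.inr ⟨q, k7, hpq⟩⟩
  · rintro w hw ⟨-, k | ⟨d, rfl | k, hwd⟩⟩
    · exact h.τX w (by simp [hw]) k
    · obtain ⟨P, R, rfl⟩ := List.append_of_mem hw
      have := h.ind (u :: P) w (R ++ [y1]) d [] (by simp) hwd
      simp at this
    · exact h.not_tch hτ hp (by simp [hw]) k hwd
  · have e : H \ ls (u :: (τ ++ [y1])) = (S \ ls (u :: (τ ++ [y1] ++ [v]))) \ K := by
      ext w
      simp only [hH, mem_sdiff, mem_insert_iff, mem_ls, List.mem_cons, List.mem_append,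
        List.not_mem_nil, or_false]
      clear * -; tauto
    refine Conn.res ?_ sdiff_subset
    rw [e]; exact h.rest_conn hτ hp
  · have hzv : z ≠ v := fun e => h.hz (e ▸ h.XS h.vX)
    have cC : Conn (aug G X z) (insert z (insert v K)) := by
      rw [Set.insert_eq]
      exact conn_singleton.union ((h.connC hτ hp).mono le_aug)
        ⟨z, rfl, v, Or.inl rfl, Or.inr ⟨hzv, Or.inl ⟨rfl, h.vX⟩⟩⟩
    have inH : ∀ p ∈ H, p ∈ insert z (insert v K) → p = z := fun p k1 k2 =>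
      k2.resolve_right k1.2
    refine h.nk.merge (C := insert z (insert v K)) (c := z) cC (Or.inl rfl) ?_
    rintro p q (k | ⟨k0, ⟨rfl, k1, k | ⟨d, k2, k⟩⟩ | ⟨rfl, k1, k | ⟨d, k2, k⟩⟩⟩)
    · exact ⟨inH p k.2.1, Or.inl (Or.inl k.1)⟩
    · exact ⟨fun _ => rfl, Or.inl (Or.inr ⟨k0, Or.inl ⟨rfl, k⟩⟩)⟩
    · exact ⟨fun _ => rfl, Or.inr (Or.inl ⟨rfl, d, Or.inr k2, Or.inl k.symm⟩)⟩
    · exact ⟨inH p k1, Or.inl (Or.inr ⟨k0, Or.inr ⟨rfl, k⟩⟩)⟩
    · exact ⟨inH p k1, Or.inr (Or.inr ⟨rfl, d, Or.inr k2, Or.inl k⟩)⟩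

lemma interlace {H P Q : Set V} {B1 B2 B3 : List V} {w : V} (nk : NoK (aug G X z)) (hz : z ∉ S)
    (HS : H ⊆ S) (PS : P ⊆ S) (QS : Q ⊆ S) (hv : v ∈ S) (uX : u ∈ X) (vX : v ∈ X)
    (hvH : v ∉ H) (hvP : v ∉ P) (hvQ : v ∉ Q) (dP : Disjoint H P) (dQ : Disjoint H Q)
    (dPQ : Disjoint P Q)
    (ch : ((u :: B1) ++ (c :: B2) ++ [w] ++ (B3 ++ [y1])).IsChain G.Adj)
    (nd : ((u :: B1) ++ (c :: B2) ++ [w] ++ (B3 ++ [y1])).Nodup)
    (sβ : ∀ p ∈ (u :: B1) ++ (c :: B2) ++ [w] ++ (B3 ++ [y1]), p ∈ H)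
    (chτ : (u :: (τ ++ [y1])).IsChain G.Adj) (sτ : ∀ p ∈ τ, p ∈ H)
    (dτ : ∀ p ∈ τ, p ∉ (u :: B1) ++ (c :: B2) ++ [w]) (hy : G.Adj y1 v)
    (cP : Conn G (insert c P)) (tP : Tch G (insert c P) {v}) (cQ : Conn G (insert w Q))
    (xQ : ∃ p ∈ insert w Q, p ∈ X) : False := by
  obtain ⟨d12, d13, d14, d23, d24, d34⟩ := nd4 nd
  obtain ⟨c1, c2, -, c4, c12, c34⟩ := ch4 ch
  have s1 : ls (u :: B1) ⊆ H := fun p k => sβ p (by simp only [List.mem_append]; exact Or.inl (Or.inl (Or.inl k)))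
  have s2 : ls (c :: B2) ⊆ H := fun p k => sβ p (by simp only [List.mem_append]; exact Or.inl (Or.inl (Or.inr k)))
  have s3 : w ∈ H := sβ w (by simp)
  have s4 : ls (B3 ++ [y1]) ⊆ H := fun p k => sβ p (List.mem_append_right _ k)
  have s5 : ls (τ ++ [y1]) ⊆ H := fun p k =>
    (List.mem_append.1 k).elim (sτ p) fun k => s4 (List.mem_append_right _ k)
  have e3 : ls [w] = {w} := by ext; simp
  rw [e3] at d13 d23 d34
  have d5 : ∀ L : Set V, L ⊆ ls ((u :: B1) ++ (c :: B2) ++ [w]) → Disjoint L (ls (B3 ++ [y1])) →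
      Disjoint L (ls (B3 ++ [y1]) ∪ ls (τ ++ [y1])) := by
    intro L k1 k2
    refine Set.disjoint_union_right.2 ⟨k2, Set.disjoint_left.2 fun p k3 k4 => ?_⟩
    rcases List.mem_append.1 k4 with k4 | k4
    · exact dτ p k4 (k1 k3)
    · exact Set.disjoint_left.1 k2 k3 (List.mem_append_right _ k4)
  have s6 : ls (B3 ++ [y1]) ∪ ls (τ ++ [y1]) ⊆ H := union_subset s4 s5
  have t23 : Tch G (ls (c :: B2)) {w} := by
    rw [← e3]
    refine tch_of_chain ?_ (by simp) (by simp)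
    have := ch.left_of_append
    rw [List.append_assoc] at this
    exact this.right_of_append
  have t34 : Tch G {w} (ls (B3 ++ [y1])) := by
    rw [← e3]; exact tch_of_chain c34 (by simp) (by simp)
  have tτ : Tch G (ls [u]) (ls (τ ++ [y1])) := tch_of_chain (P := [u]) chτ (by simp) (by simp)
  refine k33z (A1 := ls (c :: B2) ∪ insert c P) (A2 := ls (B3 ++ [y1]) ∪ ls (τ ++ [y1]))
    (B1 := ls (u :: B1)) (B2 := insert w Q) (B3 := {v}) nk hz
    (union_subset (s2.trans HS) (Set.insert_subset (HS (s2 (by simp))) PS)) (s6.trans HS)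
    (s1.trans HS) (Set.insert_subset (HS s3) QS) (by simpa)
    ((conn_ls c2).union_of_mem (c := c) cP (by simp) (by simp))
    ((conn_ls c4).union_of_mem (c := y1) (conn_ls (List.IsChain.right_of_append (l₁ := [u]) chτ))
      (by simp) (by simp)) (conn_ls c1) cQ conn_singleton ?_ ?_ ?_ ?_ ?_ ?_ ?_ ?_ ?_ ?_
    ((tch_of_chain c12 (by simp) (by simp)).symm.mono le_rfl subset_union_left Subset.rfl)
    (t23.mono le_rfl subset_union_left (by simp)) (tP.mono le_rfl subset_union_right Subset.rfl)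
    (tτ.symm.mono le_rfl subset_union_right fun p k => by simp at k; simp [k])
    (t34.symm.mono le_rfl subset_union_left (by simp)) ⟨y1, by simp, v, rfl, hy⟩
    ⟨u, by simp, uX⟩ xQ ⟨v, rfl, vX⟩
  all_goals
    have e : ls (c :: B2) ∪ insert c P = ls (c :: B2) ∪ P := by
      ext p; simp only [mem_union, mem_insert_iff, mem_ls, List.mem_cons]; clear * -; tauto
    have e' : insert w Q = {w} ∪ Q := rfl
    try rw [e]
    try rw [e']
  · exact Set.disjoint_union_left.2 ⟨d5 _ (fun p k => by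
      simp only [mem_ls, List.mem_append]; exact Or.inl (Or.inr k)) d24, (dP.mono_left s6).symm⟩
  · exact Set.disjoint_union_left.2 ⟨d12.symm, (dP.mono_left s1).symm⟩
  · exact Set.disjoint_union_left.2 ⟨Set.disjoint_union_right.2 ⟨d23, dQ.mono_left s2⟩,
      Set.disjoint_union_right.2 ⟨(dP.mono_left (by simpa)).symm, dPQ⟩⟩
  · exact Set.disjoint_singleton_right.2 fun k => k.elim (fun k => hvH (s2 k)) hvP
  · exact (d5 _ (fun p k => by
      simp only [mem_ls, List.mem_append]; exact Or.inl (Or.inl k)) d14).symm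
  · exact Set.disjoint_union_right.2 ⟨(d5 _ (by simp) d34).symm, dQ.mono_left s6⟩
  · exact Set.disjoint_singleton_right.2 fun k => hvH (s6 k)
  · exact Set.disjoint_union_right.2 ⟨d13, dQ.mono_left s1⟩
  · exact Set.disjoint_singleton_right.2 fun k => hvH (s1 k)
  · exact Set.disjoint_singleton_right.2 fun k => k.elim (fun k => hvH (k ▸ s3)) hvQ

lemma caseB [Finite V] (ih : ∀ G' < G, GoodP G' z ∧ GoodQ G' z) (h : PH G S X u v z τ)
    (huv : ¬ G.Adj u v) : PC G S X u v τ := by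
  obtain ⟨τ, y1, rfl⟩ := (List.eq_nil_or_concat τ).resolve_left fun e => by
    subst e; exact huv (by simpa using h.ch)
  rw [List.concat_eq_append] at h ⊢
  have hτ : τ ++ [y1] ≠ [] := by simp
  have huS := h.XS h.uX
  have hvS := h.XS h.vX
  obtain ⟨⟨K, ys⟩, hp, hmax'⟩ := Set.exists_max_image {p : Set V × V | Pend G S u v p.1 p.2}
    (fun p => p.1.ncard) (Set.toFinite _) ⟨(∅, z), empty_subset _, conn_empty, id, id, id,
      fun e : z = u => h.hz (e ▸ huS), fun e : z = v => h.hz (e ▸ hvS), fun _ k => k.elim⟩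
  have hp : Pend G S u v K ys := hp
  have hmax : ∀ W c, Pend G S u v W c → W.ncard ≤ K.ncard := fun W c k => hmax' (W, c) k
  have pH := h.phH hp hmax
  have cC := h.connC hτ hp
  set H := S \ insert v K with hH
  set XH := {w | w ∈ H ∧ (w ∈ X ∨ ∃ d ∈ insert v K, G.Adj w d)} with hXH
  have hy : G.Adj y1 v := isChain_iff_edges.1 h.ch (y1, v) (edges_iff.2 ⟨u :: τ, [], by simp⟩)
  have hvH : v ∉ H := fun k => k.2 (Or.inl rfl)
  obtain ⟨β, x1, oH⟩ := ((ih _ (res_lt hvH hy.symm)).1 _ _ _ _ _ pH).1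
  have iβ : Inc x1 (u :: (β ++ [y1])) := oH.cb.incβ fun _ _ _ k => k
  have sβ := path_sub res_in fun e he => (oH.cb.adjβ e he).1
  have sτ := pH.sub
  have offP : ∀ w ∈ XH, w ∉ u :: (τ ++ [y1] ++ [v]) → w ∈ β := by
    intro w k1 k2
    have := oH.cb.Xβ w k1
    simp only [List.mem_cons, List.mem_append, List.not_mem_nil, or_false] at this k2
    clear * - this k2; tauto
  have tK : ∀ w ∈ H, ∀ d ∈ K, G.Adj w d → w = ys := by
    intro w hw d hd hwd
    rcases hp.cl d hd w hwd.symm with k | k | k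
    exacts [(hw.2 (Or.inr k)).elim, k, (hw.2 (Or.inl k)).elim]
  have hys : K.Nonempty → ys ∈ β ∧ ∃ d ∈ K, G.Adj ys d := by
    intro hne
    obtain ⟨k1, -, ⟨d, hd, q, rfl, k2⟩, -⟩ := h.pend hτ hp hne
    exact ⟨offP _ ⟨⟨k1.1, fun k => k.elim hp.yv hp.hy⟩, Or.inr ⟨d, Or.inr hd, k2.symm⟩⟩ k1.2,
      d, hd, k2.symm⟩
  obtain ⟨B1, c, B', rfl, hc, hB1⟩ := split_first (fun w => ∃ d ∈ insert v K, G.Adj w d) (L := β)
    (by
      rcases K.eq_empty_or_nonempty with e | hne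
      · obtain ⟨d, hd, hvd⟩ := h.nbr hτ (t := v) (by simp)
        refine ⟨d, offP d ⟨⟨hd.1, ?_⟩, Or.inr ⟨v, Or.inl rfl, hvd.symm⟩⟩ hd.2, v, Or.inl rfl,
          hvd.symm⟩
        rw [e]; simpa using hvd.ne.symm
      · obtain ⟨k1, d, k2, k3⟩ := hys hne
        exact ⟨ys, k1, d, Or.inr k2, k3⟩)
  have hcH : c ∈ H := sβ c (by simp)
  have hcne := iβ.mem_ne (w := c) (by simp)
  have dis : ∀ p ∈ τ, p ∉ B1 ++ c :: B' := by
    obtain ⟨y, g, n, k⟩ := oH.geo x1 (fun _ _ _ k => k) (x1 y1 + 1) (by linarith)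
    obtain ⟨n1, n2⟩ := n ⟨c, hcH, hcne.1, hcne.2⟩
    exact fun p k1 k2 => (peak_pos g iβ n1 n2 p k2).ne' (k p k1)
  have noB : ∀ w ∈ B', w ∉ X ∧ ∀ d ∈ K, ¬ G.Adj w d := by
    intro w hw
    obtain ⟨B2, B3, rfl⟩ := List.append_of_mem hw
    have e : u :: (B1 ++ c :: (B2 ++ w :: B3) ++ [y1]) =
        (u :: B1) ++ (c :: B2) ++ [w] ++ (B3 ++ [y1]) := by simp
    have hwH : w ∈ H := sβ w (by simp)
    have nd := iβ.nodup
    have ch : (u :: (B1 ++ c :: (B2 ++ w :: B3) ++ [y1])).IsChain G.Adj :=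
      isChain_iff_edges.2 fun e he => (oH.cb.adjβ e he).1.1
    rw [e] at nd ch sβ
    have hcw : c ≠ w := fun k =>
      Set.disjoint_left.1 (nd4 nd).2.2.2.1 (show c ∈ ls (c :: B2) by simp) (by simp [k])
    have key : ∀ P Q : Set V, P ⊆ K → Q ⊆ K → Disjoint P Q → Conn G (insert c P) →
        Tch G (insert c P) {v} → Conn G (insert w Q) → (∃ p ∈ insert w Q, p ∈ X) → False := by
      intro P Q k1 k2 k3 k4 k5 k6 k7
      have dK : Disjoint H K := Set.disjoint_left.2 fun p j1 j2 => j1.2 (Or.inr j2)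
      refine interlace (τ := τ) h.nk h.hz sdiff_subset (k1.trans hp.sub) (k2.trans hp.sub) hvS h.uX
        h.vX hvH (fun k => hp.hv (k1 k)) (fun k => hp.hv (k2 k)) (dK.mono_right k1)
        (dK.mono_right k2) k3 ch nd sβ
        (List.IsChain.left_of_append (l₁ := u :: (τ ++ [y1])) h.ch)
        (fun p k => sτ p (by simp [k])) (fun p k k' => ?_) hy k4 k5 k6 k7
      have j1 := dis p k
      have j2 : p ≠ u := fun j => h.τX p (by simp [k]) (j ▸ h.uX)
      simp only [List.mem_cons, List.mem_append, List.not_mem_nil, or_false] at j1 k'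
      clear * - j1 j2 k'; tauto
    have one : ∀ p : V, Conn G (insert p ∅) := fun p => by simpa using conn_singleton
    have cK : ∀ p, ∀ d ∈ K, G.Adj p d → Conn G (insert p K) := fun p d k1 k2 => by
      rw [Set.insert_eq]; exact conn_singleton.union hp.conn ⟨p, rfl, d, k1, k2⟩
    constructor
    · intro hwX
      obtain ⟨d, rfl | k1, k2⟩ := hc
      · exact key ∅ ∅ (by simp) (by simp) (by simp) (one c) ⟨c, by simp, d, rfl, k2⟩ (one w)
          ⟨w, by simp, hwX⟩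
      · exact key K ∅ Subset.rfl (by simp) (by simp) (cK c d k1 k2)
          ((h.pend hτ hp ⟨d, k1⟩).2.2.2.1.mono le_rfl (subset_insert _ _) Subset.rfl) (one w)
          ⟨w, by simp, hwX⟩
    · intro d' j1 j2
      obtain ⟨d, rfl | k1, k2⟩ := hc
      · obtain ⟨p, j3, j4⟩ := (h.pend hτ hp ⟨d', j1⟩).2.2.2.2
        exact key ∅ K (by simp) Subset.rfl (by simp) (one c) ⟨c, by simp, d, rfl, k2⟩
          (cK w d' j1 j2) ⟨p, Or.inr j3, j4⟩
      · exact hcw ((tK c hcH d k1 k2).trans (tK w hwH d' j1 j2).symm)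
  have cys : ∀ d ∈ K, ys = c := by
    intro d hd
    obtain ⟨k1, e, k2, k3⟩ := hys ⟨d, hd⟩
    simp only [List.mem_cons, List.mem_append] at k1
    rcases k1 with k | k | k
    exacts [(hB1 ys k ⟨e, Or.inr k2, k3⟩).elim, k, ((noB ys k).2 e k2 k3).elim]
  set B := insert c (insert v K) with hB
  have nK : ∀ p ∈ K, ∀ q, G.Adj p q → q ∈ B := by
    intro p k q hpq
    rcases hp.cl p k q hpq with j | j | j
    exacts [Or.inr (Or.inr j), Or.inl (j.trans (cys p k)), Or.inr (Or.inl j)]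
  have hcv : c ≠ v := fun e => hvH (e ▸ hcH)
  have BS : B ⊆ S := Set.insert_subset hcH.1 (Set.insert_subset hvS hp.sub)
  have hI : ∀ a ∈ H, a ∈ B → a = c := fun a k1 k2 => k2.resolve_right k1.2
  have huH : u ∈ H := sτ u (by simp)
  have hy1H : y1 ∈ H := sτ y1 (by simp)
  have WK : ∀ W, W ⊆ B → c ∉ W → v ∉ W → W ⊆ K := fun W k1 k2 k3 p k =>
    ((k1 k).resolve_left fun e => k2 (e ▸ k)).resolve_left fun e => k3 (e ▸ k)
  have qB : QH (res G B) B (insert c (insert v (X ∩ K))) c v z := by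
    refine ⟨⟨res_in, fun k => h.hz (BS k),
      Set.insert_subset_insert (Set.insert_subset_insert inter_subset_right), Or.inl rfl,
      Or.inr (Or.inl rfl), hcv, fun W k1 k2 k3 a b k4 => ?_⟩, fun W k1 k2 k3 k4 d k5 => ?_,
      Conn.res ?_ Subset.rfl, Conn.res ?_ sdiff_subset, ?_⟩
    · have k5 := Set.disjoint_left.1 k3
      have k6 := WK W k1 (fun k => k5 k (Or.inl rfl)) fun k => k5 k (Or.inr (Or.inl rfl))
      exact h.c3 W (k1.trans BS) k2
        (Set.disjoint_left.2 fun w j1 j2 => k5 j1 (Or.inr (Or.inr ⟨j2, k6 j1⟩))) a b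
        (k4.of_res k1 fun p k => nK p (k6 k))
    · have k6 := WK W k1 k3 k4
      exact h.c2' W (k1.trans BS) k2 (fun k => hp.hu (k6 k)) k4 d
        (k5.of_res k1 fun p k => nK p (k6 k))
    · rw [hB, Set.insert_eq]
      obtain ⟨d, k1, k2⟩ := hc
      exact conn_singleton.union cC ⟨c, rfl, d, k1, k2⟩
    · have e : B \ {c, v} = K := Set.Subset.antisymm
        (WK _ sdiff_subset (fun k => k.2 (Or.inl rfl)) fun k => k.2 (Or.inr rfl))
        fun p k => ⟨Or.inr (Or.inr k), fun j => j.elim (fun j => hcH.2 (Or.inr (j ▸ k)))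
          fun j => hp.hv (j ▸ k)⟩
      rw [e]; exact hp.conn
    · have cH : Conn G H := (C2.conn pH.c2 pH.hz).mono res_le
      have zH : z ∈ H → z = c := fun k => (pH.hz k).elim
      have hzu : z ≠ u := fun e => h.hz (e ▸ huS)
      have vc : v ∈ H → v = c := fun k => (hvH k).elim
      refine h.nk.merge (C := H) (c := c) (cH.mono le_aug) hcH ?_
      rintro p q ((k | ⟨-, ⟨rfl, rfl⟩ | ⟨rfl, rfl⟩⟩) |
        ⟨k0, ⟨rfl, rfl | rfl | k⟩ | ⟨rfl, rfl | rfl | k⟩⟩)
      · exact ⟨fun j => hI p j k.2.1, Or.inl (Or.inl k.1)⟩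
      · exact ⟨fun _ => rfl, Or.inr (Or.inl ⟨rfl, y1, hy1H, Or.inl hy⟩)⟩
      · exact ⟨vc, Or.inr (Or.inr ⟨rfl, y1, hy1H, Or.inl hy.symm⟩)⟩
      · exact ⟨zH, Or.inr (Or.inr ⟨rfl, u, huH, Or.inr ⟨hzu, Or.inl ⟨rfl, h.uX⟩⟩⟩)⟩
      · exact ⟨zH, Or.inl (Or.inr ⟨k0, Or.inl ⟨rfl, h.vX⟩⟩)⟩
      · exact ⟨zH, Or.inl (Or.inr ⟨k0, Or.inl ⟨rfl, k.1⟩⟩)⟩
      · exact ⟨fun _ => rfl, Or.inr (Or.inl ⟨rfl, u, huH, Or.inr ⟨hzu.symm, Or.inr ⟨rfl, h.uX⟩⟩⟩)⟩
      · exact ⟨vc, Or.inl (Or.inr ⟨k0, Or.inr ⟨rfl, h.vX⟩⟩)⟩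
      · exact ⟨fun j => (j.2 (Or.inr k.2)).elim, Or.inl (Or.inr ⟨k0, Or.inr ⟨rfl, k.1⟩⟩)⟩
  obtain ⟨p, -, hup⟩ := h.nbr hτ (t := u) (by simp)
  have i2 := ih _ (res_lt (A := B) (fun k => hcne.1 (hI u huH k).symm) hup)
  obtain ⟨τB, oB⟩ := anyOut i2.1 i2.2 qB
  have hX : ∀ w ∈ X, w ∈ u :: B1 ∨ w = c ∨ w ∈ insert c (insert v (X ∩ K)) := by
    intro w hw
    by_cases k : w ∈ insert v K
    · exact Or.inr (Or.inr (Or.inr (k.imp id fun k => ⟨hw, k⟩)))
    · have := oH.cb.Xβ w ⟨⟨h.XS hw, k⟩, Or.inl hw⟩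
      have j1 : w ∉ B' := fun j => (noB w j).1 hw
      have j2 : w ≠ y1 := fun j => h.τX y1 (by simp) (j ▸ hw)
      simp only [List.mem_cons, List.mem_append, List.not_mem_nil, or_false] at this ⊢
      clear * - this j1 j2; tauto
  have nv : ∀ b, G.Adj v b → b ∈ B ∨ b ∈ B' ++ [y1] := by
    intro b hb
    by_cases k : b ∈ insert v K
    · exact Or.inl (Or.inr k)
    · have := oH.cb.Xβ b ⟨⟨h.ins _ _ hb.symm, k⟩, Or.inr ⟨v, Or.inl rfl, hb.symm⟩⟩
      have j1 : b ∉ B1 := fun j => hB1 b j ⟨v, Or.inl rfl, hb.symm⟩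
      have j2 : b ≠ u := fun j => huv (j ▸ hb.symm)
      have j3 : b = c → b ∈ B := Or.inl
      simp only [List.mem_cons, List.mem_append, List.not_mem_nil, or_false] at this ⊢
      clear * - this j1 j2 j3; tauto
  have main := out_B (X := X) (S := S) (H := H) (B := B)
    (Set.Subset.antisymm (fun w hw => by
      by_cases k : w ∈ insert v K
      exacts [Or.inr (Or.inr k), Or.inl ⟨hw, k⟩]) (union_subset sdiff_subset BS))
    hI (Or.inr (Or.inl rfl)) hcv hy (fun a b hab => by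
      by_cases k1 : a ∈ insert v K
      · rcases k1 with rfl | k1
        · exact (nv b hab).elim (fun k => Or.inr (Or.inl ⟨Or.inr (Or.inl rfl), k⟩))
            fun k => Or.inr (Or.inr (Or.inl ⟨rfl, k⟩))
        · exact Or.inr (Or.inl ⟨Or.inr (Or.inr k1), nK a k1 b hab⟩)
      by_cases k2 : b ∈ insert v K
      · rcases k2 with rfl | k2
        · exact (nv a hab.symm).elim (fun k => Or.inr (Or.inl ⟨k, Or.inr (Or.inl rfl)⟩))
            fun k => Or.inr (Or.inr (Or.inr ⟨rfl, k⟩))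
        · exact Or.inr (Or.inl ⟨nK b k2 a hab.symm, Or.inr (Or.inr k2)⟩)
      · exact Or.inl ⟨⟨h.ins _ _ hab, k1⟩, h.ins _ _ hab.symm, k2⟩) oH oB
    (fun w hw => ⟨fun k => ⟨sβ w (by simp [hw]), Or.inl k⟩,
      fun k => k.2.resolve_right (hB1 w hw)⟩) ⟨hcH, Or.inr hc⟩
    (fun w hw k => by
      obtain ⟨d, rfl | j1, j2⟩ := k.2.resolve_left (noB w hw).1
      exacts [j2, ((noB w hw).2 d j1 j2).elim])
    (fun w hw k1 k2 => ⟨fun k => Or.inr (Or.inr ⟨k, (hw.resolve_left k1).resolve_left k2⟩),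
      fun k => ((k.resolve_left k1).resolve_left k2).1⟩) hX
    (fun k1 k2 => by
      by_contra k3
      have hy1X := h.τX y1 (by simp)
      obtain ⟨w, j1, j2⟩ := h.hasX (W := S \ {u, v}) sdiff_subset
        ⟨y1, hy1H.1, fun k => k.elim (fun e => hy1X (e ▸ h.uX)) fun e => hy1X (e ▸ h.vX)⟩
        (cl_diff h.ins)
      rcases hX w j2 with k | rfl | rfl | k | k
      · exact (List.mem_cons.1 k).elim (fun e => j1.2 (Or.inl e)) fun k => k2 w k j2
      · exact k1 j2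
      · exact k1 j2
      · exact j1.2 (Or.inr k)
      · exact k3 ⟨w, Or.inr (Or.inr k.2), fun e => k1 (e ▸ j2), fun e => j1.2 (Or.inr e)⟩)
  exact ⟨(main False).mono fun x y k => k.2 id, fun _ => (main True).mono fun x y k => k.1 trivial⟩

theorem good [Finite V] (z : V) (G : SimpleGraph V) : GoodP G z ∧ GoodQ G z := by
  induction G using (wellFounded_lt (α := SimpleGraph V)).induction with
  | _ G ih =>
    have hP : GoodP G z := fun S X u v τ h => by
      by_cases huv : G.Adj u v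
      exacts [caseA ih h huv, caseB ih h huv]
    exact ⟨hP, goodQ ih hP⟩

end Pool.Agent.MP_250189_co

end
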