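import Pool.Agent.MP_250189_co.Geo
import Pool.Agent.MP_250189_co.Basic
import Pool.Agent.MP_250189_co.Mg.Rec2

-- part MP_250189_co.Topo
section

/-! A shelling by convex faces gives a noncrossing drawing all of whose faces are convex. -/

namespace Pool.Agent.MP_250189_co

open Set

section paths

variable {V : Type*} {x y : V → ℝ} {a b c : V} {t : ℝ}

lemma ln_left (x y : V → ℝ) (a b : V) : ln x y a b (x a) = y a := by simp [ln]

lemma ln_right (h : x a < x b) : ln x y a b (x b) = y b := by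
  have : x b - x a ≠ 0 := by linarith
  unfold ln sl; field_simp; ring

lemma ln_right' (h : x a < x b) (t : ℝ) : ln x y a b t = y b + sl x y a b * (t - x b) := by
  have := ln_right (y := y) h
  unfold ln at this ⊢
  linarith

lemma Inc.tail {L : List V} (h : Inc x (a :: L)) : Inc x L := Inc.right (P := [a]) h

lemma Inc.head_le {L : List V} (h : Inc x (a :: L)) (hc : c ∈ a :: L) : x a ≤ x c := by
  rcases List.mem_cons.1 hc with rfl | hc
  · exact le_rfl
  · exact (Inc.lt (P := [a]) h (by simp) hc).le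

lemma Inc.le_last {L : List V} (h : Inc x (L ++ [b])) (hc : c ∈ L ++ [b]) : x c ≤ x b := by
  rcases List.mem_append.1 hc with hc | hc
  · exact (Inc.lt h hc (by simp)).le
  · simp at hc; rw [hc]

lemma edge_cases {L : List V} (h : Inc x L) {e e' : V × V} (he : e ∈ edges L) (he' : e' ∈ edges L) :
    e = e' ∨ x e.2 < x e'.1 ∨ e.2 = e'.1 ∨ x e'.2 < x e.1 ∨ e'.2 = e.1 := by
  induction L with
  | nil => simp at he
  | cons p L ih =>
    cases L with
    | nil => simp at he
    | cons q L =>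
      have key : ∀ f ∈ edges (q :: L), x q < x f.1 ∨ q = f.1 := by
        intro f hf
        rcases List.mem_cons.1 (mem_of_edge hf).1 with h1 | h1
        · exact Or.inr h1.symm
        · exact Or.inl (Inc.lt (P := [q]) h.tail (by simp) h1)
      rcases he with rfl | he
      · rcases he' with rfl | he'
        · exact Or.inl rfl
        · rcases key _ he' with h1 | h1
          · exact Or.inr (Or.inl h1)
          · exact Or.inr (Or.inr (Or.inl h1))
      · rcases he' with rfl | he'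
        · rcases key _ he with h1 | h1
          · exact Or.inr (Or.inr (Or.inr (Or.inl h1)))
          · exact Or.inr (Or.inr (Or.inr (Or.inr h1)))
        · exact ih h.tail he he'

lemma edge_unique {L : List V} (h : Inc x L) {e e' : V × V} (he : e ∈ edges L) (he' : e' ∈ edges L)
    (h1 : x e.1 < t) (h2 : t < x e.2) (h3 : x e'.1 ≤ t) (h4 : t ≤ x e'.2) : e = e' := by
  rcases edge_cases h he he' with h5 | h5 | h5 | h5 | h5
  · exact h5
  · linarith
  · rw [h5] at h2; linarith
  · linarith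
  · rw [h5] at h4; linarith

lemma ln_unique {L : List V} (h : Inc x L) {e e' : V × V} (he : e ∈ edges L) (he' : e' ∈ edges L)
    (h1 : x e.1 ≤ t) (h2 : t ≤ x e.2) (h3 : x e'.1 ≤ t) (h4 : t ≤ x e'.2) :
    ln x y e.1 e.2 t = ln x y e'.1 e'.2 t := by
  rcases edge_cases h he he' with h5 | h5 | h5 | h5 | h5
  · rw [h5]
  · linarith
  · have ht : t = x e.2 := by rw [← h5] at h3; linarith
    rw [ht, ln_right (h _ he), h5, ln_left]
  · linarith
  · have ht : t = x e'.2 := by rw [← h5] at h1; linarith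
    rw [ht, ln_right (h _ he'), h5, ln_left]

def dom (x : V → ℝ) (L : List V) : Set ℝ := {t | ∃ e ∈ edges L, x e.1 ≤ t ∧ t ≤ x e.2}

open Classical in
noncomputable def pf (x y : V → ℝ) (L : List V) (t : ℝ) : ℝ :=
  if h : ∃ e ∈ edges L, x e.1 ≤ t ∧ t ≤ x e.2 then ln x y h.choose.1 h.choose.2 t else 0

lemma pf_eq {L : List V} (h : Inc x L) {e : V × V} (he : e ∈ edges L) (h1 : x e.1 ≤ t)
    (h2 : t ≤ x e.2) : pf x y L t = ln x y e.1 e.2 t := by
  have hex : ∃ e ∈ edges L, x e.1 ≤ t ∧ t ≤ x e.2 := ⟨e, he, h1, h2⟩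
  unfold pf
  rw [dif_pos hex]
  exact ln_unique h hex.choose_spec.1 he hex.choose_spec.2.1 hex.choose_spec.2.2 h1 h2

lemma cover (M : List V) : ∀ a, x a ≤ t → t ≤ x b → t ∈ dom x (a :: (M ++ [b])) := by
  induction M with
  | nil => intro a h1 h2; exact ⟨(a, b), by simp, h1, h2⟩
  | cons d M ih =>
    intro a h1 h2
    by_cases h : t ≤ x d
    · exact ⟨(a, d), by simp, h1, h⟩
    · obtain ⟨e, he, h3⟩ := ih d (not_le.1 h).le h2
      exact ⟨e, Or.inr he, h3⟩

lemma edge_range {M : List V} (h : Inc x (a :: (M ++ [b]))) {e : V × V}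
    (he : e ∈ edges (a :: (M ++ [b]))) : x a ≤ x e.1 ∧ x e.2 ≤ x b :=
  ⟨h.head_le (mem_of_edge he).1, Inc.le_last (L := a :: M) h (mem_of_edge he).2⟩

lemma mem_dom {M : List V} (h : Inc x (a :: (M ++ [b]))) :
    t ∈ dom x (a :: (M ++ [b])) ↔ x a ≤ t ∧ t ≤ x b := by
  refine ⟨?_, fun h => cover M a h.1 h.2⟩
  rintro ⟨e, he, h1, h2⟩
  exact ⟨(edge_range h he).1.trans h1, h2.trans (edge_range h he).2⟩

lemma first_edge (M : List V) (a b : V) : ∃ d, (a, d) ∈ edges (a :: (M ++ [b])) := by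
  cases M with
  | nil => exact ⟨b, by simp⟩
  | cons d M => exact ⟨d, by simp⟩

lemma final_edge (M : List V) (a b : V) : ∃ d, (d, b) ∈ edges (a :: (M ++ [b])) := by
  obtain ⟨d, hd⟩ : ∃ d, (a :: M).getLast? = some d := ⟨_, List.getLast?_eq_getLast_of_ne_nil (by simp)⟩
  exact ⟨d, last_edge (P := a :: M) hd⟩

lemma pf_left {L : List V} (h : Inc x L) (he : (a, b) ∈ edges L) : pf x y L (x a) = y a := by
  rw [pf_eq h he le_rfl (h _ he).le, ln_left]

lemma pf_right {L : List V} (h : Inc x L) (he : (a, b) ∈ edges L) : pf x y L (x b) = y b := by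
  rw [pf_eq h he (h _ he).le le_rfl, ln_right (h _ he)]

lemma ln_le_of_sl (h : x a < x b) (hs : sl x y a b ≤ sl x y b c) (ht : x b ≤ t) :
    ln x y a b t ≤ ln x y b c t := by
  rw [ln_right' h]; unfold ln; nlinarith

lemma ln_ge_of_sl (h : x a < x b) (hs : sl x y a b ≤ sl x y b c) (ht : t ≤ x b) :
    ln x y b c t ≤ ln x y a b t := by
  rw [ln_right' h]; unfold ln; nlinarith

lemma cvx_first (T : List V) : ∀ a b, Inc x (a :: b :: T) → Cvx x y (a :: b :: T) →
    ∀ e ∈ edges (a :: b :: T), (∀ t, x e.1 ≤ t → ln x y a b t ≤ ln x y e.1 e.2 t) ∧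
      ∀ t, t ≤ x b → ln x y e.1 e.2 t ≤ ln x y a b t := by
  induction T with
  | nil => intro a b _ _ e he; simp at he; subst he; simp
  | cons c T ih =>
    intro a b h1 h2 e he
    rcases he with rfl | he
    · simp
    · have hab : x a < x b := h1 (a, b) (by simp)
      have hbc : x b < x c := h1 (b, c) (by simp)
      obtain ⟨i1, i2⟩ := ih b c h1.tail h2.2 e he
      have hb : x b ≤ x e.1 := h1.tail.head_le (mem_of_edge he).1
      exact ⟨fun t ht => (ln_le_of_sl hab h2.1 (hb.trans ht)).trans (i1 t ht),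
        fun t ht => (i2 t (ht.trans hbc.le)).trans (ln_ge_of_sl hab h2.1 ht)⟩

lemma cvx_le {L : List V} (h1 : Inc x L) (h2 : Cvx x y L) {e e' : V × V} (he : e ∈ edges L)
    (he' : e' ∈ edges L) (h3 : x e'.1 ≤ t) (h4 : t ≤ x e'.2) :
    ln x y e.1 e.2 t ≤ ln x y e'.1 e'.2 t := by
  induction L with
  | nil => simp at he
  | cons a L ih =>
    cases L with
    | nil => simp at he
    | cons b T =>
      rcases he with rfl | he
      · exact (cvx_first T a b h1 h2 e' he').1 t h3
      · rcases he' with rfl | he'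
        · exact (cvx_first T a b h1 h2 e (Or.inr he)).2 t h4
        · refine ih h1.tail ?_ he he'
          cases T with
          | nil => simp [Cvx]
          | cons c T => exact h2.2

lemma sl_neg (x y : V → ℝ) (a b : V) : sl x (fun v => -y v) a b = -sl x y a b := by
  unfold sl; ring

lemma ln_neg (x y : V → ℝ) (a b : V) (t : ℝ) : ln x (fun v => -y v) a b t = -ln x y a b t := by
  unfold ln; rw [sl_neg]; ring

lemma ccv_le {L : List V} (h1 : Inc x L) (h2 : Ccv x y L) {e e' : V × V} (he : e ∈ edges L)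
    (he' : e' ∈ edges L) (h3 : x e'.1 ≤ t) (h4 : t ≤ x e'.2) :
    ln x y e'.1 e'.2 t ≤ ln x y e.1 e.2 t := by
  have h5 : Cvx x (fun v => -y v) L :=
    Tri.imp h2 fun a b c _ _ h => by rw [sl_neg, sl_neg]; linarith
  have := cvx_le h1 h5 he he' h3 h4
  rw [ln_neg, ln_neg] at this
  linarith

lemma cvx_le_pf {L : List V} (h1 : Inc x L) (h2 : Cvx x y L) {e : V × V} (he : e ∈ edges L)
    (ht : t ∈ dom x L) : ln x y e.1 e.2 t ≤ pf x y L t := by
  obtain ⟨e', he', h3, h4⟩ := ht
  rw [pf_eq h1 he' h3 h4]; exact cvx_le h1 h2 he he' h3 h4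

lemma pf_le_ccv {L : List V} (h1 : Inc x L) (h2 : Ccv x y L) {e : V × V} (he : e ∈ edges L)
    (ht : t ∈ dom x L) : pf x y L t ≤ ln x y e.1 e.2 t := by
  obtain ⟨e', he', h3, h4⟩ := ht
  rw [pf_eq h1 he' h3 h4]; exact ccv_le h1 h2 he he' h3 h4

lemma pf_start {M : List V} (h : Inc x (a :: (M ++ [b]))) : pf x y (a :: (M ++ [b])) (x a) = y a := by
  obtain ⟨d, hd⟩ := first_edge M a b
  exact pf_left h hd

lemma pf_end {M : List V} (h : Inc x (a :: (M ++ [b]))) : pf x y (a :: (M ++ [b])) (x b) = y b := by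
  obtain ⟨d, hd⟩ := final_edge M a b
  exact pf_right h hd

lemma Face.pf_lt {M Q : List V} (hf : Face x y a M Q b) (h1 : x a < t) (h2 : t < x b) :
    pf x y (a :: (M ++ [b])) t < pf x y (a :: (Q ++ [b])) t := by
  have hab : x a ≤ x b := (h1.trans h2).le
  obtain ⟨e, he, h3, h4⟩ := cover (x := x) M a h1.le h2.le
  obtain ⟨e', he', h5, h6⟩ := cover (x := x) Q a h1.le h2.le
  rw [pf_eq hf.incM he h3 h4, pf_eq hf.incQ he' h5 h6]
  have a1 := cvx_le_pf hf.incM hf.cvx he (cover M a le_rfl hab)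
  have a2 := pf_le_ccv hf.incQ hf.ccv he' (cover Q a le_rfl hab)
  have b1 := cvx_le_pf hf.incM hf.cvx he (cover M a hab le_rfl)
  have b2 := pf_le_ccv hf.incQ hf.ccv he' (cover Q a hab le_rfl)
  rw [pf_start hf.incM] at a1
  rw [pf_start hf.incQ] at a2
  rw [pf_end hf.incM] at b1
  rw [pf_end hf.incQ] at b2
  obtain ⟨d, hd, -, hd2⟩ := fs_edge (x := x) (a := a) (c := b) M
  obtain ⟨d', hd', -, hd2'⟩ := fs_edge (x := x) (a := a) (c := b) Q
  have hlt := hf.lt
  rw [hd2, hd2'] at hlt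
  have had : x a < x d := hf.incM _ hd
  have had' : x a < x d' := hf.incQ _ hd'
  have hs : x a < min (x d) (x d') := lt_min had had'
  have c1 := cvx_le hf.incM hf.cvx he hd hs.le (min_le_left _ _)
  have c2 := ccv_le hf.incQ hf.ccv he' hd' hs.le (min_le_right _ _)
  have c3 : ln x y a d (min (x d) (x d')) < ln x y a d' (min (x d) (x d')) := by
    unfold ln; nlinarith
  simp only at c1 c2
  generalize min (x d) (x d') = s at *
  unfold ln at a1 a2 b1 b2 c1 c2 c3 ⊢
  rcases lt_trichotomy (sl x y e.1 e.2) (sl x y e'.1 e'.2) with h | h | h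
  · nlinarith
  · rw [h] at a1 b1 c1 ⊢; linarith
  · nlinarith


lemma edges_mid (A M B : List V) (a b : V) : edges (A ++ a :: (M ++ b :: B)) =
    (edges (A ++ [a]) ∪ edges (b :: B)) ∪ edges (a :: (M ++ [b])) := by
  rw [edges_split A, show a :: (M ++ b :: B) = (a :: M) ++ b :: B from rfl, edges_split (a :: M)]
  ext e; simp only [mem_union, List.cons_append]; tauto

lemma inc_mid {A M B : List V} : Inc x (A ++ a :: (M ++ b :: B)) ↔
    Inc x (A ++ [a]) ∧ Inc x (a :: (M ++ [b])) ∧ Inc x (b :: B) := by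
  rw [inc_split (P := A), show a :: (M ++ b :: B) = (a :: M) ++ b :: B from rfl,
    inc_split (P := a :: M)]; rfl

lemma pf_mid {A M B : List V} (h : Inc x (A ++ a :: (M ++ b :: B))) (h1 : x a ≤ t) (h2 : t ≤ x b) :
    pf x y (A ++ a :: (M ++ b :: B)) t = pf x y (a :: (M ++ [b])) t := by
  obtain ⟨e, he, h3, h4⟩ := cover (x := x) M a h1 h2
  rw [pf_eq (inc_mid.1 h).2.1 he h3 h4, pf_eq h (by rw [edges_mid]; exact Or.inr he) h3 h4]

lemma dom_mid {A M Q B : List V} (h : Inc x (a :: (M ++ [b])))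
    (ht : t ∈ dom x (A ++ a :: (M ++ b :: B))) : t ∈ dom x (A ++ a :: (Q ++ b :: B)) := by
  obtain ⟨e, he, h1, h2⟩ := ht
  rw [edges_mid] at he
  rcases he with he | he
  · exact ⟨e, by rw [edges_mid]; exact Or.inl he, h1, h2⟩
  · obtain ⟨e', he', h3⟩ := cover (x := x) Q a ((edge_range h he).1.trans h1)
      (h2.trans (edge_range h he).2)
    exact ⟨e', by rw [edges_mid]; exact Or.inr he', h3⟩

lemma pf_out {A M Q B : List V} (h : Inc x (A ++ a :: (M ++ b :: B)))
    (h' : Inc x (A ++ a :: (Q ++ b :: B))) (ht : t ∈ dom x (A ++ a :: (M ++ b :: B)))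
    (hn : ¬ (x a < t ∧ t < x b)) :
    pf x y (A ++ a :: (M ++ b :: B)) t = pf x y (A ++ a :: (Q ++ b :: B)) t := by
  obtain ⟨e, he, h1, h2⟩ := ht
  have he0 := he
  rw [edges_mid] at he
  rcases he with he | he
  · rw [pf_eq h he0 h1 h2, pf_eq h' (by rw [edges_mid]; exact Or.inl he) h1 h2]
  · have hM := (inc_mid.1 h).2.1
    have hQ := (inc_mid.1 h').2.1
    have h3 := (edge_range hM he).1.trans h1
    have h4 := h2.trans (edge_range hM he).2
    rw [pf_mid h h3 h4, pf_mid h' h3 h4]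
    rcases h3.eq_or_lt with h5 | h5
    · rw [← h5, pf_start hM, pf_start hQ]
    · rcases h4.eq_or_lt with h6 | h6
      · rw [h6, pf_end hM, pf_end hQ]
      · exact absurd ⟨h5, h6⟩ hn

lemma pf_in {A M Q B : List V} (hf : Face x y a M Q b) (h : Inc x (A ++ a :: (M ++ b :: B)))
    (h' : Inc x (A ++ a :: (Q ++ b :: B))) (h1 : x a < t) (h2 : t < x b) :
    pf x y (A ++ a :: (M ++ b :: B)) t < pf x y (A ++ a :: (Q ++ b :: B)) t := by
  rw [pf_mid h h1.le h2.le, pf_mid h' h1.le h2.le]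
  exact hf.pf_lt h1 h2

lemma pf_step {A M Q B : List V} (hf : Face x y a M Q b) (h : Inc x (A ++ a :: (M ++ b :: B)))
    (h' : Inc x (A ++ a :: (Q ++ b :: B))) (ht : t ∈ dom x (A ++ a :: (M ++ b :: B))) :
    pf x y (A ++ a :: (M ++ b :: B)) t ≤ pf x y (A ++ a :: (Q ++ b :: B)) t := by
  by_cases hn : x a < t ∧ t < x b
  · exact (pf_in hf h h' hn.1 hn.2).le
  · exact (pf_out h h' ht hn).le

/-! ### cells of the plane -/

abbrev Pl := EuclideanSpace ℝ (Fin 2)

def segs (x y : V → ℝ) (EE : Set (V × V)) : Set Pl :=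
  {z | ∃ e ∈ EE, x e.1 ≤ z 0 ∧ z 0 ≤ x e.2 ∧ z 1 = ln x y e.1 e.2 (z 0)}

def oc (x y : V → ℝ) (a b : V) (L U : List V) : Set Pl :=
  {z | x a < z 0} ∩ {z | z 0 < x b} ∩ (⋂ e ∈ edges L, {z | ln x y e.1 e.2 (z 0) < z 1}) ∩
    ⋂ e ∈ edges U, {z | z 1 < ln x y e.1 e.2 (z 0)}

def cc (x y : V → ℝ) (a b : V) (L U : List V) : Set Pl :=
  {z | x a ≤ z 0} ∩ {z | z 0 ≤ x b} ∩ (⋂ e ∈ edges L, {z | ln x y e.1 e.2 (z 0) ≤ z 1}) ∩
    ⋂ e ∈ edges U, {z | z 1 ≤ ln x y e.1 e.2 (z 0)}

lemma oc_open (L U : List V) : IsOpen (oc x y a b L U) := by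
  refine IsOpen.inter (IsOpen.inter (IsOpen.inter ?_ ?_) ?_) ?_
  · exact isOpen_lt continuous_const (by fun_prop)
  · exact isOpen_lt (by fun_prop) continuous_const
  · exact (edges_finite L).isOpen_biInter fun e _ => isOpen_lt (by unfold ln; fun_prop) (by fun_prop)
  · exact (edges_finite U).isOpen_biInter fun e _ => isOpen_lt (by fun_prop) (by unfold ln; fun_prop)

lemma cc_closed (L U : List V) : IsClosed (cc x y a b L U) := by
  refine IsClosed.inter (IsClosed.inter (IsClosed.inter ?_ ?_) ?_) ?_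
  · exact isClosed_le continuous_const (by fun_prop)
  · exact isClosed_le (by fun_prop) continuous_const
  · exact isClosed_biInter fun e _ => isClosed_le (by unfold ln; fun_prop) (by fun_prop)
  · exact isClosed_biInter fun e _ => isClosed_le (by fun_prop) (by unfold ln; fun_prop)

lemma half_lt (α β γ : ℝ) : Convex ℝ {z : Pl | α * z 0 + β * z 1 < γ} :=
  convex_halfSpace_lt (f := fun z : Pl => α * z 0 + β * z 1)
    ⟨fun z w => by simp; ring, fun c z => by simp; ring⟩ γ

lemma half_le (α β γ : ℝ) : Convex ℝ {z : Pl | α * z 0 + β * z 1 ≤ γ} :=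
  convex_halfSpace_le (f := fun z : Pl => α * z 0 + β * z 1)
    ⟨fun z w => by simp; ring, fun c z => by simp; ring⟩ γ

lemma oc_convex (L U : List V) : Convex ℝ (oc x y a b L U) := by
  refine Convex.inter (Convex.inter (Convex.inter ?_ ?_) ?_) ?_
  · convert half_lt (-1) 0 (-x a) using 2; ext z; constructor <;> intro h <;> linarith
  · convert half_lt 1 0 (x b) using 2; ext z; constructor <;> intro h <;> linarith
  · refine convex_iInter₂ fun e _ => ?_
    convert half_lt (sl x y e.1 e.2) (-1) (sl x y e.1 e.2 * x e.1 - y e.1) using 2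
    ext z; unfold ln; constructor <;> intro h <;> linarith
  · refine convex_iInter₂ fun e _ => ?_
    convert half_lt (-sl x y e.1 e.2) 1 (y e.1 - sl x y e.1 e.2 * x e.1) using 2
    ext z; unfold ln; constructor <;> intro h <;> linarith

lemma cc_convex (L U : List V) : Convex ℝ (cc x y a b L U) := by
  refine Convex.inter (Convex.inter (Convex.inter ?_ ?_) ?_) ?_
  · convert half_le (-1) 0 (-x a) using 2; ext z; constructor <;> intro h <;> linarith
  · convert half_le 1 0 (x b) using 2; ext z; constructor <;> intro h <;> linarith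
  · refine convex_iInter₂ fun e _ => ?_
    convert half_le (sl x y e.1 e.2) (-1) (sl x y e.1 e.2 * x e.1 - y e.1) using 2
    ext z; unfold ln; constructor <;> intro h <;> linarith
  · refine convex_iInter₂ fun e _ => ?_
    convert half_le (-sl x y e.1 e.2) 1 (y e.1 - sl x y e.1 e.2 * x e.1) using 2
    ext z; unfold ln; constructor <;> intro h <;> linarith

lemma oc_sub_cc (L U : List V) : oc x y a b L U ⊆ cc x y a b L U := by
  intro z hz
  simp only [oc, cc, mem_inter_iff, mem_ofPred_eq, mem_iInter] at hz ⊢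
  exact ⟨⟨⟨hz.1.1.1.le, hz.1.1.2.le⟩, fun e he => (hz.1.2 e he).le⟩, fun e he => (hz.2 e he).le⟩

lemma mem_oc {M Q : List V} (i1 : Inc x (a :: (M ++ [b]))) (i2 : Inc x (a :: (Q ++ [b])))
    (c1 : Cvx x y (a :: (M ++ [b]))) (c2 : Ccv x y (a :: (Q ++ [b]))) {z : Pl} :
    z ∈ oc x y a b (a :: (M ++ [b])) (a :: (Q ++ [b])) ↔ x a < z 0 ∧ z 0 < x b ∧
      pf x y (a :: (M ++ [b])) (z 0) < z 1 ∧ z 1 < pf x y (a :: (Q ++ [b])) (z 0) := by
  simp only [oc, mem_inter_iff, mem_ofPred_eq, mem_iInter]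
  constructor
  · rintro ⟨⟨⟨h1, h2⟩, h3⟩, h4⟩
    obtain ⟨e, he, h5, h6⟩ := cover (x := x) M a h1.le h2.le
    obtain ⟨e', he', h7, h8⟩ := cover (x := x) Q a h1.le h2.le
    rw [pf_eq i1 he h5 h6, pf_eq i2 he' h7 h8]
    exact ⟨h1, h2, h3 e he, h4 e' he'⟩
  · rintro ⟨h1, h2, h3, h4⟩
    exact ⟨⟨⟨h1, h2⟩, fun e he => (cvx_le_pf i1 c1 he (cover M a h1.le h2.le)).trans_lt h3⟩,
      fun e he => h4.trans_le (pf_le_ccv i2 c2 he (cover Q a h1.le h2.le))⟩

lemma mem_cc {M Q : List V} (i1 : Inc x (a :: (M ++ [b]))) (i2 : Inc x (a :: (Q ++ [b])))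
    (c1 : Cvx x y (a :: (M ++ [b]))) (c2 : Ccv x y (a :: (Q ++ [b]))) {z : Pl} :
    z ∈ cc x y a b (a :: (M ++ [b])) (a :: (Q ++ [b])) ↔ x a ≤ z 0 ∧ z 0 ≤ x b ∧
      pf x y (a :: (M ++ [b])) (z 0) ≤ z 1 ∧ z 1 ≤ pf x y (a :: (Q ++ [b])) (z 0) := by
  simp only [cc, mem_inter_iff, mem_ofPred_eq, mem_iInter]
  constructor
  · rintro ⟨⟨⟨h1, h2⟩, h3⟩, h4⟩
    obtain ⟨e, he, h5, h6⟩ := cover (x := x) M a h1 h2
    obtain ⟨e', he', h7, h8⟩ := cover (x := x) Q a h1 h2
    rw [pf_eq i1 he h5 h6, pf_eq i2 he' h7 h8]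
    exact ⟨h1, h2, h3 e he, h4 e' he'⟩
  · rintro ⟨h1, h2, h3, h4⟩
    exact ⟨⟨⟨h1, h2⟩, fun e he => (cvx_le_pf i1 c1 he (cover M a h1 h2)).trans h3⟩,
      fun e he => h4.trans (pf_le_ccv i2 c2 he (cover Q a h1 h2))⟩

lemma box_bounded (C : ℝ) : Bornology.IsBounded {z : Pl | |z 0| ≤ C ∧ |z 1| ≤ C} := by
  refine (Metric.isBounded_closedBall (x := (0 : Pl)) (r := 2 * C)).subset ?_
  rintro z ⟨h0, h1⟩
  rw [mem_closedBall_zero_iff, EuclideanSpace.norm_eq, Fin.sum_univ_two, Real.norm_eq_abs,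
    Real.norm_eq_abs]
  have a0 := abs_nonneg (z 0)
  have a1 := abs_nonneg (z 1)
  rw [Real.sqrt_le_left (by linarith)]
  nlinarith

lemma ln_bound (x y : V → ℝ) (a d : V) {t β : ℝ} (h1 : x a ≤ t) (h2 : t ≤ β) :
    |ln x y a d t| ≤ |y a| + |sl x y a d| * (β - x a) := by
  unfold ln
  refine (abs_add_le _ _).trans ?_
  rw [abs_mul, abs_of_nonneg (by linarith : 0 ≤ t - x a)]
  have := abs_nonneg (sl x y a d)
  nlinarith

lemma cc_bounded (M Q : List V) :
    Bornology.IsBounded (cc x y a b (a :: (M ++ [b])) (a :: (Q ++ [b]))) := by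
  obtain ⟨d, hd⟩ := first_edge M a b
  obtain ⟨d', hd'⟩ := first_edge Q a b
  refine (box_bounded (|x a| + |x b| + (|y a| + |sl x y a d| * |x b - x a|) +
    (|y a| + |sl x y a d'| * |x b - x a|))).subset ?_
  intro z hz
  simp only [cc, mem_inter_iff, mem_ofPred_eq, mem_iInter] at hz ⊢
  obtain ⟨⟨⟨h1, h2⟩, h3⟩, h4⟩ := hz
  have b1 := ln_bound x y a d h1 h2
  have b2 := ln_bound x y a d' h1 h2
  have h5 := h3 _ hd
  have h6 := h4 _ hd'
  simp only at h5 h6
  rw [abs_of_nonneg (by linarith : 0 ≤ x b - x a)]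
  have a1 := abs_nonneg (ln x y a d (z 0))
  have a2 := abs_nonneg (ln x y a d' (z 0))
  have a3 := neg_abs_le (x a)
  have a4 := le_abs_self (x b)
  have a5 := abs_nonneg (x a)
  have a6 := abs_nonneg (x b)
  have a7 := neg_abs_le (ln x y a d (z 0))
  have a8 := le_abs_self (ln x y a d' (z 0))
  constructor <;> rw [abs_le] <;> constructor <;> linarith

lemma on_segs {L : List V} (h : Inc x L) {z : Pl} (ht : z 0 ∈ dom x L) (hz : z 1 = pf x y L (z 0))
    {EE : Set (V × V)} (hE : edges L ⊆ EE) : z ∈ segs x y EE := by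
  obtain ⟨e, he, h1, h2⟩ := ht
  exact ⟨e, hE he, h1, h2, by rw [hz, pf_eq h he h1 h2]⟩

lemma cc_cases {M Q : List V} (i1 : Inc x (a :: (M ++ [b]))) (i2 : Inc x (a :: (Q ++ [b])))
    (c1 : Cvx x y (a :: (M ++ [b]))) (c2 : Ccv x y (a :: (Q ++ [b]))) {EE : Set (V × V)}
    (e1 : edges (a :: (M ++ [b])) ⊆ EE) (e2 : edges (a :: (Q ++ [b])) ⊆ EE) {z : Pl}
    (hz : z ∈ cc x y a b (a :: (M ++ [b])) (a :: (Q ++ [b]))) :
    z ∈ oc x y a b (a :: (M ++ [b])) (a :: (Q ++ [b])) ∨ z ∈ segs x y EE := by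
  obtain ⟨h1, h2, h3, h4⟩ := (mem_cc i1 i2 c1 c2).1 hz
  rcases h3.eq_or_lt with h3 | h3
  · exact Or.inr (on_segs i1 (cover M a h1 h2) h3.symm e1)
  rcases h4.eq_or_lt with h4 | h4
  · exact Or.inr (on_segs i2 (cover Q a h1 h2) h4 e2)
  refine Or.inl ((mem_oc i1 i2 c1 c2).2 ⟨?_, ?_, h3, h4⟩)
  · refine h1.lt_of_ne fun h => ?_
    rw [← h, pf_start i1] at h3
    rw [← h, pf_start i2] at h4
    linarith
  · refine h2.lt_of_ne fun h => ?_
    rw [h, pf_end i1] at h3
    rw [h, pf_end i2] at h4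
    linarith

/-! ### the invariant of a shelling -/

structure Inv (x y : V → ℝ) (P : List V) (E : Set (V × V)) (P' : List V) : Prop where
  inc : Inc x P'
  dm : ∀ t, t ∈ dom x P' ↔ t ∈ dom x P
  s2 : ∀ e ∈ E ∪ edges P, x e.1 < x e.2 ∧ ∀ t, x e.1 ≤ t → t ≤ x e.2 →
    t ∈ dom x P ∧ pf x y P t ≤ ln x y e.1 e.2 t ∧ ln x y e.1 e.2 t ≤ pf x y P' t
  s3 : edges P' ⊆ E ∪ edges P
  s4 : ∀ e ∈ E ∪ edges P, ∀ e' ∈ E ∪ edges P, ∀ t, x e.1 < t → t < x e.2 → x e'.1 ≤ t →
    t ≤ x e'.2 → ln x y e.1 e.2 t = ln x y e'.1 e'.2 t → e = e'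
  s5 : ∀ z : Pl, z 0 ∈ dom x P → pf x y P (z 0) < z 1 → z 1 < pf x y P' (z 0) →
    z ∉ segs x y (E ∪ edges P) → ∃ U : Set Pl, z ∈ U ∧ IsOpen U ∧ Convex ℝ U ∧
      Bornology.IsBounded U ∧ U ⊆ (segs x y (E ∪ edges P))ᶜ ∧
      closure U ⊆ U ∪ segs x y (E ∪ edges P) ∧
      ∀ w ∈ U, w 0 ∈ dom x P ∧ pf x y P (w 0) < w 1

lemma Inv.le {P P' : List V} {E : Set (V × V)} (h : Inv x y P E P') (ht : t ∈ dom x P) :
    pf x y P t ≤ pf x y P' t := by
  obtain ⟨e, he, h1, h2⟩ := ht
  obtain ⟨-, h3, h4⟩ := (h.s2 e (Or.inr he)).2 t h1 h2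
  exact h3.trans h4

lemma segs_mono {E E' : Set (V × V)} (h : E ⊆ E') : segs x y E ⊆ segs x y E' := by
  rintro z ⟨e, he, h1⟩; exact ⟨e, h he, h1⟩

lemma Shell.inv {P P' : List V} {E : Set (V × V)} (hs : Shell x y P E P') (hP : Inc x P) :
    Inv x y P E P' := by
  induction hs with
  | refl P =>
    refine ⟨hP, fun _ => Iff.rfl, ?_, subset_union_right, ?_, ?_⟩
    · intro e he
      rw [empty_union] at he
      exact ⟨hP e he, fun t h1 h2 => ⟨⟨e, he, h1, h2⟩, (pf_eq hP he h1 h2).le,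
        (pf_eq hP he h1 h2).ge⟩⟩
    · intro e he e' he' t h1 h2 h3 h4 _
      rw [empty_union] at he he'
      exact edge_unique hP he he' h1 h2 h3 h4
    · intro z _ h1 h2 _
      exact absurd (h1.trans h2) (lt_irrefl _)
  | step A B a b M Q E P' hf _ ih =>
    have hP1 : Inc x (A ++ a :: (Q ++ b :: B)) :=
      inc_mid.2 ⟨(inc_mid.1 hP).1, hf.incQ, (inc_mid.1 hP).2.2⟩
    have ih := ih hP1
    have hEE : E ∪ edges (a :: (Q ++ [b])) ∪ edges (A ++ a :: (M ++ b :: B)) =
        (E ∪ edges (A ++ a :: (Q ++ b :: B))) ∪ edges (a :: (M ++ [b])) := by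
      rw [edges_mid, edges_mid]; ext e; simp only [mem_union]; tauto
    have hLo : edges (a :: (M ++ [b])) ⊆ edges (A ++ a :: (M ++ b :: B)) := by
      rw [edges_mid]; exact subset_union_right
    have hUp : edges (a :: (Q ++ [b])) ⊆ edges (A ++ a :: (Q ++ b :: B)) := by
      rw [edges_mid]; exact subset_union_right
    have d1 : ∀ {t}, t ∈ dom x (A ++ a :: (Q ++ b :: B)) → t ∈ dom x (A ++ a :: (M ++ b :: B)) :=
      fun h => dom_mid hf.incQ h
    have d2 : ∀ {t}, t ∈ dom x (A ++ a :: (M ++ b :: B)) → t ∈ dom x (A ++ a :: (Q ++ b :: B)) :=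
      fun h => dom_mid hf.incM h
    refine ⟨ih.inc, fun t => (ih.dm t).trans ⟨d1, d2⟩, ?_, ?_, ?_, ?_⟩
    · intro e he
      rw [hEE] at he
      rcases he with he | he
      · refine ⟨(ih.s2 e he).1, fun t h1 h2 => ?_⟩
        obtain ⟨h3, h4, h5⟩ := (ih.s2 e he).2 t h1 h2
        exact ⟨d1 h3, (pf_step hf hP hP1 (d1 h3)).trans h4, h5⟩
      · refine ⟨hf.incM e he, fun t h1 h2 => ?_⟩
        have h3 : t ∈ dom x (A ++ a :: (M ++ b :: B)) := ⟨e, hLo he, h1, h2⟩
        have h4 := pf_eq (y := y) hP (hLo he) h1 h2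
        exact ⟨h3, h4.le, h4.ge.trans ((pf_step hf hP hP1 h3).trans (ih.le (d2 h3)))⟩
    · rw [hEE]; exact ih.s3.trans subset_union_left
    · intro e he e' he' t h1 h2 h3 h4 h5
      rw [hEE] at he he'
      rcases he with he | he
      · rcases he' with he' | he'
        · exact ih.s4 e he e' he' t h1 h2 h3 h4 h5
        · exfalso
          have h6 := pf_eq (y := y) hP (hLo he') h3 h4
          have h7 := ((ih.s2 e he).2 t h1.le h2.le).2.1
          have h8 := (edge_range hf.incM he').1.trans h3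
          have h9 := h4.trans (edge_range hf.incM he').2
          rcases h8.eq_or_lt with h8 | h8'
          · obtain ⟨d, hd⟩ := first_edge Q a b
            have := ih.s4 e he (a, d) (Or.inr (hUp hd)) t h1 h2 h8.le
              (by rw [← h8]; exact (hf.incQ _ hd).le)
              (by rw [h5, ← h6, pf_mid hP h8.le h9, ← h8, pf_start hf.incM, ln_left])
            rw [this] at h1
            exact absurd h8 h1.ne
          · rcases h9.eq_or_lt with h9 | h9'
            · obtain ⟨d, hd⟩ := final_edge Q a b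
              have := ih.s4 e he (d, b) (Or.inr (hUp hd)) t h1 h2
                (by rw [h9]; exact (hf.incQ _ hd).le) h9.le
                (by rw [h5, ← h6, pf_mid hP h8 h9.le, h9, pf_end hf.incM,
                  ln_right (hf.incQ _ hd)])
              rw [this] at h2
              exact absurd h9 h2.ne
            · have := pf_in hf hP hP1 h8' h9'
              linarith
      · rcases he' with he' | he'
        · exfalso
          have h6 := pf_eq (y := y) hP (hLo he) h1.le h2.le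
          have h7 := ((ih.s2 e' he').2 t h3 h4).2.1
          have := pf_in hf hP hP1 ((edge_range hf.incM he).1.trans_lt h1)
            (h2.trans_le (edge_range hf.incM he).2)
          linarith
        · exact edge_unique hf.incM he he' h1 h2 h3 h4
    · intro z h1 h2 h3 h4
      rw [hEE] at h4 ⊢
      rcases lt_trichotomy (pf x y (A ++ a :: (Q ++ b :: B)) (z 0)) (z 1) with h5 | h5 | h5
      · obtain ⟨U, u1, u2, u3, u4, u5, u6, u7⟩ := ih.s5 z (d2 h1) h5 h3
          fun h => h4 (segs_mono subset_union_left h)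
        refine ⟨U, u1, u2, u3, u4, ?_, u6.trans (union_subset_union_right _
          (segs_mono subset_union_left)), fun w hw => ⟨d1 (u7 w hw).1,
            (pf_step hf hP hP1 (d1 (u7 w hw).1)).trans_lt (u7 w hw).2⟩⟩
        rintro w hw ⟨e, he | he, h6, h7, h8⟩
        · exact u5 hw ⟨e, he, h6, h7, h8⟩
        · have h9 := pf_eq (y := y) hP (hLo he) h6 h7
          have := (pf_step hf hP hP1 (d1 (u7 w hw).1)).trans_lt (u7 w hw).2
          linarith
      · exact absurd (on_segs hP1 (d2 h1) h5.symm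
          (subset_union_right.trans subset_union_left)) h4
      · have h6 : x a < z 0 ∧ z 0 < x b := by
          by_contra hn
          have := pf_out (y := y) hP hP1 h1 hn
          linarith
        have hm := @mem_oc _ x y a b M Q hf.incM hf.incQ hf.cvx hf.ccv
        refine ⟨oc x y a b (a :: (M ++ [b])) (a :: (Q ++ [b])), hm.2 ⟨h6.1, h6.2, ?_, ?_⟩,
          oc_open _ _, oc_convex _ _, (cc_bounded M Q).subset (oc_sub_cc _ _), ?_, ?_, ?_⟩
        · rwa [pf_mid hP h6.1.le h6.2.le] at h2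
        · rwa [pf_mid hP1 h6.1.le h6.2.le] at h5
        · rintro w hw ⟨e, he, h7, h8, h9⟩
          obtain ⟨w1, w2, w3, w4⟩ := hm.1 hw
          rcases he with he | he
          · have := ((ih.s2 e he).2 _ h7 h8).2.1
            rw [pf_mid hP1 w1.le w2.le] at this
            linarith
          · rw [pf_eq hf.incM he h7 h8] at w3
            linarith
        · intro w hw
          exact cc_cases hf.incM hf.incQ hf.cvx hf.ccv subset_union_right
            (hUp.trans (subset_union_right.trans subset_union_left))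
            (closure_minimal (oc_sub_cc _ _) (cc_closed _ _) hw)
        · intro w hw
          obtain ⟨w1, w2, w3, w4⟩ := hm.1 hw
          obtain ⟨e, he, h7⟩ := cover (x := x) M a w1.le w2.le
          exact ⟨⟨e, hLo he, h7⟩, by rwa [pf_mid hP w1.le w2.le]⟩

end paths

/-! ### topology -/

lemma comp_eq {D U : Set Pl} {z : Pl} (hz : z ∈ U) (ho : IsOpen U) (hc : IsPreconnected U)
    (hD : U ⊆ Dᶜ) (hcl : closure U ⊆ U ∪ D) : connectedComponentIn Dᶜ z = U := by
  refine Subset.antisymm ?_ (hc.subset_connectedComponentIn hz hD)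
  refine isPreconnected_connectedComponentIn.subset_of_closure_inter_subset ho
    ⟨z, mem_connectedComponentIn (hD hz), hz⟩ ?_
  rintro w ⟨h1, h2⟩
  exact (hcl h1).resolve_right (connectedComponentIn_subset _ _ h2)

lemma compl_preconnected {R : Set Pl} (hc : Convex ℝ R) (hb : Bornology.IsBounded R)
    (hne : R.Nonempty) : IsPreconnected Rᶜ := by
  obtain ⟨z0, hz0⟩ := hne
  obtain ⟨r, hr, hR⟩ := hb.subset_ball_lt 0 z0
  have hrank : 1 < Module.rank ℝ Pl := by
    rw [← Module.finrank_eq_rank, finrank_euclideanSpace_fin]; norm_num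
  have hs := isConnected_sphere hrank z0 hr.le
  obtain ⟨s0, hs0⟩ := hs.nonempty
  have hsR : Metric.sphere z0 r ⊆ Rᶜ := fun w hw hwR => by
    have := hR hwR
    rw [Metric.mem_ball] at this
    rw [Metric.mem_sphere] at hw
    linarith
  refine isPreconnected_of_forall s0 fun z hz => ?_
  have hne : z - z0 ≠ 0 := fun h => hz (by rw [sub_eq_zero.1 h]; exact hz0)
  have hn : 0 < ‖z - z0‖ := norm_pos_iff.2 hne
  let f : ℝ → Pl := fun l => z0 + l • (z - z0)
  have hf : Continuous f := by fun_prop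
  have hd : ∀ l, 0 ≤ l → dist (f l) z0 = l * ‖z - z0‖ := fun l hl => by
    simp only [f, dist_eq_norm, add_sub_cancel_left, norm_smul, Real.norm_eq_abs, abs_of_nonneg hl]
  have hq : 0 < r / ‖z - z0‖ := div_pos hr hn
  refine ⟨f '' Ici (min 1 (r / ‖z - z0‖)) ∪ Metric.sphere z0 r, union_subset ?_ hsR, Or.inr hs0,
    Or.inl ⟨1, mem_Ici.2 (min_le_left _ _), by simp [f]⟩, ?_⟩
  · rintro _ ⟨l, hl, rfl⟩ hlR
    rcases min_le_iff.1 (mem_Ici.1 hl) with h | h
    · apply hz
      have hl0 : 0 < l := by linarith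
      have := hc hz0 hlR (a := 1 - 1 / l) (b := 1 / l)
        (by rw [sub_nonneg, div_le_one hl0]; exact h) (by positivity) (by ring)
      convert this using 1
      simp only [f, smul_add, smul_smul, one_div, inv_mul_cancel₀ hl0.ne', sub_smul, one_smul]
      abel
    · have := hR hlR
      rw [Metric.mem_ball, hd l (hq.le.trans h)] at this
      rw [div_le_iff₀ hn] at h
      linarith
  · refine IsPreconnected.union (f (r / ‖z - z0‖)) ⟨_, mem_Ici.2 (min_le_right _ _), rfl⟩ ?_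
      (isPreconnected_Ici.image f hf.continuousOn) hs.isPreconnected
    rw [Metric.mem_sphere, hd _ hq.le, div_mul_cancel₀ _ hn.ne']

lemma mem_seg {V : Type*} {x y : V → ℝ} {p : V → Pl} (hp0 : ∀ a, p a 0 = x a)
    (hp1 : ∀ a, p a 1 = y a) {a b : V} (h : x a < x b) {z : Pl} :
    z ∈ segment ℝ (p a) (p b) ↔ x a ≤ z 0 ∧ z 0 ≤ x b ∧ z 1 = ln x y a b (z 0) := by
  have hne : x b - x a ≠ 0 := by linarith
  constructor
  · rintro ⟨s, t, hs, ht, hst, rfl⟩
    simp only [PiLp.add_apply, PiLp.smul_apply, smul_eq_mul, hp0, hp1]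
    obtain rfl : s = 1 - t := by linarith
    refine ⟨by nlinarith, by nlinarith, ?_⟩
    unfold ln sl; field_simp; ring
  · rintro ⟨h1, h2, h3⟩
    refine ⟨(x b - z 0) / (x b - x a), (z 0 - x a) / (x b - x a),
      div_nonneg (by linarith) (by linarith), div_nonneg (by linarith) (by linarith),
      by field_simp; ring, ?_⟩
    ext i
    fin_cases i
    · simp only [Fin.zero_eta, PiLp.add_apply, PiLp.smul_apply, smul_eq_mul, hp0]
      field_simp; ring
    · simp only [Fin.mk_one, PiLp.add_apply, PiLp.smul_apply, smul_eq_mul, hp1, h3]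
      unfold ln sl; field_simp; ring

lemma pl_ext {z w : Pl} (h0 : z 0 = w 0) (h1 : z 1 = w 1) : z = w := by
  ext i
  fin_cases i
  · exact h0
  · exact h1

theorem shell_final {V : Type} [Fintype V] (G : SimpleGraph V) (x y : V → ℝ)
    (hx : Function.Injective x) (u w : V) (P Q : List V) (E : Set (V × V))
    (hsh : Shell x y (u :: (P ++ [w])) E (u :: (Q ++ [w])))
    (hinc : Inc x (u :: (P ++ [w]))) (hcvx : Cvx x y (u :: (P ++ [w])))
    (hccv : Ccv x y (u :: (Q ++ [w])))
    (hE : ∀ a b, G.Adj a b ↔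
      (a, b) ∈ E ∪ edges (u :: (P ++ [w])) ∨ (b, a) ∈ E ∪ edges (u :: (P ++ [w])))
    (hdeg : ∀ a, ∃ b, G.Adj a b)
    (p : V → EuclideanSpace ℝ (Fin 2)) (hp0 : ∀ a, p a 0 = x a) (hp1 : ∀ a, p a 1 = y a) :
    (∀ a b w : V, G.Adj a b → w ≠ a → w ≠ b → p w ∉ segment ℝ (p a) (p b)) ∧
    (∀ a b c d : V, G.Adj a b → G.Adj c d → s(a, b) ≠ s(c, d) →
      segment ℝ (p a) (p b) ∩ segment ℝ (p c) (p d) ⊆
        ({p a, p b} : Set (EuclideanSpace ℝ (Fin 2))) ∩ {p c, p d}) ∧
    (∀ z : EuclideanSpace ℝ (Fin 2),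
      z ∉ (⋃ a : V, ⋃ b : V, ⋃ (_ : G.Adj a b), segment ℝ (p a) (p b)) →
      (Bornology.IsBounded (connectedComponentIn
          (⋃ a : V, ⋃ b : V, ⋃ (_ : G.Adj a b), segment ℝ (p a) (p b))ᶜ z) →
        Convex ℝ (connectedComponentIn
          (⋃ a : V, ⋃ b : V, ⋃ (_ : G.Adj a b), segment ℝ (p a) (p b))ᶜ z)) ∧
      (¬ Bornology.IsBounded (connectedComponentIn
          (⋃ a : V, ⋃ b : V, ⋃ (_ : G.Adj a b), segment ℝ (p a) (p b))ᶜ z) →
        Convex ℝ (connectedComponentIn
          (⋃ a : V, ⋃ b : V, ⋃ (_ : G.Adj a b), segment ℝ (p a) (p b))ᶜ z)ᶜ)) := by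
  have inv := hsh.inv hinc
  set EE := E ∪ edges (u :: (P ++ [w])) with hEE
  have ends : ∀ a b c d, (a, b) ∈ EE → (c, d) ∈ EE → (a, b) ≠ (c, d) → ∀ z,
      z ∈ segment ℝ (p a) (p b) → z ∈ segment ℝ (p c) (p d) →
      z ∈ ({p a, p b} : Set (EuclideanSpace ℝ (Fin 2))) := by
    intro a b c d h1 h2 h3 z h4 h5
    have hab : x a < x b := (inv.s2 _ h1).1
    have hcd : x c < x d := (inv.s2 _ h2).1
    obtain ⟨a1, a2, a3⟩ := (mem_seg hp0 hp1 hab).1 h4
    obtain ⟨c1, c2, c3⟩ := (mem_seg hp0 hp1 hcd).1 h5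
    rcases a1.eq_or_lt with a1 | a1
    · left; exact pl_ext (by rw [hp0, a1]) (by rw [hp1, a3, ← a1, ln_left])
    rcases a2.eq_or_lt with a2 | a2
    · right; exact pl_ext (by rw [hp0, a2]) (by rw [hp1, a3, a2, ln_right hab])
    exact absurd (inv.s4 _ h1 _ h2 (z 0) a1 a2 c1 c2 (a3.symm.trans c3)) h3
  have ends2 : ∀ a b c d, G.Adj a b → G.Adj c d → s(a, b) ≠ s(c, d) → ∀ z,
      z ∈ segment ℝ (p a) (p b) → z ∈ segment ℝ (p c) (p d) →
      z ∈ ({p a, p b} : Set (EuclideanSpace ℝ (Fin 2))) := by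
    intro a b c d h1 h2 h3 z h4 h5
    rcases (hE a b).1 h1 with h1 | h1 <;> rcases (hE c d).1 h2 with h2 | h2
    · exact ends a b c d h1 h2 (fun h => h3 (by simp_all)) z h4 h5
    · exact ends a b d c h1 h2 (fun h => h3 (by simp_all)) z h4 (by rwa [segment_symm])
    · rw [pair_comm]
      exact ends b a c d h1 h2 (fun h => h3 (by simp_all)) z (by rwa [segment_symm]) h5
    · rw [pair_comm]
      exact ends b a d c h1 h2 (fun h => h3 (by simp_all)) z (by rwa [segment_symm])
        (by rwa [segment_symm])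
  have hD : (⋃ a : V, ⋃ b : V, ⋃ (_ : G.Adj a b), segment ℝ (p a) (p b)) = segs x y EE := by
    ext z
    simp only [mem_iUnion]
    constructor
    · rintro ⟨a, b, h1, h2⟩
      rcases (hE a b).1 h1 with h1 | h1
      · exact ⟨_, h1, (mem_seg hp0 hp1 (inv.s2 _ h1).1).1 h2⟩
      · exact ⟨_, h1, (mem_seg hp0 hp1 (inv.s2 _ h1).1).1 (by rwa [segment_symm])⟩
    · rintro ⟨e, he, h⟩
      exact ⟨e.1, e.2, (hE _ _).2 (Or.inl he), (mem_seg hp0 hp1 (inv.s2 _ he).1).2 h⟩
  refine ⟨?_, ?_, ?_⟩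
  · intro a b v h1 h2 h3 h4
    obtain ⟨c, hc⟩ := hdeg v
    have h5 := ends2 a b v c h1 hc (fun h => by
      rcases Sym2.eq_iff.1 h with h | h
      · exact h2 h.1.symm
      · exact h3 h.2.symm) _ h4 (left_mem_segment _ _ _)
    rcases h5 with h5 | h5
    · exact h2 (hx (by rw [← hp0, ← hp0, h5]))
    · exact h3 (hx (by rw [← hp0, ← hp0, mem_singleton_iff.1 h5]))
  · rintro a b c d h1 h2 h3 z ⟨h4, h5⟩
    exact ⟨ends2 a b c d h1 h2 h3 z h4 h5, ends2 c d a b h2 h1 h3.symm z h5 h4⟩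
  · intro z hz
    rw [hD] at hz ⊢
    have hm := @mem_cc _ x y u w P Q hinc inv.inc hcvx hccv
    have hmo := @mem_oc _ x y u w P Q hinc inv.inc hcvx hccv
    have hcs := @cc_cases _ x y u w P Q hinc inv.inc hcvx hccv EE subset_union_right inv.s3
    set R := cc x y u w (u :: (P ++ [w])) (u :: (Q ++ [w])) with hR
    by_cases hzR : z ∈ R
    · obtain ⟨h1, h2, h3, h4⟩ := hmo.1 ((hcs hzR).resolve_right hz)
      obtain ⟨U, u1, u2, u3, u4, u5, u6, -⟩ := inv.s5 z (cover P u h1.le h2.le) h3 h4 hz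
      rw [comp_eq u1 u2 u3.isPreconnected u5 u6]
      exact ⟨fun _ => u3, fun h => absurd u4 h⟩
    · have hDR : segs x y EE ⊆ R := by
        rintro v ⟨e, he, h1, h2, h3⟩
        obtain ⟨h4, h5, h6⟩ := (inv.s2 e he).2 _ h1 h2
        rw [mem_dom hinc] at h4
        exact hm.2 ⟨h4.1, h4.2, by rwa [h3], by rwa [h3]⟩
      have hne : R.Nonempty := by
        obtain ⟨d, hd⟩ := first_edge P u w
        refine ⟨p u, hDR ⟨(u, d), Or.inr hd, ?_, ?_, ?_⟩⟩
        · rw [hp0]
        · rw [hp0]; exact (hinc _ hd).le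
        · rw [hp0, hp1, ln_left]
      have hb : Bornology.IsBounded R := cc_bounded P Q
      have hcomp : connectedComponentIn (segs x y EE)ᶜ z = Rᶜ := by
        refine comp_eq hzR (cc_closed _ _).isOpen_compl (compl_preconnected (cc_convex _ _) hb hne)
          (compl_subset_compl.2 hDR) ?_
        intro v hv
        by_cases hvR : v ∈ R
        · refine Or.inr ((hcs hvR).resolve_left fun ho => ?_)
          rw [closure_compl] at hv
          exact hv (interior_maximal (oc_sub_cc _ _) (oc_open _ _) ho)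
        · exact Or.inl hvR
      rw [hcomp, compl_compl]
      refine ⟨fun h => ?_, fun _ => cc_convex _ _⟩
      exact absurd (by simpa using hb.union h) (NormedSpace.unbounded_univ ℝ Pl)

end Pool.Agent.MP_250189_co

end

-- part MP_250189_co.Parity
section

/-! A graph with a noncrossing straight-line drawing has no `K_{3,3}` and no `K_5` minor.
The proof is the mod-two crossing count of van Kampen, Hanani and Tutte, read along a generic
vertical direction. -/

namespace Pool.Agent.MP_250189_co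

open Set

lemma k33_alg (W : Fin 6 → Fin 6 → Fin 6 → ZMod 2) (t : Fin 6 → Fin 6 → ZMod 2)
    (ht : ∀ i k, i ≠ k → t i k + t k i = 1)
    (h : ∀ i j k l, (i.val < 3 ∧ 3 ≤ j.val) → (k.val < 3 ∧ 3 ≤ l.val) → i ≠ k → i ≠ l → j ≠ k → j ≠ l →
      W k l i + W k l j + W i j k + W i j l + t i k + t j k + t i l + t j l = 0) : False := by
  have two : (2 : ZMod 2) = 0 := rfl
  have e0 := h 0 3 1 4 (by decide) (by decide) (by decide) (by decide) (by decide) (by decide)
  have e1 := h 0 3 1 5 (by decide) (by decide) (by decide) (by decide) (by decide) (by decide)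
  have e2 := h 0 3 2 4 (by decide) (by decide) (by decide) (by decide) (by decide) (by decide)
  have e3 := h 0 3 2 5 (by decide) (by decide) (by decide) (by decide) (by decide) (by decide)
  have e4 := h 0 4 1 3 (by decide) (by decide) (by decide) (by decide) (by decide) (by decide)
  have e5 := h 0 4 1 5 (by decide) (by decide) (by decide) (by decide) (by decide) (by decide)
  have e6 := h 0 4 2 3 (by decide) (by decide) (by decide) (by decide) (by decide) (by decide)
  have e7 := h 0 4 2 5 (by decide) (by decide) (by decide) (by decide) (by decide) (by decide)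
  have e8 := h 0 5 1 3 (by decide) (by decide) (by decide) (by decide) (by decide) (by decide)
  have e9 := h 0 5 1 4 (by decide) (by decide) (by decide) (by decide) (by decide) (by decide)
  have e10 := h 0 5 2 3 (by decide) (by decide) (by decide) (by decide) (by decide) (by decide)
  have e11 := h 0 5 2 4 (by decide) (by decide) (by decide) (by decide) (by decide) (by decide)
  have e12 := h 1 3 2 4 (by decide) (by decide) (by decide) (by decide) (by decide) (by decide)
  have e13 := h 1 3 2 5 (by decide) (by decide) (by decide) (by decide) (by decide) (by decide)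
  have e14 := h 1 4 2 3 (by decide) (by decide) (by decide) (by decide) (by decide) (by decide)
  have e15 := h 1 4 2 5 (by decide) (by decide) (by decide) (by decide) (by decide) (by decide)
  have e16 := h 1 5 2 3 (by decide) (by decide) (by decide) (by decide) (by decide) (by decide)
  have e17 := h 1 5 2 4 (by decide) (by decide) (by decide) (by decide) (by decide) (by decide)
  have f0 := ht 3 4 (by decide)
  have f1 := ht 3 5 (by decide)
  have f2 := ht 4 5 (by decide)
  have : (1 : ZMod 2) = 0 := by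
    linear_combination e0 + e1 + e2 + e3 + e4 + e5 + e6 + e7 + e8 + e9 + e10 + e11 + e12 + e13 + e14 + e15 + e16 + e17 - (f0 + f1 + f2) - (1 + (1 * W 0 3 1 + 1 * W 0 3 2 + 1 * W 0 3 4 + 1 * W 0 3 5 + 1 * W 0 4 1 + 1 * W 0 4 2 + 1 * W 0 4 3 + 1 * W 0 4 5 + 1 * W 0 5 1 + 1 * W 0 5 2 + 1 * W 0 5 3 + 1 * W 0 5 4 + 1 * W 1 3 0 + 1 * W 1 3 2 + 1 * W 1 3 4 + 1 * W 1 3 5 + 1 * W 1 4 0 + 1 * W 1 4 2 + 1 * W 1 4 3 + 1 * W 1 4 5 + 1 * W 1 5 0 + 1 * W 1 5 2 + 1 * W 1 5 3 + 1 * W 1 5 4 + 1 * W 2 3 0 + 1 * W 2 3 1 + 1 * W 2 3 4 + 1 * W 2 3 5 + 1 * W 2 4 0 + 1 * W 2 4 1 + 1 * W 2 4 3 + 1 * W 2 4 5 + 1 * W 2 5 0 + 1 * W 2 5 1 + 1 * W 2 5 3 + 1 * W 2 5 4 + 3 * t 0 1 + 3 * t 0 2 + 2 * t 0 3 + 2 * t 0 4 + 2 * t 0 5 + 3 * t 1 2 + 1 * t 1 3 + 1 * t 1 4 + 1 * t 1 5 + 1 * t 3 1 + 2 * t 3 2 + 1 * t 3 4 + 1 * t 3 5 + 1 * t 4 1 + 2 * t 4 2 + 1 * t 4 3 + 1 * t 4 5 + 1 * t 5 1 + 2 * t 5 2 + 1 * t 5 3 + 1 * t 5 4)) * two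
  exact absurd this (by decide)

lemma k5_alg (W : Fin 5 → Fin 5 → Fin 5 → ZMod 2) (t : Fin 5 → Fin 5 → ZMod 2)
    (ht : ∀ i k, i ≠ k → t i k + t k i = 1)
    (h : ∀ i j k l, i ≠ j → k ≠ l → i ≠ k → i ≠ l → j ≠ k → j ≠ l →
      W k l i + W k l j + W i j k + W i j l + t i k + t j k + t i l + t j l = 0) : False := by
  have two : (2 : ZMod 2) = 0 := rfl
  have e0 := h 0 1 2 3 (by decide) (by decide) (by decide) (by decide) (by decide) (by decide)
  have e1 := h 0 1 2 4 (by decide) (by decide) (by decide) (by decide) (by decide) (by decide)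
  have e2 := h 0 1 3 4 (by decide) (by decide) (by decide) (by decide) (by decide) (by decide)
  have e3 := h 0 2 1 3 (by decide) (by decide) (by decide) (by decide) (by decide) (by decide)
  have e4 := h 0 2 1 4 (by decide) (by decide) (by decide) (by decide) (by decide) (by decide)
  have e5 := h 0 2 3 4 (by decide) (by decide) (by decide) (by decide) (by decide) (by decide)
  have e6 := h 0 3 1 2 (by decide) (by decide) (by decide) (by decide) (by decide) (by decide)
  have e7 := h 0 3 1 4 (by decide) (by decide) (by decide) (by decide) (by decide) (by decide)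
  have e8 := h 0 3 2 4 (by decide) (by decide) (by decide) (by decide) (by decide) (by decide)
  have e9 := h 0 4 1 2 (by decide) (by decide) (by decide) (by decide) (by decide) (by decide)
  have e10 := h 0 4 1 3 (by decide) (by decide) (by decide) (by decide) (by decide) (by decide)
  have e11 := h 0 4 2 3 (by decide) (by decide) (by decide) (by decide) (by decide) (by decide)
  have e12 := h 1 2 3 4 (by decide) (by decide) (by decide) (by decide) (by decide) (by decide)
  have e13 := h 1 3 2 4 (by decide) (by decide) (by decide) (by decide) (by decide) (by decide)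
  have e14 := h 1 4 2 3 (by decide) (by decide) (by decide) (by decide) (by decide) (by decide)
  have f0 := ht 2 3 (by decide)
  have f1 := ht 2 4 (by decide)
  have f2 := ht 3 4 (by decide)
  have : (1 : ZMod 2) = 0 := by
    linear_combination e0 + e1 + e2 + e3 + e4 + e5 + e6 + e7 + e8 + e9 + e10 + e11 + e12 + e13 + e14 - (f0 + f1 + f2) - (1 + (1 * W 0 1 2 + 1 * W 0 1 3 + 1 * W 0 1 4 + 1 * W 0 2 1 + 1 * W 0 2 3 + 1 * W 0 2 4 + 1 * W 0 3 1 + 1 * W 0 3 2 + 1 * W 0 3 4 + 1 * W 0 4 1 + 1 * W 0 4 2 + 1 * W 0 4 3 + 1 * W 1 2 0 + 1 * W 1 2 3 + 1 * W 1 2 4 + 1 * W 1 3 0 + 1 * W 1 3 2 + 1 * W 1 3 4 + 1 * W 1 4 0 + 1 * W 1 4 2 + 1 * W 1 4 3 + 1 * W 2 3 0 + 1 * W 2 3 1 + 1 * W 2 3 4 + 1 * W 2 4 0 + 1 * W 2 4 1 + 1 * W 2 4 3 + 1 * W 3 4 0 + 1 * W 3 4 1 + 1 * W 3 4 2 + 3 * t 0 1 + 3 * t 0 2 + 3 * t 0 3 + 3 * t 0 4 + 2 * t 1 2 + 2 * t 1 3 + 2 * t 1 4 + 1 * t 2 1 + 1 * t 2 3 + 1 * t 2 4 + 1 * t 3 1 + 1 * t 3 2 + 1 * t 3 4 + 1 * t 4 1 + 1 * t 4 2 + 1 * t 4 3)) * two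
  exact absurd this (by decide)

/-- height of the line through two points above the abscissa `x` -/
noncomputable def hgt (a1 a2 b1 b2 x : ℝ) : ℝ := a2 + (b2 - a2) * ((x - a1) / (b1 - a1))

lemma hgt_symm {a1 a2 b1 b2 x : ℝ} (h : a1 ≠ b1) : hgt a1 a2 b1 b2 x = hgt b1 b2 a1 a2 x := by
  have h1 : b1 - a1 ≠ 0 := sub_ne_zero.2 h.symm
  have h2 : a1 - b1 ≠ 0 := sub_ne_zero.2 h
  unfold hgt
  field_simp
  ring

lemma hgt_left {a1 a2 b1 b2 : ℝ} : hgt a1 a2 b1 b2 a1 = a2 := by simp [hgt]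

lemma hgt_right {a1 a2 b1 b2 : ℝ} (h : a1 ≠ b1) : hgt a1 a2 b1 b2 b1 = b2 := by
  rw [hgt_symm h, hgt_left]

lemma hgt_cont {a1 a2 b1 b2 : ℝ} : Continuous (hgt a1 a2 b1 b2) := by
  unfold hgt; fun_prop

lemma sign_const {f : ℝ → ℝ} (hf : Continuous f) {x y : ℝ} (hxy : x ≤ y)
    (h0 : ∀ z, x ≤ z → z ≤ y → f z ≠ 0) : (0 < f x ∧ 0 < f y) ∨ (f x < 0 ∧ f y < 0) := by
  have hx := h0 x le_rfl hxy
  have hy := h0 y hxy le_rfl
  rcases lt_or_gt_of_ne hx with h1 | h1 <;> rcases lt_or_gt_of_ne hy with h2 | h2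
  · exact Or.inr ⟨h1, h2⟩
  · obtain ⟨z, hz, hz0⟩ := intermediate_value_Icc hxy hf.continuousOn ⟨h1.le, h2.le⟩
    exact absurd hz0 (h0 z hz.1 hz.2)
  · obtain ⟨z, hz, hz0⟩ := intermediate_value_Icc' hxy hf.continuousOn ⟨h2.le, h1.le⟩
    exact absurd hz0 (h0 z hz.1 hz.2)
  · exact Or.inl ⟨h1, h2⟩

section
variable {V : Type*} (X Y : V → ℝ)

open Classical in
/-- `a` is to the left of `p` -/
noncomputable def lt2 (a p : V) : ZMod 2 := if X a < X p then 1 else 0

open Classical in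
/-- `p` lies vertically above the open segment from `a` to `b` -/
noncomputable def up (p a b : V) : ZMod 2 :=
  if min (X a) (X b) < X p ∧ X p < max (X a) (X b) ∧ hgt (X a) (Y a) (X b) (Y b) (X p) < Y p
  then 1 else 0

/-- the two segments have no common point -/
def Apart (a b c d : V) : Prop :=
  ∀ s t : ℝ, 0 ≤ s → s ≤ 1 → 0 ≤ t → t ≤ 1 →
    (1 - s) * X a + s * X b = (1 - t) * X c + t * X d →
    (1 - s) * Y a + s * Y b ≠ (1 - t) * Y c + t * Y d

variable {X Y}

lemma up_symm {p a b : V} (h : X a ≠ X b) : up X Y p a b = up X Y p b a := by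
  unfold up
  rw [min_comm, max_comm, hgt_symm h]

lemma Apart.swap_left {a b c d : V} (h : Apart X Y a b c d) : Apart X Y b a c d := by
  intro s t s0 s1 t0 t1 e1 e2
  exact h (1 - s) t (by linarith) (by linarith) t0 t1 (by linarith) (by linarith)

lemma Apart.swap_right {a b c d : V} (h : Apart X Y a b c d) : Apart X Y a b d c := by
  intro s t s0 s1 t0 t1 e1 e2
  exact h s (1 - t) s0 s1 (by linarith) (by linarith) (by linarith) (by linarith)

lemma Apart.hgt_ne {a b c d : V} (h : Apart X Y a b c d) (hab : X a < X b) (hcd : X c < X d)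
    {z : ℝ} (h1 : X a ≤ z) (h2 : z ≤ X b) (h3 : X c ≤ z) (h4 : z ≤ X d) :
    hgt (X a) (Y a) (X b) (Y b) z - hgt (X c) (Y c) (X d) (Y d) z ≠ 0 := by
  intro h0
  have p1 : 0 < X b - X a := sub_pos.2 hab
  have p2 : 0 < X d - X c := sub_pos.2 hcd
  refine h ((z - X a) / (X b - X a)) ((z - X c) / (X d - X c))
    (div_nonneg (by linarith) p1.le) ((div_le_one p1).2 (by linarith))
    (div_nonneg (by linarith) p2.le) ((div_le_one p2).2 (by linarith)) ?_ ?_
  · have e1 : (1 - (z - X a) / (X b - X a)) * X a + (z - X a) / (X b - X a) * X b = z := by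
      field_simp; ring
    have e2 : (1 - (z - X c) / (X d - X c)) * X c + (z - X c) / (X d - X c) * X d = z := by
      field_simp; ring
    rw [e1, e2]
  · unfold hgt at h0
    linarith

lemma cross_ord {a b c d : V} (h : Apart X Y a b c d) (hab : X a < X b) (hcd : X c < X d)
    (hac : X a ≠ X c) (had : X a ≠ X d) (hbc : X b ≠ X c) (hbd : X b ≠ X d) :
    up X Y a c d + up X Y b c d + up X Y c a b + up X Y d a b +
      lt2 X a c + lt2 X b c + lt2 X a d + lt2 X b d = 0 := by
  have hf : Continuous fun z => hgt (X a) (Y a) (X b) (Y b) z - hgt (X c) (Y c) (X d) (Y d) z :=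
    hgt_cont.sub hgt_cont
  have key : ∀ x y, x ≤ y → X a ≤ x → X c ≤ x → y ≤ X b → y ≤ X d →
      (0 < hgt (X a) (Y a) (X b) (Y b) x - hgt (X c) (Y c) (X d) (Y d) x ∧
        0 < hgt (X a) (Y a) (X b) (Y b) y - hgt (X c) (Y c) (X d) (Y d) y) ∨
      (hgt (X a) (Y a) (X b) (Y b) x - hgt (X c) (Y c) (X d) (Y d) x < 0 ∧
        hgt (X a) (Y a) (X b) (Y b) y - hgt (X c) (Y c) (X d) (Y d) y < 0) :=
    fun x y hxy h1 h2 h3 h4 => sign_const hf hxy fun z hz1 hz2 =>
      h.hgt_ne hab hcd (by linarith) (by linarith) (by linarith) (by linarith)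
  have ea : hgt (X a) (Y a) (X b) (Y b) (X a) = Y a := hgt_left
  have eb : hgt (X a) (Y a) (X b) (Y b) (X b) = Y b := hgt_right hab.ne
  have ec : hgt (X c) (Y c) (X d) (Y d) (X c) = Y c := hgt_left
  have ed : hgt (X c) (Y c) (X d) (Y d) (X d) = Y d := hgt_right hcd.ne
  unfold up lt2
  rw [min_eq_left hab.le, max_eq_right hab.le, min_eq_left hcd.le, max_eq_right hcd.le]
  rcases lt_or_gt_of_ne hac with h1 | h1
  · rcases lt_or_gt_of_ne hbc with h2 | h2
    · rw [if_neg (fun h => by linarith [h.1]), if_neg (fun h => by linarith [h.1]),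
        if_neg (fun h => by linarith [h.2.1]), if_neg (fun h => by linarith [h.2.1]),
        if_pos h1, if_pos h2, if_pos (by linarith), if_pos (by linarith)]
      decide
    · rcases lt_or_gt_of_ne hbd with h3 | h3
      · rcases key (X c) (X b) h2.le h1.le le_rfl le_rfl h3.le with ⟨k1, k2⟩ | ⟨k1, k2⟩
        · rw [if_neg (fun h => by linarith [h.1]), if_pos ⟨h2, h3, by linarith⟩,
            if_neg (fun h => by linarith [h.2.2]), if_neg (fun h => by linarith [h.2.1]),
            if_pos h1, if_neg (by linarith), if_pos (by linarith), if_pos h3]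
          decide
        · rw [if_neg (fun h => by linarith [h.1]), if_neg (fun h => by linarith [h.2.2]),
            if_pos ⟨h1, h2, by linarith⟩, if_neg (fun h => by linarith [h.2.1]),
            if_pos h1, if_neg (by linarith), if_pos (by linarith), if_pos h3]
          decide
      · rcases key (X c) (X d) hcd.le h1.le le_rfl h3.le le_rfl with ⟨k1, k2⟩ | ⟨k1, k2⟩
        · rw [if_neg (fun h => by linarith [h.1]), if_neg (fun h => by linarith [h.2.1]),
            if_neg (fun h => by linarith [h.2.2]), if_neg (fun h => by linarith [h.2.2]),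
            if_pos h1, if_neg (by linarith), if_pos (by linarith), if_neg (by linarith)]
          decide
        · rw [if_neg (fun h => by linarith [h.1]), if_neg (fun h => by linarith [h.2.1]),
            if_pos ⟨h1, h2, by linarith⟩, if_pos ⟨by linarith, h3, by linarith⟩,
            if_pos h1, if_neg (by linarith), if_pos (by linarith), if_neg (by linarith)]
          decide
  · rcases lt_or_gt_of_ne had with h2 | h2
    · rcases lt_or_gt_of_ne hbd with h3 | h3
      · rcases key (X a) (X b) hab.le le_rfl h1.le le_rfl h3.le with ⟨k1, k2⟩ | ⟨k1, k2⟩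
        · rw [if_pos ⟨h1, h2, by linarith⟩, if_pos ⟨by linarith, h3, by linarith⟩,
            if_neg (fun h => by linarith [h.1]), if_neg (fun h => by linarith [h.2.1]),
            if_neg (by linarith), if_neg (by linarith), if_pos h2, if_pos h3]
          decide
        · rw [if_neg (fun h => by linarith [h.2.2]), if_neg (fun h => by linarith [h.2.2]),
            if_neg (fun h => by linarith [h.1]), if_neg (fun h => by linarith [h.2.1]),
            if_neg (by linarith), if_neg (by linarith), if_pos h2, if_pos h3]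
          decide
      · rcases key (X a) (X d) h2.le le_rfl h1.le h3.le le_rfl with ⟨k1, k2⟩ | ⟨k1, k2⟩
        · rw [if_pos ⟨h1, h2, by linarith⟩, if_neg (fun h => by linarith [h.2.1]),
            if_neg (fun h => by linarith [h.1]), if_neg (fun h => by linarith [h.2.2]),
            if_neg (by linarith), if_neg (by linarith), if_pos h2, if_neg (by linarith)]
          decide
        · rw [if_neg (fun h => by linarith [h.2.2]), if_neg (fun h => by linarith [h.2.1]),
            if_neg (fun h => by linarith [h.1]), if_pos ⟨h2, h3, by linarith⟩,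
            if_neg (by linarith), if_neg (by linarith), if_pos h2, if_neg (by linarith)]
          decide
    · rw [if_neg (fun h => by linarith [h.2.1]), if_neg (fun h => by linarith [h.2.1]),
        if_neg (fun h => by linarith [h.1]), if_neg (fun h => by linarith [h.1]),
        if_neg (by linarith), if_neg (by linarith), if_neg (by linarith), if_neg (by linarith)]
      decide

lemma cross_zero {a b c d : V} (h : Apart X Y a b c d) (hab : X a ≠ X b) (hcd : X c ≠ X d)
    (hac : X a ≠ X c) (had : X a ≠ X d) (hbc : X b ≠ X c) (hbd : X b ≠ X d) :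
    up X Y a c d + up X Y b c d + up X Y c a b + up X Y d a b +
      lt2 X a c + lt2 X b c + lt2 X a d + lt2 X b d = 0 := by
  rcases lt_or_gt_of_ne hab with h1 | h1 <;> rcases lt_or_gt_of_ne hcd with h2 | h2
  · exact cross_ord h h1 h2 hac had hbc hbd
  · have := cross_ord h.swap_right h1 h2 had hac hbd hbc
    rw [up_symm (p := a) hcd, up_symm (p := b) hcd]
    linear_combination this
  · have := cross_ord h.swap_left h1 h2 hbc hbd hac had
    rw [up_symm (p := c) hab, up_symm (p := d) hab]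
    linear_combination this
  · have := cross_ord h.swap_left.swap_right h1 h2 hbd hbc had hac
    rw [up_symm (p := a) hcd, up_symm (p := b) hcd, up_symm (p := c) hab, up_symm (p := d) hab]
    linear_combination this

variable {G : SimpleGraph V}

/-- parity of the number of edges of a walk that pass below `p` -/
noncomputable def upW (X Y : V → ℝ) (p : V) : ∀ {a b : V}, G.Walk a b → ZMod 2
  | _, _, .nil => 0
  | a, _, .cons (v := c) _ w => up X Y p a c + upW X Y p w

lemma edge_walk (hX : Function.Injective X)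
    (hG : ∀ a b c d, G.Adj a b → G.Adj c d → a ≠ c → a ≠ d → b ≠ c → b ≠ d → Apart X Y a b c d)
    {a b : V} (hab : G.Adj a b) {t w : V} (Q : G.Walk t w) (ha : a ∉ Q.support)
    (hb : b ∉ Q.support) :
    upW X Y a Q + upW X Y b Q + up X Y t a b + up X Y w a b +
      lt2 X a t + lt2 X b t + lt2 X a w + lt2 X b w = 0 := by
  have two : (2 : ZMod 2) = 0 := rfl
  induction Q with
  | @nil u =>
    simp only [upW]
    linear_combination (up X Y u a b + lt2 X a u + lt2 X b u) * two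
  | @cons c d e hcd Q ih =>
    simp only [SimpleGraph.Walk.support_cons, List.mem_cons, not_or] at ha hb
    have had : a ≠ d := fun h => ha.2 (h ▸ Q.start_mem_support)
    have hbd : b ≠ d := fun h => hb.2 (h ▸ Q.start_mem_support)
    have k := cross_zero (hG a b c d hab hcd ha.1 had hb.1 hbd) (hX.ne hab.ne) (hX.ne hcd.ne)
      (hX.ne ha.1) (hX.ne had) (hX.ne hb.1) (hX.ne hbd)
    have ih' := ih ha.2 hb.2
    simp only [upW]
    linear_combination k + ih' - (up X Y d a b + lt2 X a d + lt2 X b d) * two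

lemma walk_walk (hX : Function.Injective X)
    (hG : ∀ a b c d, G.Adj a b → G.Adj c d → a ≠ c → a ≠ d → b ≠ c → b ≠ d → Apart X Y a b c d)
    {r s : V} (P : G.Walk r s) {t w : V} (Q : G.Walk t w)
    (hd : ∀ x ∈ P.support, x ∉ Q.support) :
    upW X Y r Q + upW X Y s Q + upW X Y t P + upW X Y w P +
      lt2 X r t + lt2 X s t + lt2 X r w + lt2 X s w = 0 := by
  have two : (2 : ZMod 2) = 0 := rfl
  induction P with
  | @nil u =>
    simp only [upW]
    linear_combination (upW X Y u Q + lt2 X u t + lt2 X u w) * two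
  | @cons a b e hab P ih =>
    have k := edge_walk hX hG hab Q (hd a (by simp)) (hd b (by simp))
    have ih' := ih fun x hx => hd x (by simp [hx])
    simp only [upW]
    linear_combination k + ih' - (upW X Y b Q + lt2 X b t + lt2 X b w) * two

lemma Reach.exists_walk {A : Set V} {a b : V} (h : Reach G A a b) (ha : a ∈ A) :
    ∃ P : G.Walk a b, ∀ x ∈ P.support, x ∈ A := by
  induction h using Relation.ReflTransGen.head_induction_on with
  | refl => exact ⟨.nil, by simpa using ha⟩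
  | @head p q h1 _ ih =>
    obtain ⟨P, hP⟩ := ih h1.2.2
    refine ⟨.cons h1.1 P, fun x hx => ?_⟩
    simp only [SimpleGraph.Walk.support_cons, List.mem_cons] at hx
    rcases hx with rfl | hx
    · exact ha
    · exact hP x hx

lemma model_eqs (hX : Function.Injective X)
    (hG : ∀ a b c d, G.Adj a b → G.Adj c d → a ≠ c → a ≠ d → b ≠ c → b ≠ d → Apart X Y a b c d)
    {ι : Type} {H : ι → ι → Prop} {B : ι → Set V} (hm : Model G H B)
    (hH : ∀ i, ∃ j, H i j ∨ H j i) :
    ∃ (W : ι → ι → ι → ZMod 2) (t : ι → ι → ZMod 2), (∀ i k, i ≠ k → t i k + t k i = 1) ∧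
      ∀ i j k l, H i j → H k l → i ≠ k → i ≠ l → j ≠ k → j ≠ l →
        W k l i + W k l j + W i j k + W i j l + t i k + t j k + t i l + t j l = 0 := by
  classical
  have hne : ∀ i, ∃ x, x ∈ B i := by
    intro i
    obtain ⟨j, h | h⟩ := hH i
    · obtain ⟨a, ha, -⟩ := hm.tch i j h; exact ⟨a, ha⟩
    · obtain ⟨a, -, b, hb, -⟩ := hm.tch j i h; exact ⟨b, hb⟩
  choose r hr using hne
  have hw : ∀ i j, H i j → ∃ P : G.Walk (r i) (r j), ∀ x ∈ P.support, x ∈ B i ∪ B j :=
    fun i j h => (((hm.conn i).union (hm.conn j) (hm.tch i j h)) (r i) (Or.inl (hr i)) (r j)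
      (Or.inr (hr j))).exists_walk (Or.inl (hr i))
  choose P hP using hw
  refine ⟨fun i j k => if h : H i j then upW X Y (r k) (P i j h) else 0,
    fun i k => lt2 X (r i) (r k), fun i k hik => ?_, fun i j k l hij hkl h1 h2 h3 h4 => ?_⟩
  · have hne : X (r i) ≠ X (r k) := hX.ne fun h =>
      Set.disjoint_left.1 (hm.disj i k hik) (hr i) (h ▸ hr k)
    show lt2 X (r i) (r k) + lt2 X (r k) (r i) = 1
    unfold lt2
    rcases lt_or_gt_of_ne hne with h | h
    · rw [if_pos h, if_neg h.le.not_gt]; decide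
    · rw [if_neg h.le.not_gt, if_pos h]; decide
  · simp only [dif_pos hij, dif_pos hkl]
    refine walk_walk hX hG (P i j hij) (P k l hkl) fun x hx hx' => ?_
    rcases hP i j hij x hx with a | a <;> rcases hP k l hkl x hx' with b | b
    · exact Set.disjoint_left.1 (hm.disj i k h1) a b
    · exact Set.disjoint_left.1 (hm.disj i l h2) a b
    · exact Set.disjoint_left.1 (hm.disj j k h3) a b
    · exact Set.disjoint_left.1 (hm.disj j l h4) a b

end

lemma exists_shear {V : Type} [Fintype V] (q : V → EuclideanSpace ℝ (Fin 2))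
    (hinj : Function.Injective q) :
    ∃ m : ℝ, Function.Injective fun v => q v 0 + m * q v 1 := by
  have hfin : (⋃ p : V × V, {m : ℝ | p.1 ≠ p.2 ∧ q p.1 0 + m * q p.1 1 = q p.2 0 + m * q p.2 1}).Finite := by
    refine Set.finite_iUnion fun p => Set.Subsingleton.finite ?_
    rintro m ⟨hp, hm⟩ m' ⟨-, hm'⟩
    by_contra hne
    have h1 : q p.1 1 = q p.2 1 := by
      have : (m - m') * (q p.1 1 - q p.2 1) = 0 := by linarith
      rcases mul_eq_zero.1 this with h | h
      · exact absurd (sub_eq_zero.1 h) hne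
      · exact sub_eq_zero.1 h
    have h0 : q p.1 0 = q p.2 0 := by rw [h1] at hm; linarith
    apply hp
    apply hinj
    ext i
    fin_cases i
    · exact h0
    · exact h1
  obtain ⟨m, hm⟩ := hfin.exists_notMem
  refine ⟨m, fun v w hvw => ?_⟩
  by_contra hne
  exact hm (Set.mem_iUnion.2 ⟨(v, w), hne, hvw⟩)

theorem noK_of_drawing {V : Type} [Fintype V] (G : SimpleGraph V)
    (q : V → EuclideanSpace ℝ (Fin 2)) (hinj : Function.Injective q)
    (hx : ∀ a b c d : V, G.Adj a b → G.Adj c d → s(a, b) ≠ s(c, d) →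
        segment ℝ (q a) (q b) ∩ segment ℝ (q c) (q d) ⊆
          ({q a, q b} : Set (EuclideanSpace ℝ (Fin 2))) ∩ {q c, q d}) : NoK G := by
  obtain ⟨m, hm⟩ := exists_shear q hinj
  have hG : ∀ a b c d, G.Adj a b → G.Adj c d → a ≠ c → a ≠ d → b ≠ c → b ≠ d →
      Apart (fun v => q v 0 + m * q v 1) (fun v => q v 1) a b c d := by
    intro a b c d hab hcd h1 h2 h3 h4 s t s0 s1 t0 t1 e1 e2
    have hne : s(a, b) ≠ s(c, d) := by
      intro h
      rcases Sym2.eq_iff.1 h with h | h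
      · exact h1 h.1
      · exact h2 h.1
    have hz : (1 - s) • q a + s • q b = (1 - t) • q c + t • q d := by
      ext i
      fin_cases i
      · simp only [Fin.zero_eta, PiLp.add_apply, PiLp.smul_apply, smul_eq_mul]
        linear_combination e1 - m * e2
      · simp only [Fin.mk_one, PiLp.add_apply, PiLp.smul_apply, smul_eq_mul]
        exact e2
    have hin : (1 - s) • q a + s • q b ∈ segment ℝ (q a) (q b) ∩ segment ℝ (q c) (q d) :=
      ⟨⟨1 - s, s, by linarith, s0, by ring, rfl⟩, ⟨1 - t, t, by linarith, t0, by ring, hz.symm⟩⟩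
    have hmem := hx a b c d hab hcd hne hin
    rcases hmem with ⟨p1 | p1, p2 | p2⟩
    · exact h1 (hinj (p1.symm.trans p2))
    · exact h2 (hinj (p1.symm.trans p2))
    · exact h3 (hinj (p1.symm.trans p2))
    · exact h4 (hinj (p1.symm.trans p2))
  refine ⟨fun B hB => ?_, fun B hB => ?_⟩
  · obtain ⟨W, t, ht, h⟩ := model_eqs hm hG hB (by decide)
    exact k33_alg W t ht h
  · obtain ⟨W, t, ht, h⟩ := model_eqs hm hG hB (by decide)
    exact k5_alg W t ht h

end Pool.Agent.MP_250189_co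

end

-- part MP_250189_co.Final
section

/-! The drawing of a 3-connected graph without the two minors. -/

namespace Pool.Agent.MP_250189_co

open Set Filter Topology

variable {V : Type*} {G : SimpleGraph V} {W C A : Set V} {t z u : V}

lemma conn_of_induce (h : (G.induce A).Connected) : Conn G A := by
  intro a ha b hb
  have key : ∀ p q : A, Relation.ReflTransGen (G.induce A).Adj p q → Reach G A p q := by
    intro p q k
    induction k with
    | refl => exact Reach.refl
    | @tail r s _ k2 ih => exact ih.tail k2 r.2 s.2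
  exact key _ _ ((SimpleGraph.reachable_iff_reflTransGen _ _).1 (h.preconnected ⟨a, ha⟩ ⟨b, hb⟩))

lemma c3g [Finite V] (hc : ∀ C : Set V, C.ncard ≤ 2 → Conn G Cᶜ) (hC : C.ncard ≤ 2)
    (hcl : Cl G W C) (hne : W.Nonempty) (h1 : t ∉ W) (h2 : t ∉ C) : False := by
  obtain ⟨w, hw⟩ := hne
  refine h1 ((hc (C \ W) ((Set.ncard_le_ncard sdiff_subset).trans hC)).closed hw
    (fun k => k.2 hw) (fun p hp _ q hq hpq => ?_) fun k => h2 k.1)
  by_contra k
  exact hq ⟨(hcl p hp q hpq).resolve_left k, k⟩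

lemma ncard_pair_le (a b : V) : ({a, b} : Set V).ncard ≤ 2 := by
  simpa using Set.ncard_insert_le a {b}

lemma exists_ph [Finite V] (hc : ∀ C : Set V, C.ncard ≤ 2 → Conn G Cᶜ)
    (h4 : ∀ a b c : V, ∃ d, d ≠ a ∧ d ≠ b ∧ d ≠ c) (nk : NoK G) (hzu : G.Adj z u) :
    ∃ v τ, PH (res G {z}ᶜ) {z}ᶜ {w | G.Adj z w} u v z τ := by
  have hle : delE G z u ≤ G := fun _ _ k => k.1
  have up : ∀ A : Set V, (z ∉ A ∨ u ∉ A) → Conn G A → Conn (delE G z u) A := by
    intro A k1 k2
    refine k2.mono' fun p hp q hq hpq => ⟨hpq, ?_⟩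
    rintro (⟨rfl, rfl⟩ | ⟨rfl, rfl⟩)
    exacts [k1.elim (· hp) (· hq), k1.elim (· hq) (· hp)]
  have pc : ∀ a b : V, Conn G ({a, b} : Set V)ᶜ := fun a b => hc _ (ncard_pair_le a b)
  obtain ⟨x0, h1, h2, -⟩ := h4 z u u
  obtain ⟨σ, k1, k2, k3, -, k5⟩ := lemmaT (G := delE G z u) (S := univ) (X := ∅) (a := z) (b := u)
    (x0 := x0) (fun _ _ _ => trivial) trivial trivial hzu.ne trivial h1 h2 (fun c => by
      rw [← Set.compl_eq_univ_sdiff]
      by_cases e : c = z ∨ c = u
      · exact up _ (e.imp (fun e => by simp [e]) fun e => by simp [e]) (hc _ (by simp))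
      · push Not at e
        obtain ⟨d, d1, d2, d3⟩ := h4 c u z
        obtain ⟨w, hw, hzw⟩ := exists_nbr (pc c u) (a := z) (b := d)
          (by simp [e.1.symm, hzu.ne]) (by simp [d1, d2]) d3.symm
        simp only [mem_compl_iff, mem_insert_iff, mem_singleton_iff, not_or] at hw
        have := (conn_singleton (a := z)).union (up _ (Or.inl (by simp)) (pc c z))
          ⟨z, rfl, w, by simp [hw.1, hzw.ne.symm], hzw, by simp [hw.2, hzw.ne.symm]⟩
        have e2 : ({z} : Set V) ∪ ({c, z} : Set V)ᶜ = {c}ᶜ := by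
          ext p
          by_cases j : p = z
          · simp [j, e.1.symm]
          · simp [j]
        rwa [e2] at this)
    (fun W _ j2 j3 j4 j5 _ L R j6 j7 j8 => c3g hc (ncard_pair_le L R)
      (fun p hp q hpq => j8 p hp q ⟨hpq, by
        rintro (⟨rfl, -⟩ | ⟨-, rfl⟩)
        exacts [j3 hp, j4 hp]⟩) j2 j5 (by simp [j6.symm, j7.symm]))
    (by rw [← Set.compl_eq_univ_sdiff]; exact up _ (Or.inl (by simp)) (pc z u)) (by simp)
  obtain ⟨v, τ, rfl⟩ : ∃ v τ, σ = z :: v :: (List.reverse τ ++ [u]) := by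
    obtain ⟨j0, j1, j2⟩ := k1
    obtain ⟨L, rfl⟩ := List.getLast?_eq_some_iff.1 j2
    cases L with
    | nil => simp at j1; exact absurd j1.symm hzu.ne
    | cons p L =>
      simp at j1; subst j1
      cases L with
      | nil => simp at j0; exact absurd (Or.inl ⟨rfl, rfl⟩) j0.2
      | cons v L => exact ⟨v, L.reverse, by simp⟩
  have er : u :: (τ ++ [v]) = (v :: (τ.reverse ++ [u])).reverse := by simp
  have j0 := List.isChain_cons_cons.1 k1.1
  have j1 := List.nodup_cons.1 k2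
  have nz : ∀ w ∈ u :: (τ ++ [v]), w ≠ z := fun w hw e => j1.1 (by
    rw [er, List.mem_reverse] at hw; exact e ▸ hw)
  have nd : (u :: (τ ++ [v])).Nodup := by rw [er, List.nodup_reverse]; exact j1.2
  have ch : (u :: (τ ++ [v])).IsChain G.Adj := by
    rw [er, List.isChain_reverse]; exact j0.2.imp fun _ _ k => k.1.symm
  refine ⟨v, τ, ⟨res_in, by simp, fun w k => k.ne.symm, hzu, j0.1.1, fun e => ?_,
    fun W j2 j3 j4 a b j5 => ?_⟩, fun c => Conn.res ?_ sdiff_subset,
    isChain_iff_edges.2 fun e he => ⟨isChain_iff_edges.1 ch e he, nz _ (mem_of_edge he).1,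
      nz _ (mem_of_edge he).2⟩, nd, fun P c M d R e k => ?_, fun w hw k => ?_,
    Conn.res ?_ sdiff_subset, nk.mono ?_⟩
  · exact (List.nodup_cons.1 nd).1 (by simp [e])
  · refine c3g hc (C := {a, b} \ {z}) ((Set.ncard_le_ncard sdiff_subset).trans (ncard_pair_le a b))
      (fun p hp q hpq => ?_) j3 (fun k => j2 k rfl) (fun k => k.2 rfl)
    have hq : q ≠ z := fun e => Set.disjoint_left.1 j4 hp (e ▸ hpq.symm)
    exact (j5 p hp q ⟨hpq, j2 hp, hq⟩).imp id fun k => ⟨k, hq⟩
  · have e : ({z}ᶜ \ {c} : Set V) = {z, c}ᶜ := by ext; simp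
    rw [e]; exact pc z c
  · have e2 := congrArg List.reverse (er.symm.trans e)
    rw [List.reverse_reverse] at e2
    have := k3 (z :: R.reverse) d M.reverse c P.reverse (by rw [e2]; simp) ⟨k.1.symm, by
      rintro (⟨j, -⟩ | ⟨j, -⟩)
      exacts [k.2.2 j, k.2.1 j]⟩
    simpa using this
  · obtain ⟨P, R, rfl⟩ := List.append_of_mem hw
    have := k3 [] z (v :: R.reverse) w (P.reverse ++ [u]) (by simp) ⟨k, by
      rintro (⟨-, rfl⟩ | ⟨j, -⟩)
      exacts [(List.nodup_cons.1 nd).1 (by simp), k.ne j.symm]⟩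
    simp at this
  · have e : ({z}ᶜ \ ls (u :: (τ ++ [v])) : Set V) = univ \ ls (z :: v :: (τ.reverse ++ [u])) := by
      ext; simp; tauto
    rw [e]; exact k5.mono hle
  · rintro p q (k | ⟨-, ⟨rfl, k⟩ | ⟨rfl, k⟩⟩)
    exacts [k.1, k, k.symm]

theorem exists_shelling [Finite V] (hc : ∀ C : Set V, C.ncard ≤ 2 → Conn G Cᶜ)
    (h4 : ∀ a b c : V, ∃ d, d ≠ a ∧ d ≠ b ∧ d ≠ c) (nk : NoK G) (hzu : G.Adj z u) :
    ∃ (x y : V → ℝ) (P : List V) (E : Set (V × V)), Function.Injective x ∧
      Shell x y (u :: (P ++ [z])) E (u :: ([] ++ [z])) ∧ Inc x (u :: (P ++ [z])) ∧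
      Cvx x y (u :: (P ++ [z])) ∧
      (∀ a b, G.Adj a b ↔
        (a, b) ∈ E ∪ edges (u :: (P ++ [z])) ∨ (b, a) ∈ E ∪ edges (u :: (P ++ [z]))) ∧
      ∀ a t, a ≠ t → ∃ w, G.Adj a w ∧ |x w - x t| < |x a - x t| := by
  classical
  obtain ⟨v, τ, h⟩ := exists_ph hc h4 nk hzu
  obtain ⟨β, x0, o⟩ := ((good z _).1 _ _ _ _ _ h).1
  have hzv : G.Adj z v := h.vX
  set x := Function.update x0 z (x0 v + 1) with hx
  have x1 : ∀ a, a ≠ z → x a = x0 a := fun a ha => Function.update_of_ne ha _ _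
  have x2 : x z = x0 v + 1 := Function.update_self _ _ _
  have x3 : ∀ a, a ≠ z → x a < x z := fun a ha => by
    rw [x1 a ha, x2]; linarith [o.gr.le_hi (a := a) ha]
  have cs : Cons (res G {z}ᶜ) x0 x := fun a b k k' => by rwa [x1 a k.2.1, x1 b k.2.2]
  obtain ⟨y0, g, -, fl⟩ := o.geo x cs (x z) (x3 v hzv.ne.symm)
  obtain ⟨Y0, hY⟩ := ((edges_finite (u :: (β ++ [v]))).image
    fun e => ln x y0 e.1 e.2 (x z)).bddAbove
  set y := Function.update y0 z (max Y0 0 + 1) with hy
  have y1 : ∀ a ∈ ({z}ᶜ : Set V), y a = y0 a := fun a ha => Function.update_of_ne ha _ _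
  have y2 : y z = max Y0 0 + 1 := Function.update_self _ _ _
  have af : Aff {z}ᶜ x y0 y 1 0 0 := fun a ha => by rw [y1 a ha]; ring
  have sτ := path_sub res_in fun e he => (o.cb.adjτ e he).1
  have sβ := path_sub res_in fun e he => (o.cb.adjβ e he).1
  have iτ := o.cb.incτ cs
  have iβ := o.cb.incβ cs
  have es : ∀ L : List V, u :: (L ++ [v] ++ [z]) = (u :: L) ++ v :: [z] := by simp
  have iz : ∀ L : List V, Inc x (u :: (L ++ [v])) → Inc x (u :: (L ++ [v] ++ [z])) := by
    intro L k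
    rw [es, inc_split]
    exact ⟨k, fun e he => by simp at he; rw [he]; exact x3 v hzv.ne.symm⟩
  have lnz : ∀ e ∈ edges (u :: (β ++ [v])), ln x y e.1 e.2 (x z) < y z := by
    intro e he
    rw [ln_congr (y1 _ (sβ _ (mem_of_edge he).1)) (y1 _ (sβ _ (mem_of_edge he).2)), y2]
    linarith [hY ⟨e, he, rfl⟩, le_max_left Y0 0]
  obtain ⟨M, EF, r1, r2, r3, r4, r5, r6⟩ := fan (x := x) (y := y) {w | G.Adj z w} (β ++ [v]) u
    (iz β iβ) (af.tri_le one_pos sβ iβ (fun _ _ _ _ _ k => k) g.cvx) lnz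
  have hf : Face x y u M [] z := by
    refine ⟨r2, fun e he => by simp at he; rw [he]; exact x3 u hzu.ne.symm, r3, by simp [Ccv], ?_⟩
    obtain ⟨d, d1, d2, -⟩ := fs_edge (x := x) (a := u) (c := v) β
    rw [fs_head (b := d) (by rw [← r4] at d2; rw [List.head?_append, d2]; rfl)]
    exact (sl_lt_of_ln (iβ _ d1) (x3 d (sβ _ (mem_of_edge d1).2)) (lnz _ d1)).2
  obtain ⟨E1, s1, s2, s3⟩ := g.sh
  have f0 := g.flat fl
  have s0 : ∀ e ∈ edges (u :: (τ ++ [v])), sl x y e.1 e.2 = 0 := fun e he =>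
    sl_flat (by rw [y1 _ (sτ _ (mem_of_edge he).1), f0 _ (mem_of_edge he).1])
      (by rw [y1 _ (sτ _ (mem_of_edge he).2), f0 _ (mem_of_edge he).2])
  refine ⟨x, y, τ ++ [v], E1 ∪ (EF ∪ edges [u, z]), fun a b k => ?_, ?_, iz τ iτ, ?_,
    fun a b => ⟨fun hab => ?_, ?_⟩, fun a t hat => ?_⟩
  · by_cases ha : a = z <;> by_cases hb : b = z
    · rw [ha, hb]
    · rw [ha] at k; exact absurd k (x3 b hb).ne'
    · rw [hb] at k; exact absurd k (x3 a ha).ne
    · exact o.gr.inj ha hb (by rwa [x1 a ha, x1 b hb] at k)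
  · have p1 := (s1.aff af one_pos sτ fun e he => (s2 e he).2).ctx [] [z]
    have p2 := r1.trans hf.shell
    simp only [List.nil_append, List.cons_append, List.append_assoc] at p1 p2 ⊢
    exact p1.trans p2
  · unfold Cvx
    rw [es, tri_split]
    refine ⟨tri_of_forall fun a b c k1 k2 => by rw [s0 _ k1, s0 _ k2], by simp,
      fun p q k1 k2 => ?_⟩
    simp at k2; subst k2
    rw [s0 _ (last_edge k1)]
    unfold sl
    rw [y2, y1 v hzv.ne.symm, g.yv]
    exact div_nonneg (by linarith [le_max_right Y0 0]) (by linarith [x3 v hzv.ne.symm])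
  · rw [es, edges_split]
    have key : ∀ w, G.Adj z w → (w, z) ∈ EF ∨ (w, z) ∈ edges [u, z] ∨ (w, z) ∈ edges [v, z] := by
      intro w hw
      rcases List.mem_cons.1 (o.cb.Xβ w hw) with rfl | k
      · simp
      · refine (r6 w k hw).imp id fun k => Or.inr ?_
        rw [es, edges_split] at k
        exact k.resolve_left fun k => sβ z (mem_of_edge k).2 rfl
    by_cases ha : a = z
    · subst ha
      have := key b hab
      simp only [mem_union, List.cons_append] at this ⊢; clear * - this; tauto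
    by_cases hb : b = z
    · subst hb
      have := key a hab.symm
      simp only [mem_union, List.cons_append] at this ⊢; clear * - this; tauto
    · have := s3 a b ⟨hab, ha, hb⟩
      simp only [mem_union, List.cons_append] at this ⊢; clear * - this; tauto
  · have key : ∀ e ∈ E1 ∪ (EF ∪ edges [u, z]) ∪ edges (u :: (τ ++ [v] ++ [z])), G.Adj e.1 e.2 := by
      rw [es, edges_split]
      rintro e ((he | he | he) | he | he)
      · exact (s2 e he).1
      · rw [(r5 e he).1]; exact (r5 e he).2.1.symm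
      · simp at he; rw [he]; exact hzu.symm
      · exact (o.cb.adjτ e he).1.1
      · simp at he; rw [he]; exact hzv.symm
    exact fun k => k.elim (key _) fun k => (key _ k).symm
  · by_cases ha : a = z
    · subst ha
      have k1 := x3 v hzv.ne.symm
      have k2 : x t ≤ x v := by
        rw [x1 t hat.symm, x1 v hzv.ne.symm]; exact o.gr.le_hi (a := t) hat.symm
      refine ⟨v, hzv, ?_⟩
      rw [abs_of_nonneg (by linarith), abs_of_nonneg (by linarith)]; linarith
    by_cases ht : t = z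
    · subst ht
      have k1 := x3 a ha
      by_cases hav : a = v
      · refine ⟨t, hav ▸ hzv.symm, ?_⟩
        rw [sub_self, abs_zero, abs_pos]; linarith
      · obtain ⟨w, k2, k3⟩ := o.gr.g3 a ha hav
        have k4 := x3 w k2.2.2
        rw [← x1 a ha, ← x1 w k2.2.2] at k3
        refine ⟨w, k2.1, ?_⟩
        rw [abs_of_nonpos (by linarith), abs_of_nonpos (by linarith)]; linarith
    · obtain ⟨w, k1, k2⟩ := o.gr.full res_in (a := a) (t := t) ha ht hat
      exact ⟨w, k1.1, by rwa [x1 w k1.2.2, x1 t ht, x1 a ha]⟩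

lemma exists_squash [Finite V] (x y : V → ℝ)
    (h : ∀ a t, a ≠ t → ∃ w, G.Adj a w ∧ |x w - x t| < |x a - x t|) :
    ∃ κ : ℝ, 0 < κ ∧ ∀ a t, a ≠ t → ∃ w, G.Adj a w ∧
      (x w - x t) ^ 2 + (κ * y w - κ * y t) ^ 2 < (x a - x t) ^ 2 + (κ * y a - κ * y t) ^ 2 := by
  have : ∀ᶠ η in 𝓝 (0 : ℝ), ∀ a t, a ≠ t → ∃ w, G.Adj a w ∧
      (x w - x t) ^ 2 + η * (y w - y t) ^ 2 < (x a - x t) ^ 2 := by
    refine Filter.eventually_all.2 fun a => Filter.eventually_all.2 fun t =>
      Filter.eventually_all.2 fun hat => ?_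
    obtain ⟨w, k1, k2⟩ := h a t hat
    filter_upwards [small_lt (B := (y w - y t) ^ 2) (sq_lt_sq.2 k2)] with η k using ⟨w, k1, k⟩
  obtain ⟨η, h1, h2⟩ := exists_small this
  refine ⟨√η, Real.sqrt_pos.2 h1, fun a t hat => ?_⟩
  obtain ⟨w, k1, k2⟩ := h2 a t hat
  refine ⟨w, k1, ?_⟩
  rw [← mul_sub, mul_pow, Real.sq_sqrt h1.le]
  nlinarith [sq_nonneg (√η * y a - √η * y t)]

end Pool.Agent.MP_250189_co

end
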