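import Pool.Agent.MP_250189_co.Mg.Final
import Pool.Agent.MP_250189_co.H72Defs

/-! A graph drawn in the plane with arbitrary continuous curves, curves of different edges meeting
only in common ends, has no `K_{3,3}` and no `K_5` minor. The crossing parity is read off from
continuous logarithms. -/

namespace Pool.Agent.MP_250189_co

open Set Complex

lemma tp_log {X : Type} [TopologicalSpace X] [SimplyConnectedSpace X] [LocallyPathConnectedSpace X]
    (F : X → ℂ) (hF : Continuous F) (h0 : ∀ z, F z ≠ 0) :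
    ∃ L : X → ℂ, Continuous L ∧ ∀ z, exp (L z) = F z := by
  obtain ⟨x0⟩ : Nonempty X := inferInstance
  obtain ⟨f, ⟨-, hf⟩, -⟩ := Complex.isCoveringMap_exp.existsUnique_continuousMap_lifts
    (⟨fun z => ⟨F z, h0 z⟩, hF.subtype_mk _⟩ : C(X, {z : ℂ // z ≠ 0})) x0 (log (F x0))
    (Subtype.ext (exp_log (h0 x0)))
  exact ⟨f, f.continuous, fun z => congrArg Subtype.val (congrFun hf z)⟩

lemma tp_diff {L1 L2 : ℝ → ℂ} (h1 : Continuous L1) (h2 : Continuous L2) {c : ℂ}
    (h : ∀ t, exp (L1 t) = c * exp (L2 t)) : L1 1 - L1 0 = L2 1 - L2 0 := by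
  have k : ∀ t, exp (L1 t - L2 t) = c := fun t => by
    rw [exp_sub, h t, mul_div_assoc, div_self (exp_ne_zero _), mul_one]
  have := Complex.isCoveringMap_exp.const_of_comp (g := fun t => L1 t - L2 t) (h1.sub h2)
    (fun a a' => Subtype.ext ((k a).trans (k a').symm)) 1 0
  linear_combination this

lemma tp_wn (f : ℝ → ℂ) (hf : Continuous f) (h0 : ∀ t, f t ≠ 0) :
    ∃ n : ℤ, ∀ (L : ℝ → ℂ) (c : ℂ), Continuous L → (∀ t, exp (L t) = c * f t) →
      L 1 - L 0 = log (f 1) - log (f 0) + n * (2 * Real.pi * I) := by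
  obtain ⟨L0, h1, h2⟩ := tp_log f hf h0
  have : exp (L0 1 - L0 0) = exp (log (f 1) - log (f 0)) := by
    rw [exp_sub, exp_sub, h2, h2, exp_log (h0 1), exp_log (h0 0)]
  obtain ⟨n, hn⟩ := exp_eq_exp_iff_exists_int.1 this
  refine ⟨n, fun L c hL hc => ?_⟩
  rw [tp_diff hL h1 (c := c) fun t => by rw [hc, h2], hn]

lemma tp_neg (z : ℂ) : ∃ m : ℤ, z ≠ 0 → log (-z) = log z + Real.pi * I + m * (2 * Real.pi * I) := by
  by_cases hz : z = 0
  · exact ⟨0, fun h => absurd hz h⟩
  have : exp (log (-z)) = exp (log z + Real.pi * I) := by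
    rw [exp_add, exp_pi_mul_I, exp_log hz, exp_log (neg_ne_zero.2 hz)]; ring
  obtain ⟨n, hn⟩ := exp_eq_exp_iff_exists_int.1 this
  exact ⟨n, fun _ => hn⟩

lemma tp_int {n : ℤ} (h : (n : ℂ) * (2 * Real.pi * I) = 0) : n = 0 := by
  rcases mul_eq_zero.1 h with h | h
  · exact_mod_cast h
  · exact absurd h two_pi_I_ne_zero

/-- The parity identities for curves between points, two curves with four different end indices
being disjoint. -/
lemma tp_eqs {ι : Type} {H : ι → ι → Prop} (r : ι → ℂ) (hr : Function.Injective r)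
    (g : ι → ι → ℝ → ℂ) (hg : ∀ i j, H i j → Continuous (g i j) ∧ g i j 0 = r i ∧ g i j 1 = r j)
    (hd : ∀ i j k l, H i j → H k l → i ≠ k → i ≠ l → j ≠ k → j ≠ l → ∀ s t, g i j s ≠ g k l t) :
    ∃ (W : ι → ι → ι → ZMod 2) (t : ι → ι → ZMod 2), (∀ i k, i ≠ k → t i k + t k i = 1) ∧
      ∀ i j k l, H i j → H k l → i ≠ k → i ≠ l → j ≠ k → j ≠ l →
        W k l i + W k l j + W i j k + W i j l + t i k + t j k + t i l + t j l = 0 := by
  have two : (2 : ZMod 2) = 0 := rfl
  choose m hm using tp_neg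
  have hw : ∀ i j k, ∃ n : ℤ, H i j → (∀ t, g i j t ≠ r k) → ∀ (L : ℝ → ℂ) (c : ℂ),
      Continuous L → (∀ t, exp (L t) = c * (g i j t - r k)) →
      L 1 - L 0 = log (r j - r k) - log (r i - r k) + n * (2 * Real.pi * I) := by
    intro i j k
    by_cases h : H i j ∧ ∀ t, g i j t ≠ r k
    · obtain ⟨n, hn⟩ := tp_wn (fun t => g i j t - r k) ((hg i j h.1).1.sub continuous_const)
        fun t => sub_ne_zero.2 (h.2 t)
      refine ⟨n, fun _ _ L c h1 h2 => ?_⟩
      have := hn L c h1 h2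
      simp only [(hg i j h.1).2.1, (hg i j h.1).2.2] at this
      exact this
    · exact ⟨0, fun h1 h2 => absurd ⟨h1, h2⟩ h⟩
  choose n hn using hw
  have hm' : ∀ i k, i ≠ k → log (r k - r i) =
      log (r i - r k) + Real.pi * I + m (r i - r k) * (2 * Real.pi * I) := fun i k h => by
    rw [← hm _ (sub_ne_zero.2 (hr.ne h)), neg_sub]
  refine ⟨fun i j k => (n i j k : ZMod 2), fun i k => (m (r i - r k) : ZMod 2),
    fun i k hik => ?_, fun i j k l hij hkl h1 h2 h3 h4 => ?_⟩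
  · have e1 := hm' i k hik
    have e2 := hm' k i hik.symm
    have : m (r i - r k) + m (r k - r i) + 1 = 0 := tp_int (by
      push_cast; linear_combination -e1 - e2)
    have := congrArg (Int.cast : ℤ → ZMod 2) this
    push_cast at this
    linear_combination this - two
  · have hd' := hd i j k l hij hkl h1 h2 h3 h4
    obtain ⟨c1, a0, a1⟩ := hg i j hij
    obtain ⟨c2, b0, b1⟩ := hg k l hkl
    obtain ⟨L, hL, hL'⟩ := tp_log (fun z : ℝ × ℝ => g i j z.1 - g k l z.2) (by fun_prop)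
      fun z => sub_ne_zero.2 (hd' _ _)
    have e1 := hn i j k hij (fun t => b0 ▸ hd' t 0) (fun t => L (t, 0)) 1 (by fun_prop)
      fun t => by rw [hL', b0, one_mul]
    have e2 := hn i j l hij (fun t => b1 ▸ hd' t 1) (fun t => L (t, 1)) 1 (by fun_prop)
      fun t => by rw [hL', b1, one_mul]
    have e3 := hn k l i hkl (fun t => a0 ▸ (hd' 0 t).symm) (fun t => L (0, t)) (-1) (by fun_prop)
      fun t => by rw [hL', a0]; ring
    have e4 := hn k l j hkl (fun t => a1 ▸ (hd' 1 t).symm) (fun t => L (1, t)) (-1) (by fun_prop)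
      fun t => by rw [hL', a1]; ring
    have f1 := hm' i k h1
    have f2 := hm' i l h2
    have f3 := hm' j k h3
    have f4 := hm' j l h4
    have : -m (r j - r k) + m (r i - r k) + m (r j - r l) - m (r i - r l) + n i j k + n k l j -
        n k l i - n i j l = 0 := tp_int (by
      push_cast
      linear_combination -e1 - e4 + e3 + e2 - f1 + f2 + f3 - f4)
    have := congrArg (Int.cast : ℤ → ZMod 2) this
    push_cast at this
    linear_combination this + ((m (r j - r k) : ZMod 2) + (m (r i - r l) : ZMod 2) +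
      (n k l i : ZMod 2) + (n i j l : ZMod 2)) * two

theorem noK_of_curves {V : Type*} (G : SimpleGraph V) (q : V → EuclideanSpace ℝ (Fin 2))
    (γ : ∀ a b, G.Adj a b → Path (q a) (q b)) (hinj : Function.Injective q)
    (hv : ∀ a b (h : G.Adj a b) (w : V), q w ∈ range (γ a b h) → w = a ∨ w = b)
    (hx : ∀ a b c d (h : G.Adj a b) (h' : G.Adj c d), s(a, b) ≠ s(c, d) →
      range (γ a b h) ∩ range (γ c d h') ⊆ ({q a, q b} : Set _) ∩ {q c, q d}) : NoK G := by
  let K : Set V → Set (EuclideanSpace ℝ (Fin 2)) := fun A =>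
    q '' A ∪ {z | ∃ a ∈ A, ∃ b ∈ A, ∃ h : G.Adj a b, z ∈ range (γ a b h)}
  have hK : ∀ A B : Set V, Disjoint A B → Disjoint (K A) (K B) := by
    intro A B hAB
    have nn : ∀ {v}, v ∈ A → v ∈ B → False := fun h1 h2 => Set.disjoint_left.1 hAB h1 h2
    rw [Set.disjoint_left]
    rintro z (⟨a, ha, rfl⟩ | ⟨a, ha, b, hb, h, hz⟩) (⟨c, hc, e⟩ | ⟨c, hc, d, hd, h', hz'⟩)
    · exact nn ha (hinj e ▸ hc)
    · rcases hv c d h' a hz' with rfl | rfl
      exacts [nn ha hc, nn ha hd]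
    · rcases hv a b h c (e ▸ hz) with rfl | rfl
      exacts [nn ha hc, nn hb hc]
    · have := hx a b c d h h' (fun e => by
        rcases Sym2.eq_iff.1 e with e | e
        exacts [nn ha (e.1 ▸ hc), nn ha (e.1 ▸ hd)]) ⟨hz, hz'⟩
      rcases this with ⟨p1 | p1, p2 | p2⟩
      · exact nn ha (hinj (p1.symm.trans p2) ▸ hc)
      · exact nn ha (hinj (p1.symm.trans p2) ▸ hd)
      · exact nn hb (hinj (p1.symm.trans p2) ▸ hc)
      · exact nn hb (hinj (p1.symm.trans p2) ▸ hd)
  have hJ : ∀ (A : Set V) (a b : V), a ∈ A → Reach G A a b → JoinedIn (K A) (q a) (q b) := by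
    intro A a b ha h
    induction h with
    | refl => exact JoinedIn.refl (Or.inl ⟨a, ha, rfl⟩)
    | @tail c d _ h2 ih =>
      exact ih.trans ⟨γ c d h2.1, fun t => Or.inr ⟨c, h2.2.1, d, h2.2.2, h2.1, t, rfl⟩⟩
  have main : ∀ {ι : Type} {H : ι → ι → Prop} {B : ι → Set V}, Model G H B →
      (∀ i, ∃ j, H i j ∨ H j i) →
      ∃ (W : ι → ι → ι → ZMod 2) (t : ι → ι → ZMod 2), (∀ i k, i ≠ k → t i k + t k i = 1) ∧
      ∀ i j k l, H i j → H k l → i ≠ k → i ≠ l → j ≠ k → j ≠ l →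
        W k l i + W k l j + W i j k + W i j l + t i k + t j k + t i l + t j l = 0 := by
    intro ι H B hm hH
    have hne : ∀ i, ∃ x, x ∈ B i := by
      intro i
      obtain ⟨j, h | h⟩ := hH i
      · obtain ⟨a, ha, -⟩ := hm.tch i j h; exact ⟨a, ha⟩
      · obtain ⟨a, -, b, hb, -⟩ := hm.tch j i h; exact ⟨b, hb⟩
    choose r hr using hne
    let e := Complex.orthonormalBasisOneI.repr.symm
    have hw : ∀ i j, ∃ g : ℝ → EuclideanSpace ℝ (Fin 2), H i j → Continuous g ∧ g 0 = q (r i) ∧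
        g 1 = q (r j) ∧ ∀ t, g t ∈ K (B i ∪ B j) := by
      intro i j
      by_cases h : H i j
      · obtain ⟨P, hP⟩ := hJ (B i ∪ B j) (r i) (r j) (Or.inl (hr i))
          (((hm.conn i).union (hm.conn j) (hm.tch i j h)) (r i) (Or.inl (hr i)) (r j)
            (Or.inr (hr j)))
        refine ⟨P.extend, fun _ => ⟨P.continuous_extend, P.extend_zero, P.extend_one, fun t => ?_⟩⟩
        have : P.extend t ∈ range P := P.extend_range ▸ mem_range_self t
        obtain ⟨s, hs⟩ := this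
        exact hs ▸ hP s
      · exact ⟨fun _ => 0, fun k => absurd k h⟩
    choose g hg using hw
    refine tp_eqs (fun i => e (q (r i))) (fun i k hik => ?_) (fun i j t => e (g i j t))
      (fun i j h => ⟨e.continuous.comp (hg i j h).1, by rw [(hg i j h).2.1],
        by rw [(hg i j h).2.2.1]⟩) fun i j k l hij hkl h1 h2 h3 h4 s t hst => ?_
    · by_contra hne
      exact Set.disjoint_left.1 (hm.disj i k hne) (hr i) (hinj (e.injective hik) ▸ hr k)
    · have hdis : Disjoint (B i ∪ B j) (B k ∪ B l) := by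
        simp only [disjoint_union_left, disjoint_union_right]
        exact ⟨⟨hm.disj i k h1, hm.disj j k h3⟩, hm.disj i l h2, hm.disj j l h4⟩
      exact Set.disjoint_left.1 (hK _ _ hdis) ((hg i j hij).2.2.2 s)
        (e.injective hst ▸ (hg k l hkl).2.2.2 t)
  refine ⟨fun B hB => ?_, fun B hB => ?_⟩
  · obtain ⟨W, t, ht, h⟩ := main hB (by decide)
    exact k33_alg W t ht h
  · obtain ⟨W, t, ht, h⟩ := main hB (by decide)
    exact k5_alg W t ht h

end Pool.Agent.MP_250189_co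

/-! Shellings with their set of faces, strictly convex faces, and the perturbation of the heights
that removes all flat angles. -/

namespace Pool.Agent.MP_250189_co

open Set Filter Topology

variable {V : Type*} {x y y' : V → ℝ} {a b c : V}

/-- A shelling together with the set of its faces. -/
inductive ShF : List V → Set (V × V) → List V → Set (V × List V × List V × V) → Prop
  | refl (P : List V) : ShF P ∅ P ∅
  | step (A B : List V) (a b : V) (M Q : List V) (E : Set (V × V)) (P' : List V)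
      (Fs : Set (V × List V × List V × V)) :
      ShF (A ++ a :: (Q ++ b :: B)) E P' Fs →
      ShF (A ++ a :: (M ++ b :: B)) (E ∪ edges (a :: (Q ++ [b]))) P' (insert (a, M, Q, b) Fs)

lemma Shell.shF {P P' : List V} {E : Set (V × V)} (hs : Shell x y P E P') :
    ∃ Fs, ShF P E P' Fs ∧ ∀ a M Q b, (a, M, Q, b) ∈ Fs → Face x y a M Q b := by
  induction hs with
  | refl P => exact ⟨∅, ShF.refl P, fun _ _ _ _ h => h.elim⟩
  | step A B a b M Q E P' hf _ ih =>
    obtain ⟨Fs, h1, h2⟩ := ih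
    refine ⟨_, ShF.step A B a b M Q E P' Fs h1, ?_⟩
    rintro a' M' Q' b' (h | h)
    · simp only [Prod.mk.injEq] at h
      obtain ⟨rfl, rfl, rfl, rfl⟩ := h
      exact hf
    · exact h2 _ _ _ _ h

lemma ShF.shell {P P' : List V} {E : Set (V × V)} {Fs : Set (V × List V × List V × V)}
    (hs : ShF P E P' Fs) (hF : ∀ a M Q b, (a, M, Q, b) ∈ Fs → Face x y a M Q b) :
    Shell x y P E P' := by
  induction hs with
  | refl P => exact Shell.refl P
  | step A B a b M Q E P' Fs _ ih =>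
    exact Shell.step A B a b M Q E P' (hF _ _ _ _ (Or.inl rfl))
      (ih fun _ _ _ _ h => hF _ _ _ _ (Or.inr h))

lemma ShF.faces {P P' : List V} {E : Set (V × V)} {Fs : Set (V × List V × List V × V)}
    (hs : ShF P E P' Fs) (hF : ∀ a M Q b, (a, M, Q, b) ∈ Fs → Face x y a M Q b) (hP : Inc x P) :
    (∀ a M Q b, (a, M, Q, b) ∈ Fs →
      edges (a :: (M ++ [b])) ⊆ E ∪ edges P ∧ edges (a :: (Q ++ [b])) ⊆ E ∪ edges P ∧
      ∀ w ∈ oc x y a b (a :: (M ++ [b])) (a :: (Q ++ [b])),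
        w ∉ segs x y (E ∪ edges P) ∧ w 0 ∈ dom x P ∧ pf x y P (w 0) < w 1) ∧
    ∀ z : Pl, z 0 ∈ dom x P → pf x y P (z 0) < z 1 → z 1 < pf x y P' (z 0) →
      z ∉ segs x y (E ∪ edges P) →
      ∃ a M Q b, (a, M, Q, b) ∈ Fs ∧ z ∈ oc x y a b (a :: (M ++ [b])) (a :: (Q ++ [b])) := by
  induction hs with
  | refl P => exact ⟨fun _ _ _ _ h => h.elim, fun z _ h1 h2 _ => absurd (h1.trans h2) (lt_irrefl _)⟩
  | step A B a b M Q E P' Fs hs ih =>
    have hf := hF _ _ _ _ (Or.inl rfl)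
    have hF' : ∀ a M Q b, (a, M, Q, b) ∈ Fs → Face x y a M Q b :=
      fun _ _ _ _ h => hF _ _ _ _ (Or.inr h)
    have hP1 : Inc x (A ++ a :: (Q ++ b :: B)) :=
      inc_mid.2 ⟨(inc_mid.1 hP).1, hf.incQ, (inc_mid.1 hP).2.2⟩
    have inv := (hs.shell hF').inv hP1
    obtain ⟨ih1, ih2⟩ := ih hF' hP1
    have hEE : E ∪ edges (a :: (Q ++ [b])) ∪ edges (A ++ a :: (M ++ b :: B)) =
        (E ∪ edges (A ++ a :: (Q ++ b :: B))) ∪ edges (a :: (M ++ [b])) := by
      rw [edges_mid, edges_mid]; ext e; simp only [mem_union]; tauto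
    have hLo : edges (a :: (M ++ [b])) ⊆ edges (A ++ a :: (M ++ b :: B)) := by
      rw [edges_mid]; exact subset_union_right
    have hUp : edges (a :: (Q ++ [b])) ⊆ edges (A ++ a :: (Q ++ b :: B)) := by
      rw [edges_mid]; exact subset_union_right
    have d1 : ∀ {t}, t ∈ dom x (A ++ a :: (Q ++ b :: B)) → t ∈ dom x (A ++ a :: (M ++ b :: B)) :=
      fun h => dom_mid hf.incQ h
    have d2 : ∀ {t}, t ∈ dom x (A ++ a :: (M ++ b :: B)) → t ∈ dom x (A ++ a :: (Q ++ b :: B)) :=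
      fun h => dom_mid hf.incM h
    have hm := @mem_oc _ x y a b M Q hf.incM hf.incQ hf.cvx hf.ccv
    rw [hEE]
    refine ⟨?_, fun z h1 h2 h3 h4 => ?_⟩
    · rintro a' M' Q' b' (h | h)
      · simp only [Prod.mk.injEq] at h
        obtain ⟨rfl, rfl, rfl, rfl⟩ := h
        refine ⟨subset_union_right, hUp.trans (subset_union_right.trans subset_union_left),
          fun w hw => ?_⟩
        obtain ⟨w1, w2, w3, w4⟩ := hm.1 hw
        obtain ⟨e, he, h7⟩ := cover (x := x) M' a' w1.le w2.le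
        refine ⟨?_, ⟨e, hLo he, h7⟩, by rwa [pf_mid hP w1.le w2.le]⟩
        rintro ⟨e, he, h7, h8, h9⟩
        rcases he with he | he
        · have := ((inv.s2 e he).2 _ h7 h8).2.1
          rw [pf_mid hP1 w1.le w2.le] at this
          linarith
        · rw [pf_eq hf.incM he h7 h8] at w3
          linarith
      · obtain ⟨k1, k2, k3⟩ := ih1 _ _ _ _ h
        refine ⟨k1.trans subset_union_left, k2.trans subset_union_left, fun w hw => ?_⟩
        obtain ⟨u5, u7, u8⟩ := k3 w hw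
        have := (pf_step hf hP hP1 (d1 u7)).trans_lt u8
        refine ⟨?_, d1 u7, this⟩
        rintro ⟨e, he | he, h6, h7, h8⟩
        · exact u5 ⟨e, he, h6, h7, h8⟩
        · have h9 := pf_eq (y := y) hP (hLo he) h6 h7
          linarith
    · rcases lt_trichotomy (pf x y (A ++ a :: (Q ++ b :: B)) (z 0)) (z 1) with h5 | h5 | h5
      · obtain ⟨a', M', Q', b', u1, u2⟩ := ih2 z (d2 h1) h5 h3
          fun h => h4 (segs_mono subset_union_left h)
        exact ⟨a', M', Q', b', Or.inr u1, u2⟩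
      · exact absurd (on_segs hP1 (d2 h1) h5.symm
          (subset_union_right.trans subset_union_left)) h4
      · have h6 : x a < z 0 ∧ z 0 < x b := by
          by_contra hn
          have := pf_out (y := y) hP hP1 h1 hn
          linarith
        refine ⟨a, M, Q, b, Or.inl rfl, hm.2 ⟨h6.1, h6.2, ?_, ?_⟩⟩
        · rwa [pf_mid hP h6.1.le h6.2.le] at h2
        · rwa [pf_mid hP1 h6.1.le h6.2.le] at h5

/-! ### slopes -/

lemma cvx_elim {L : List V} (h1 : Inc x L) (h2 : Cvx x y L) (e1 : (a, b) ∈ edges L)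
    (e2 : (b, c) ∈ edges L) : sl x y a b ≤ sl x y b c := by
  have hab : x a < x b := h1 _ e1
  have hbc : x b < x c := h1 _ e2
  have := cvx_le h1 h2 e1 e2 hbc.le le_rfl
  simp only at this
  rw [ln_right' hab] at this
  unfold ln at this
  nlinarith

lemma Face.neg {M Q : List V} (hf : Face x y a M Q b) : Face x (fun v => -y v) a Q M b := by
  refine ⟨hf.incQ, hf.incM, Tri.imp hf.ccv fun a b c _ _ h => ?_,
    Tri.imp hf.cvx fun a b c _ _ h => ?_, ?_⟩
  · rw [sl_neg, sl_neg]; linarith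
  · rw [sl_neg, sl_neg]; linarith
  · obtain ⟨d, -, -, hd2⟩ := fs_edge (x := x) (a := a) (c := b) M
    obtain ⟨d', -, -, hd2'⟩ := fs_edge (x := x) (a := a) (c := b) Q
    have := hf.lt
    rw [hd2, hd2'] at this ⊢
    rw [sl_neg, sl_neg]; linarith

lemma ccv_elim {L : List V} (h1 : Inc x L) (h2 : Ccv x y L) (e1 : (a, b) ∈ edges L)
    (e2 : (b, c) ∈ edges L) : sl x y b c ≤ sl x y a b := by
  have h5 : Cvx x (fun v => -y v) L :=
    Tri.imp h2 fun a b c _ _ h => by rw [sl_neg, sl_neg]; linarith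
  have := cvx_elim h1 h5 e1 e2
  rw [sl_neg, sl_neg] at this
  linarith

lemma pf_neg (L : List V) (t : ℝ) : pf x (fun v => -y v) L t = -pf x y L t := by
  unfold pf
  split_ifs with h
  · rw [ln_neg]
  · simp

/-- At a flat angle of the lower boundary of a face, a segment that leaves above the line enters
the face. -/
lemma flat_side {M Q : List V} (hf : Face x y a M Q b) {p q r w : V}
    (h1 : (p, q) ∈ edges (a :: (M ++ [b]))) (h2 : (q, r) ∈ edges (a :: (M ++ [b])))
    (hfl : sl x y p q = sl x y q r) (hw : y q + sl x y p q * (x w - x q) < y w) :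
    ∃ s : ℝ, 0 < s ∧ s < 1 ∧ x a < x q + s * (x w - x q) ∧ x q + s * (x w - x q) < x b ∧
      pf x y (a :: (M ++ [b])) (x q + s * (x w - x q)) < y q + s * (y w - y q) ∧
      y q + s * (y w - y q) < pf x y (a :: (Q ++ [b])) (x q + s * (x w - x q)) := by
  have hpq : x p < x q := hf.incM _ h1
  have hqr : x q < x r := hf.incM _ h2
  have hap : x a ≤ x p := (edge_range hf.incM h1).1
  have hrb : x r ≤ x b := (edge_range hf.incM h2).2
  have hlt := hf.pf_lt (t := x q) (by linarith) (by linarith)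
  rw [pf_left hf.incM h2] at hlt
  have ev : ∀ᶠ s in 𝓝 (0 : ℝ), (1 : ℝ) * 0 + s * 1 < 1 ∧ -x q + s * (-(x w - x q)) < -x p ∧
      x q + s * (x w - x q) < x r ∧ ∀ e ∈ edges (a :: (Q ++ [b])),
        y q + s * (y w - y q - sl x y e.1 e.2 * (x w - x q)) < ln x y e.1 e.2 (x q) := by
    refine (small_lt (by norm_num)).and ((small_lt (by linarith)).and ((small_lt hqr).and ?_))
    refine (edges_finite _).eventually_all.2 fun e he => small_lt ?_
    exact hlt.trans_le (pf_le_ccv hf.incQ hf.ccv he (cover Q a (by linarith) (by linarith)))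
  obtain ⟨s, s0, s1, s2, s3, s4⟩ := exists_small ev
  have t1 : x a < x q + s * (x w - x q) := by linarith
  have t2 : x q + s * (x w - x q) < x b := by linarith
  refine ⟨s, s0, by linarith, t1, t2, ?_, ?_⟩
  · have k : s * (y q + sl x y p q * (x w - x q)) < s * y w := mul_lt_mul_of_pos_left hw s0
    rcases le_total (x q + s * (x w - x q)) (x q) with h | h
    · rw [pf_eq hf.incM h1 (by linarith) h, ln_right' hpq]
      nlinarith
    · rw [pf_eq hf.incM h2 h s3.le]
      unfold ln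
      simp only
      rw [← hfl]
      nlinarith
  · obtain ⟨e, he, h3, h4⟩ := cover (x := x) Q a t1.le t2.le
    rw [pf_eq hf.incQ he h3 h4]
    have := s4 e he
    unfold ln at this ⊢
    nlinarith

lemma exists_delta [Finite V] (x : V → ℝ) (Fl : Set V) (lf rt : V → V)
    (h : ∀ b ∈ Fl, x (lf b) < x b ∧ x b < x (rt b)) (σ : V → ℝ) :
    ∃ δ : V → ℝ, ∀ b ∈ Fl, sl x δ (lf b) b - sl x δ b (rt b) = σ b := by
  classical
  let T : (V → ℝ) →ₗ[ℝ] (V → ℝ) :=
    { toFun := fun δ b => if b ∈ Fl then sl x δ (lf b) b - sl x δ b (rt b) else δ b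
      map_add' := fun δ δ' => by
        funext b
        simp only [Pi.add_apply, sl]
        split_ifs <;> ring
      map_smul' := fun k δ => by
        funext b
        simp only [Pi.smul_apply, sl, smul_eq_mul, RingHom.id_apply]
        split_ifs <;> ring }
  have key : ∀ δ : V → ℝ, T δ = 0 → ∀ b, δ b ≤ 0 := by
    intro δ hδ b0
    by_contra hb0
    have : Nonempty V := ⟨b0⟩
    obtain ⟨m, hm⟩ := Finite.exists_max δ
    obtain ⟨b, hb, hmin⟩ := Set.exists_min_image {v | δ v = δ m} x (toFinite _) ⟨m, rfl⟩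
    have hb' : δ b = δ m := hb
    have e : (if b ∈ Fl then sl x δ (lf b) b - sl x δ b (rt b) else δ b) = 0 := congrFun hδ b
    by_cases hF : b ∈ Fl
    · rw [if_pos hF] at e
      obtain ⟨k1, k2⟩ := h b hF
      have p1 : 0 ≤ sl x δ (lf b) b :=
        div_nonneg (by linarith [hm (lf b)]) (by linarith)
      have p2 : sl x δ b (rt b) ≤ 0 :=
        div_nonpos_of_nonpos_of_nonneg (by linarith [hm (rt b)]) (by linarith)
      have p3 : sl x δ (lf b) b = 0 := by linarith
      unfold sl at p3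
      rcases div_eq_zero_iff.1 p3 with p4 | p4
      · have := hmin (lf b) (show δ (lf b) = δ m by linarith)
        linarith
      · linarith
    · rw [if_neg hF] at e
      linarith [hm b0]
  have inj : Function.Injective T := by
    rw [injective_iff_map_eq_zero]
    intro δ hδ
    funext b
    have k1 := key δ hδ b
    have k2 := key (-δ) (by rw [map_neg, hδ, neg_zero]) b
    simp only [Pi.neg_apply] at k2
    show δ b = 0
    linarith
  obtain ⟨δ, hδ⟩ := LinearMap.injective_iff_surjective.1 inj σ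
  refine ⟨δ, fun b hb => ?_⟩
  have e : (if b ∈ Fl then sl x δ (lf b) b - sl x δ b (rt b) else δ b) = σ b := congrFun hδ b
  rwa [if_pos hb] at e

lemma sl_add (x y δ : V → ℝ) (ε : ℝ) (a b : V) :
    sl x (fun v => y v + ε * δ v) a b = sl x y a b + ε * sl x δ a b := by
  unfold sl; ring

lemma exists_eps [Finite V] (x y δ : V → ℝ) : ∃ ε : ℝ, 0 < ε ∧ ∀ a b c d,
    sl x y a b < sl x y c d →
      sl x (fun v => y v + ε * δ v) a b < sl x (fun v => y v + ε * δ v) c d := by
  apply exists_small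
  refine eventually_all.2 fun a => eventually_all.2 fun b => eventually_all.2 fun c =>
    eventually_all.2 fun d => eventually_all.2 fun h => ?_
  filter_upwards [small_lt (B := sl x δ a b - sl x δ c d) h] with ε k
  rw [sl_add, sl_add]; linarith

/-- strictly increasing slopes -/
def SCvx (x y : V → ℝ) (L : List V) : Prop :=
  ∀ a b c, (a, b) ∈ edges L → (b, c) ∈ edges L → sl x y a b < sl x y b c

/-- strictly decreasing slopes -/
def SCcv (x y : V → ℝ) (L : List V) : Prop :=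
  ∀ a b c, (a, b) ∈ edges L → (b, c) ∈ edges L → sl x y b c < sl x y a b

structure SFace (x y : V → ℝ) (a : V) (M Q : List V) (b : V) : Prop where
  face : Face x y a M Q b
  lo : SCvx x y (a :: (M ++ [b]))
  up : SCcv x y (a :: (Q ++ [b]))

lemma Face.strict {M Q : List V} (hf : Face x y a M Q b)
    (hop : ∀ a b c d, sl x y a b < sl x y c d → sl x y' a b < sl x y' c d)
    (lo : SCvx x y' (a :: (M ++ [b]))) (up : SCcv x y' (a :: (Q ++ [b]))) :
    SFace x y' a M Q b := by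
  refine ⟨⟨hf.incM, hf.incQ, tri_of_forall fun a b c h1 h2 => (lo a b c h1 h2).le,
    tri_of_forall fun a b c h1 h2 => (up a b c h1 h2).le, ?_⟩, lo, up⟩
  obtain ⟨d, -, -, hd2⟩ := fs_edge (x := x) (a := a) (c := b) M
  obtain ⟨d', -, -, hd2'⟩ := fs_edge (x := x) (a := a) (c := b) Q
  have := hf.lt
  rw [hd2, hd2'] at this ⊢
  exact hop _ _ _ _ this

lemma SFace.op {M Q : List V} (hf : SFace x y a M Q b)
    (hop : ∀ a b c d, sl x y a b < sl x y c d → sl x y' a b < sl x y' c d) :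
    SFace x y' a M Q b :=
  hf.face.strict hop (fun _ _ _ h1 h2 => hop _ _ _ _ (hf.lo _ _ _ h1 h2))
    fun _ _ _ h1 h2 => hop _ _ _ _ (hf.up _ _ _ h1 h2)

end Pool.Agent.MP_250189_co

/-! Strictly convex faces are interiors of convex polygons whose corners are all the vertices on
their boundary; removal of the flat angles of a shelling. -/

namespace Pool.Agent.MP_250189_co

open Set Filter Topology

variable {V : Type*} {G : SimpleGraph V} {x y : V → ℝ} {a b c v : V} {p : V → Pl}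

lemma chain_cases {M : List V} (hv : v ∈ a :: (M ++ [b])) : v = a ∨ v = b ∨
    ∃ q r, (q, v) ∈ edges (a :: (M ++ [b])) ∧ (v, r) ∈ edges (a :: (M ++ [b])) := by
  rcases List.mem_cons.1 hv with h | h
  · exact Or.inl h
  rcases List.mem_append.1 h with h | h
  · obtain ⟨M1, M2, rfl⟩ := List.append_of_mem h
    obtain ⟨q, hq⟩ := final_edge M1 a v
    obtain ⟨r, hr⟩ := first_edge M2 v b
    have e : a :: (M1 ++ v :: M2 ++ [b]) = (a :: M1) ++ v :: (M2 ++ [b]) := by simp
    rw [e, edges_split]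
    exact Or.inr (Or.inr ⟨q, r, Or.inl hq, Or.inr hr⟩)
  · exact Or.inr (Or.inl (by simpa using h))

lemma pf_vertex {M : List V} (h : Inc x (a :: (M ++ [b]))) (hv : v ∈ a :: (M ++ [b])) :
    pf x y (a :: (M ++ [b])) (x v) = y v := by
  rcases chain_cases hv with rfl | rfl | ⟨q, r, -, h2⟩
  exacts [pf_start h, pf_end h, pf_left h h2]

lemma Face.pf_le {M Q : List V} (hf : Face x y a M Q b) {t : ℝ} (h1 : x a ≤ t) (h2 : t ≤ x b) :
    pf x y (a :: (M ++ [b])) t ≤ pf x y (a :: (Q ++ [b])) t := by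
  rcases h1.eq_or_lt with h1 | h1
  · rw [← h1, pf_start hf.incM, pf_start hf.incQ]
  rcases h2.eq_or_lt with h2 | h2
  · rw [h2, pf_end hf.incM, pf_end hf.incQ]
  exact (hf.pf_lt h1 h2).le

lemma two_lines {s s' t h x0 y0 : ℝ} (hs : s ≠ s') (h1 : h = y0 + s * (t - x0))
    (h2 : h = y0 + s' * (t - x0)) : t = x0 ∧ h = y0 := by
  have : (s - s') * (t - x0) = 0 := by linarith
  rcases mul_eq_zero.1 this with k | k
  · exact absurd (sub_eq_zero.1 k) hs
  · exact ⟨by linarith, by rw [h1, k]; ring⟩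

lemma SFace.polygon {M Q : List V} (hs : SFace x y a M Q b) (hp0 : ∀ a, p a 0 = x a)
    (hp1 : ∀ a, p a 1 = y a) :
    cc x y a b (a :: (M ++ [b])) (a :: (Q ++ [b])) =
      convexHull ℝ (p '' {v | v ∈ a :: (M ++ [b]) ∨ v ∈ a :: (Q ++ [b])}) ∧
    interior (cc x y a b (a :: (M ++ [b])) (a :: (Q ++ [b]))) =
      oc x y a b (a :: (M ++ [b])) (a :: (Q ++ [b])) ∧
    (oc x y a b (a :: (M ++ [b])) (a :: (Q ++ [b]))).Nonempty ∧
    ∀ v, (v ∈ a :: (M ++ [b]) ∨ v ∈ a :: (Q ++ [b])) →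
      p v ∈ (cc x y a b (a :: (M ++ [b])) (a :: (Q ++ [b]))).extremePoints ℝ := by
  have hf := hs.face
  have hm := @mem_cc _ x y a b M Q hf.incM hf.incQ hf.cvx hf.ccv
  have hmo := @mem_oc _ x y a b M Q hf.incM hf.incQ hf.cvx hf.ccv
  have hin : ∀ v, (v ∈ a :: (M ++ [b]) ∨ v ∈ a :: (Q ++ [b])) →
      p v ∈ cc x y a b (a :: (M ++ [b])) (a :: (Q ++ [b])) := by
    intro v hv
    rw [hm, hp0, hp1]
    rcases hv with hv | hv
    · have h1 := hf.incM.head_le hv
      have h2 := Inc.le_last (L := a :: M) hf.incM hv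
      have h3 := pf_vertex (y := y) hf.incM hv
      exact ⟨h1, h2, h3.le, h3.ge.trans (hf.pf_le h1 h2)⟩
    · have h1 := hf.incQ.head_le hv
      have h2 := Inc.le_last (L := a :: Q) hf.incQ hv
      have h3 := pf_vertex (y := y) hf.incQ hv
      exact ⟨h1, h2, (hf.pf_le h1 h2).trans h3.le, h3.ge⟩
  have hab : x a < x b := Inc.lt (P := a :: M) (R := [b]) hf.incM (by simp) (by simp)
  refine ⟨Subset.antisymm (fun z hz => ?_) (convexHull_min ?_ (cc_convex _ _)),
    Subset.antisymm (fun z hz => ?_) (interior_maximal (oc_sub_cc _ _) (oc_open _ _)), ?_,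
    fun v hv => ?_⟩
  · obtain ⟨h1, h2, h3, h4⟩ := hm.1 hz
    have key : ∀ N : List V, Inc x (a :: (N ++ [b])) →
        (∀ v ∈ a :: (N ++ [b]), v ∈ a :: (M ++ [b]) ∨ v ∈ a :: (Q ++ [b])) →
        (WithLp.toLp 2 ![z 0, pf x y (a :: (N ++ [b])) (z 0)] : Pl) ∈
          convexHull ℝ (p '' {v | v ∈ a :: (M ++ [b]) ∨ v ∈ a :: (Q ++ [b])}) := by
      intro N hN hsub
      obtain ⟨e, he, k1, k2⟩ := cover (x := x) N a h1 h2
      refine (convex_convexHull ℝ _).segment_subset
        (subset_convexHull ℝ _ (mem_image_of_mem p (hsub _ (mem_of_edge he).1)))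
        (subset_convexHull ℝ _ (mem_image_of_mem p (hsub _ (mem_of_edge he).2))) ?_
      exact (mem_seg hp0 hp1 (hN e he)).2 ⟨k1, k2, pf_eq hN he k1 k2⟩
    refine (convex_convexHull ℝ _).segment_subset (key M hf.incM fun _ h => Or.inl h)
      (key Q hf.incQ fun _ h => Or.inr h) ?_
    generalize pf x y (a :: (M ++ [b])) (z 0) = lo at h3
    generalize pf x y (a :: (Q ++ [b])) (z 0) = hi at h4
    obtain ⟨s, t, s0, t0, st, e⟩ := (segment_eq_Icc (h3.trans h4)).symm ▸
      (show z 1 ∈ Icc lo hi from ⟨h3, h4⟩)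
    refine ⟨s, t, s0, t0, st, pl_ext ?_ ?_⟩
    · simp only [PiLp.add_apply, PiLp.smul_apply, smul_eq_mul, Matrix.cons_val_zero]
      rw [← add_mul, st, one_mul]
    · simpa using e
  · rintro _ ⟨v, hv, rfl⟩
    exact hin v hv
  · have hc : Continuous fun s : ℝ => z + s • (WithLp.toLp 2 ![0, 1] : Pl) := by fun_prop
    have ev : ∀ᶠ s in 𝓝 (0 : ℝ), z + s • (WithLp.toLp 2 ![0, 1] : Pl) ∈
        cc x y a b (a :: (M ++ [b])) (a :: (Q ++ [b])) :=
      hc.continuousAt.eventually (by simpa using mem_interior_iff_mem_nhds.1 hz)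
    have ev2 : ∀ᶠ s in 𝓝 (0 : ℝ), z + (-s) • (WithLp.toLp 2 ![0, 1] : Pl) ∈
        cc x y a b (a :: (M ++ [b])) (a :: (Q ++ [b])) :=
      (continuous_neg.tendsto' (0 : ℝ) 0 neg_zero).eventually ev
    obtain ⟨s, s0, k1, k2⟩ := exists_small (ev.and ev2)
    obtain ⟨h1, h2, -, h4⟩ := hm.1 k1
    obtain ⟨-, -, h3, -⟩ := hm.1 k2
    simp only [PiLp.add_apply, PiLp.smul_apply, smul_eq_mul, Matrix.cons_val_zero,
      Matrix.cons_val_one, mul_zero, add_zero, mul_one] at h1 h2 h3 h4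
    refine hmo.2 ⟨h1.lt_of_ne fun h => ?_, h2.lt_of_ne fun h => ?_, by linarith, by linarith⟩
    · rw [← h, pf_start hf.incM] at h3
      rw [← h, pf_start hf.incQ] at h4
      linarith
    · rw [h, pf_end hf.incM] at h3
      rw [h, pf_end hf.incQ] at h4
      linarith
  · have := hf.pf_lt (t := (x a + x b) / 2) (by linarith) (by linarith)
    refine ⟨WithLp.toLp 2 ![(x a + x b) / 2, (pf x y (a :: (M ++ [b])) ((x a + x b) / 2) +
      pf x y (a :: (Q ++ [b])) ((x a + x b) / 2)) / 2], hmo.2 ?_⟩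
    simp only [Matrix.cons_val_zero, Matrix.cons_val_one]
    refine ⟨by linarith, by linarith, by linarith, by linarith⟩
  · refine mem_extremePoints_iff_left.2 ⟨hin v hv, fun z1 h1 z2 h2 hz => ?_⟩
    obtain ⟨s, t, s0, t0, st, e⟩ := hz
    have e0 : s * z1 0 + t * z2 0 = x v := by
      have := congrArg (fun w : Pl => w 0) e
      simpa [hp0] using this
    have e1 : s * z1 1 + t * z2 1 = y v := by
      have := congrArg (fun w : Pl => w 1) e
      simpa [hp1] using this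
    obtain rfl : t = 1 - s := by linarith
    have ca : v = a → z1 = p v := by
      rintro rfl
      obtain ⟨a1, -, a3, a4⟩ := hm.1 h1
      obtain ⟨b1, -, -, -⟩ := hm.1 h2
      have : z1 0 = x v := by nlinarith
      rw [this, pf_start hf.incM] at a3
      rw [this, pf_start hf.incQ] at a4
      exact pl_ext (by rw [hp0, this]) (by rw [hp1]; linarith)
    have cb : v = b → z1 = p v := by
      rintro rfl
      obtain ⟨-, a1, a3, a4⟩ := hm.1 h1
      obtain ⟨-, b1, -, -⟩ := hm.1 h2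
      have : z1 0 = x v := by nlinarith
      rw [this, pf_end hf.incM] at a3
      rw [this, pf_end hf.incQ] at a4
      exact pl_ext (by rw [hp0, this]) (by rw [hp1]; linarith)
    simp only [cc, mem_inter_iff, mem_ofPred_eq, mem_iInter] at h1 h2
    have lo : ∀ k : ℝ, y v + k * (z1 0 - x v) ≤ z1 1 → y v + k * (z2 0 - x v) ≤ z2 1 →
        z1 1 = y v + k * (z1 0 - x v) := by
      intro k k1 k2
      have : s * (z1 1 - (y v + k * (z1 0 - x v))) +
          (1 - s) * (z2 1 - (y v + k * (z2 0 - x v))) = 0 := by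
        linear_combination e1 - k * e0
      nlinarith
    have hi : ∀ k : ℝ, z1 1 ≤ y v + k * (z1 0 - x v) → z2 1 ≤ y v + k * (z2 0 - x v) →
        z1 1 = y v + k * (z1 0 - x v) := by
      intro k k1 k2
      have : s * (z1 1 - (y v + k * (z1 0 - x v))) +
          (1 - s) * (z2 1 - (y v + k * (z2 0 - x v))) = 0 := by
        linear_combination e1 - k * e0
      nlinarith
    rcases hv with hv | hv
    · rcases chain_cases hv with h | h | ⟨q, r, k1, k2⟩
      · exact ca h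
      · exact cb h
      · have j1 := lo (sl x y q v) (by rw [← ln_right' (hf.incM _ k1)]; exact h1.1.2 _ k1)
          (by rw [← ln_right' (hf.incM _ k1)]; exact h2.1.2 _ k1)
        have j2 := lo (sl x y v r) (h1.1.2 _ k2) (h2.1.2 _ k2)
        obtain ⟨j3, j4⟩ := two_lines (hs.lo q v r k1 k2).ne j1 j2
        exact pl_ext (by rw [hp0, j3]) (by rw [hp1, j4])
    · rcases chain_cases hv with h | h | ⟨q, r, k1, k2⟩
      · exact ca h
      · exact cb h
      · have j1 := hi (sl x y q v) (by rw [← ln_right' (hf.incQ _ k1)]; exact h1.2 _ k1)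
          (by rw [← ln_right' (hf.incQ _ k1)]; exact h2.2 _ k1)
        have j2 := hi (sl x y v r) (h1.2 _ k2) (h2.2 _ k2)
        obtain ⟨j3, j4⟩ := two_lines (hs.up q v r k1 k2).ne' j1 j2
        exact pl_ext (by rw [hp0, j3]) (by rw [hp1, j4])

lemma noncross (hx : Function.Injective x) {P P' : List V} {E : Set (V × V)}
    (inv : Inv x y P E P')
    (hE : ∀ a b, G.Adj a b ↔ (a, b) ∈ E ∪ edges P ∨ (b, a) ∈ E ∪ edges P)
    (hdeg : ∀ a, ∃ b, G.Adj a b) (hp0 : ∀ a, p a 0 = x a) (hp1 : ∀ a, p a 1 = y a) :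
    (∀ a b w : V, G.Adj a b → w ≠ a → w ≠ b → p w ∉ segment ℝ (p a) (p b)) ∧
    (∀ a b c d : V, G.Adj a b → G.Adj c d → s(a, b) ≠ s(c, d) →
      segment ℝ (p a) (p b) ∩ segment ℝ (p c) (p d) ⊆ ({p a, p b} : Set Pl) ∩ {p c, p d}) ∧
    ∀ z, (∃ a b, G.Adj a b ∧ z ∈ segment ℝ (p a) (p b)) ↔ z ∈ segs x y (E ∪ edges P) := by
  set EE := E ∪ edges P with hEE
  have ends : ∀ a b c d, (a, b) ∈ EE → (c, d) ∈ EE → (a, b) ≠ (c, d) → ∀ z,
      z ∈ segment ℝ (p a) (p b) → z ∈ segment ℝ (p c) (p d) → z ∈ ({p a, p b} : Set Pl) := by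
    intro a b c d h1 h2 h3 z h4 h5
    have hab : x a < x b := (inv.s2 _ h1).1
    have hcd : x c < x d := (inv.s2 _ h2).1
    obtain ⟨a1, a2, a3⟩ := (mem_seg hp0 hp1 hab).1 h4
    obtain ⟨c1, c2, c3⟩ := (mem_seg hp0 hp1 hcd).1 h5
    rcases a1.eq_or_lt with a1 | a1
    · left; exact pl_ext (by rw [hp0, a1]) (by rw [hp1, a3, ← a1, ln_left])
    rcases a2.eq_or_lt with a2 | a2
    · right; exact pl_ext (by rw [hp0, a2]) (by rw [hp1, a3, a2, ln_right hab])
    exact absurd (inv.s4 _ h1 _ h2 (z 0) a1 a2 c1 c2 (a3.symm.trans c3)) h3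
  have ends2 : ∀ a b c d, G.Adj a b → G.Adj c d → s(a, b) ≠ s(c, d) → ∀ z,
      z ∈ segment ℝ (p a) (p b) → z ∈ segment ℝ (p c) (p d) → z ∈ ({p a, p b} : Set Pl) := by
    intro a b c d h1 h2 h3 z h4 h5
    rcases (hE a b).1 h1 with h1 | h1 <;> rcases (hE c d).1 h2 with h2 | h2
    · exact ends a b c d h1 h2 (fun h => h3 (by simp_all)) z h4 h5
    · exact ends a b d c h1 h2 (fun h => h3 (by simp_all)) z h4 (by rwa [segment_symm])
    · rw [pair_comm]
      exact ends b a c d h1 h2 (fun h => h3 (by simp_all)) z (by rwa [segment_symm]) h5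
    · rw [pair_comm]
      exact ends b a d c h1 h2 (fun h => h3 (by simp_all)) z (by rwa [segment_symm])
        (by rwa [segment_symm])
  refine ⟨?_, ?_, fun z => ⟨?_, ?_⟩⟩
  · intro a b v h1 h2 h3 h4
    obtain ⟨c, hc⟩ := hdeg v
    have h5 := ends2 a b v c h1 hc (fun h => by
      rcases Sym2.eq_iff.1 h with h | h
      · exact h2 h.1.symm
      · exact h3 h.2.symm) _ h4 (left_mem_segment _ _ _)
    rcases h5 with h5 | h5
    · exact h2 (hx (by rw [← hp0, ← hp0, h5]))
    · exact h3 (hx (by rw [← hp0, ← hp0, mem_singleton_iff.1 h5]))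
  · rintro a b c d h1 h2 h3 z ⟨h4, h5⟩
    exact ⟨ends2 a b c d h1 h2 h3 z h4 h5, ends2 c d a b h2 h1 h3.symm z h5 h4⟩
  · rintro ⟨a, b, h1, h2⟩
    rcases (hE a b).1 h1 with h1 | h1
    · exact ⟨_, h1, (mem_seg hp0 hp1 (inv.s2 _ h1).1).1 h2⟩
    · exact ⟨_, h1, (mem_seg hp0 hp1 (inv.s2 _ h1).1).1 (by rwa [segment_symm])⟩
  · rintro ⟨e, he, h⟩
    exact ⟨e.1, e.2, (hE _ _).2 (Or.inl he), (mem_seg hp0 hp1 (inv.s2 _ he).1).2 h⟩

lemma line_unique (hx : Function.Injective x)
    (n1 : ∀ a b w : V, G.Adj a b → w ≠ a → w ≠ b → p w ∉ segment ℝ (p a) (p b))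
    (hp0 : ∀ a, p a 0 = x a) (hp1 : ∀ a, p a 1 = y a) {q w w' : V} {k : ℝ} (h1 : G.Adj q w)
    (h2 : G.Adj q w') (e1 : y w = y q + k * (x w - x q)) (e2 : y w' = y q + k * (x w' - x q))
    (hs : 0 < (x w - x q) * (x w' - x q)) : w = w' := by
  have aux : ∀ w w', G.Adj q w → G.Adj q w' → y w = y q + k * (x w - x q) →
      y w' = y q + k * (x w' - x q) → 0 < (x w' - x q) / (x w - x q) →
      (x w' - x q) / (x w - x q) < 1 → False := by
    intro w w' h1 h2 e1 e2 l0 l1
    have d0 : x w - x q ≠ 0 := sub_ne_zero.2 (hx.ne h1.ne.symm)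
    refine n1 q w w' h1 h2.ne.symm (fun e => ?_) ⟨1 - (x w' - x q) / (x w - x q),
      (x w' - x q) / (x w - x q), by linarith, l0.le, by ring, pl_ext ?_ ?_⟩
    · rw [e, div_self d0] at l1
      exact lt_irrefl _ l1
    · simp only [PiLp.add_apply, PiLp.smul_apply, smul_eq_mul, hp0]
      field_simp; ring
    · simp only [PiLp.add_apply, PiLp.smul_apply, smul_eq_mul, hp1]
      rw [e1, e2]; field_simp; ring
  have d0 : x w - x q ≠ 0 := sub_ne_zero.2 (hx.ne h1.ne.symm)
  have l0 : 0 < (x w' - x q) / (x w - x q) := by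
    rw [← mul_div_mul_left _ _ d0]
    exact div_pos hs (mul_self_pos.2 d0)
  rcases lt_trichotomy ((x w' - x q) / (x w - x q)) 1 with h | h | h
  · exact (aux w w' h1 h2 e1 e2 l0 h).elim
  · rw [div_eq_one_iff_eq d0] at h
    exact hx (by linarith)
  · refine (aux w' w h2 h1 e2 e1 ?_ ?_).elim
    · rw [← inv_div]; exact inv_pos.2 l0
    · rw [← inv_div]; exact inv_lt_one_of_one_lt₀ h

lemma sl_left (h : x a < x b) : y a = y b + sl x y a b * (x a - x b) := by
  rw [← ln_right' h, ln_left]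

lemma sl_right (h : x a < x b) : y b = y a + sl x y a b * (x b - x a) := (ln_right h).symm

theorem strictify [Finite V] (hx : Function.Injective x) {u z : V} {P : List V}
    {E : Set (V × V)} {Fs : Set (V × List V × List V × V)}
    (hs : ShF (u :: (P ++ [z])) E (u :: ([] ++ [z])) Fs)
    (hF : ∀ a M Q b, (a, M, Q, b) ∈ Fs → Face x y a M Q b)
    (hinc : Inc x (u :: (P ++ [z]))) (hcvx : Cvx x y (u :: (P ++ [z])))
    (hE : ∀ a b, G.Adj a b ↔
      (a, b) ∈ E ∪ edges (u :: (P ++ [z])) ∨ (b, a) ∈ E ∪ edges (u :: (P ++ [z])))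
    (hdeg : ∀ q a c, ∃ w, G.Adj q w ∧ w ≠ a ∧ w ≠ c) :
    ∃ y' : V → ℝ, (∀ a M Q b, (a, M, Q, b) ∈ Fs → SFace x y' a M Q b) ∧ SFace x y' u P [] z := by
  classical
  let p : V → Pl := fun v => WithLp.toLp 2 ![x v, y v]
  have hp0 : ∀ a, p a 0 = x a := fun _ => rfl
  have hp1 : ∀ a, p a 1 = y a := fun _ => rfl
  have inv := (hs.shell hF).inv hinc
  obtain ⟨n1, -, hD⟩ := noncross hx inv hE (fun a => (hdeg a a a).imp fun _ h => h.1) hp0 hp1
  obtain ⟨fc, -⟩ := hs.faces hF hinc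
  have vx : ∀ q w, G.Adj q w → x w ∈ dom x (u :: (P ++ [z])) ∧
      pf x y (u :: (P ++ [z])) (x w) ≤ y w ∧ y w ≤ pf x y (u :: ([] ++ [z])) (x w) := by
    intro q w h
    rcases (hE q w).1 h with h | h
    · have := (inv.s2 _ h).2 (x w) (inv.s2 _ h).1.le le_rfl
      rwa [ln_right (inv.s2 _ h).1] at this
    · have := (inv.s2 _ h).2 (x w) le_rfl (inv.s2 _ h).1.le
      rwa [ln_left] at this
  have hf0 : Face x y u P [] z := by
    refine ⟨hinc, inv.inc, hcvx, by simp [Ccv], ?_⟩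
    obtain ⟨d, hd, -, hd2⟩ := fs_edge (x := x) (a := u) (c := z) P
    rw [hd2]
    by_contra hn
    have huz : (u, z) ∈ edges (u :: ([] ++ [z])) := by simp
    obtain ⟨w, k1, k2, -⟩ := hdeg u z z
    obtain ⟨k3, k4, k5⟩ := vx u w k1
    have k6 := cvx_le_pf hinc hcvx hd k3
    rw [mem_dom hinc] at k3
    rw [pf_eq inv.inc huz k3.1 k3.2] at k5
    refine n1 u z w ((hE _ _).2 (Or.inl (inv.s3 huz))) k1.ne.symm k2
      ((mem_seg hp0 hp1 (inv.inc _ huz)).2 ⟨k3.1, k3.2, le_antisymm k5 ?_⟩)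
    rw [hp0, hp1]
    refine le_trans ?_ (k6.trans k4)
    have : sl x y u z ≤ sl x y u d := not_lt.1 hn
    unfold ln
    simp only
    nlinarith [k3.1]
  let Lo : V → V → V → Prop := fun q v r => ∃ a M Q b, (a, M, Q, b) ∈ Fs ∧
    (q, v) ∈ edges (a :: (M ++ [b])) ∧ (v, r) ∈ edges (a :: (M ++ [b]))
  let Up : V → V → V → Prop := fun q v r => ∃ a M Q b, (a, M, Q, b) ∈ Fs ∧
    (q, v) ∈ edges (a :: (Q ++ [b])) ∧ (v, r) ∈ edges (a :: (Q ++ [b]))
  let Ou : V → V → V → Prop := fun q v r =>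
    (q, v) ∈ edges (u :: (P ++ [z])) ∧ (v, r) ∈ edges (u :: (P ++ [z]))
  have adj : ∀ q v r, (Lo q v r ∨ Up q v r ∨ Ou q v r) →
      G.Adj v q ∧ G.Adj v r ∧ x q < x v ∧ x v < x r := by
    intro q v r h
    have : (q, v) ∈ E ∪ edges (u :: (P ++ [z])) ∧ (v, r) ∈ E ∪ edges (u :: (P ++ [z])) := by
      rcases h with ⟨a, M, Q, b, h, h1, h2⟩ | ⟨a, M, Q, b, h, h1, h2⟩ | ⟨h1, h2⟩
      · exact ⟨(fc _ _ _ _ h).1 h1, (fc _ _ _ _ h).1 h2⟩
      · exact ⟨(fc _ _ _ _ h).2.1 h1, (fc _ _ _ _ h).2.1 h2⟩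
      · exact ⟨Or.inr h1, Or.inr h2⟩
    exact ⟨(hE _ _).2 (Or.inr this.1), (hE _ _).2 (Or.inl this.2), (inv.s2 _ this.1).1,
      (inv.s2 _ this.2).1⟩
  have onseg : ∀ v w (s : ℝ), G.Adj v w → 0 < s → s < 1 →
      (WithLp.toLp 2 ![x v + s * (x w - x v), y v + s * (y w - y v)] : Pl) ∈
        segs x y (E ∪ edges (u :: (P ++ [z]))) := by
    intro v w s h s0 s1
    refine (hD _).1 ⟨v, w, h, 1 - s, s, by linarith, s0.le, by ring, pl_ext ?_ ?_⟩
    · simp only [PiLp.add_apply, PiLp.smul_apply, smul_eq_mul, hp0, Matrix.cons_val_zero]; ring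
    · simp only [PiLp.add_apply, PiLp.smul_apply, smul_eq_mul, hp1, Matrix.cons_val_one,
        Matrix.cons_val_zero]
      ring
  have below : ∀ q v r, Lo q v r → sl x y q v = sl x y v r → ∀ w, G.Adj v w →
      y w ≤ y v + sl x y q v * (x w - x v) := by
    rintro q v r ⟨a, M, Q, b, h, h1, h2⟩ hfl w hw
    by_contra hn
    have hf := hF _ _ _ _ h
    obtain ⟨s, s0, s1, k⟩ := flat_side hf h1 h2 hfl (not_le.1 hn)
    exact ((fc _ _ _ _ h).2.2 _ ((mem_oc hf.incM hf.incQ hf.cvx hf.ccv).2 k)).1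
      (onseg v w s hw s0 s1)
  have above : ∀ q v r, (Up q v r ∨ Ou q v r) → sl x y q v = sl x y v r → ∀ w, G.Adj v w →
      y v + sl x y q v * (x w - x v) ≤ y w := by
    rintro q v r (⟨a, M, Q, b, h, h1, h2⟩ | ⟨h1, h2⟩) hfl w hw
    · by_contra hn
      have hf := hF _ _ _ _ h
      obtain ⟨s, s0, s1, k1, k2, k3, k4⟩ := flat_side (w := w) hf.neg h1 h2
        (by rw [sl_neg, sl_neg, hfl]) (by rw [sl_neg]; linarith)
      rw [pf_neg] at k3 k4
      refine ((fc _ _ _ _ h).2.2 _ ((mem_oc hf.incM hf.incQ hf.cvx hf.ccv).2 ?_)).1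
        (onseg v w s hw s0 s1)
      simp only [Matrix.cons_val_zero, Matrix.cons_val_one]
      exact ⟨k1, k2, by linarith, by linarith⟩
    · obtain ⟨k3, k4, -⟩ := vx v w hw
      rw [← ln_right' (hinc _ h1)]
      exact (cvx_le_pf hinc hcvx h1 k3).trans k4
  have nb : ∀ q v r q' r', Up q v r → Ou q' v r' → False := by
    rintro q v r q' r' ⟨a, M, Q, b, h, h1, h2⟩ ⟨h3, -⟩
    have hf := hF _ _ _ _ h
    have k1 : x a < x v := (edge_range hf.incQ h1).1.trans_lt (hf.incQ _ h1)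
    have k2 : x v < x b := (hf.incQ _ h2).trans_le (edge_range hf.incQ h2).2
    have k3 := hf.pf_lt k1 k2
    obtain ⟨e, he, k4, k5⟩ := cover (x := x) M a k1.le k2.le
    rw [pf_left hf.incQ h2, pf_eq hf.incM he k4 k5] at k3
    have k6 := ((inv.s2 e ((fc _ _ _ _ h).1 he)).2 _ k4 k5).2.1
    rw [pf_right hinc h3] at k6
    linarith
  let T : V → V → V → Prop := fun q v r =>
    (Lo q v r ∨ Up q v r ∨ Ou q v r) ∧ sl x y q v = sl x y v r
  have uq : ∀ q v r q' r', T q v r → T q' v r' → q = q' ∧ r = r' := by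
    rintro q v r q' r' ⟨h, hfl⟩ ⟨h', hfl'⟩
    obtain ⟨a1, a2, a3, a4⟩ := adj _ _ _ h
    obtain ⟨b1, b2, b3, b4⟩ := adj _ _ _ h'
    have e1 := sl_left (y := y) a3
    have e2 := sl_right (y := y) a4
    have e3 := sl_left (y := y) b3
    have e4 := sl_right (y := y) b4
    rw [← hfl] at e2
    rw [← hfl'] at e4
    have : sl x y q' v = sl x y q v := by
      rcases h with h | h
      · have k1 := below _ _ _ h hfl _ b1
        have k2 := below _ _ _ h hfl _ b2
        apply le_antisymm <;> nlinarith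
      · have k1 := above _ _ _ h hfl _ b1
        have k2 := above _ _ _ h hfl _ b2
        apply le_antisymm <;> nlinarith
    rw [this] at e3 e4
    exact ⟨line_unique hx n1 hp0 hp1 a1 b1 e1 e3 (mul_pos_of_neg_of_neg (by linarith) (by linarith)),
      line_unique hx n1 hp0 hp1 a2 b2 e2 e4 (mul_pos (by linarith) (by linarith))⟩
  have ch : ∀ v, ∃ q r, (∃ q r, T q v r) → T q v r := by
    intro v
    by_cases h : ∃ q r, T q v r
    · obtain ⟨q, r, h⟩ := h
      exact ⟨q, r, fun _ => h⟩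
    · exact ⟨v, v, fun k => absurd k h⟩
  choose lf rt hch using ch
  obtain ⟨δ, hδ⟩ := exists_delta x {v | ∃ q r, T q v r} lf rt
    (fun v hv => (adj _ _ _ (hch v hv).1).2.2)
    (fun v => if ∃ q r, Up q v r ∧ sl x y q v = sl x y v r then 1 else -1)
  have hδ' : ∀ q v r, T q v r → sl x δ q v - sl x δ v r =
      if ∃ q r, Up q v r ∧ sl x y q v = sl x y v r then 1 else -1 := by
    intro q v r h
    obtain ⟨rfl, rfl⟩ := uq _ _ _ _ _ h (hch v ⟨q, r, h⟩)
    exact hδ v ⟨_, _, h⟩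
  obtain ⟨ε, ε0, hop⟩ := exists_eps x y δ
  have dn : ∀ q v r, (Lo q v r ∨ Ou q v r) → sl x y q v ≤ sl x y v r →
      sl x (fun v => y v + ε * δ v) q v < sl x (fun v => y v + ε * δ v) v r := by
    intro q v r h hle
    rcases hle.eq_or_lt with hfl | hlt
    · have hT : T q v r := ⟨h.imp id Or.inr, hfl⟩
      have := hδ' q v r hT
      rw [if_neg] at this
      · rw [sl_add, sl_add]; nlinarith
      · rintro ⟨q', r', k1, k2⟩
        rcases h with h | h
        · obtain ⟨rfl, rfl⟩ := uq _ _ _ _ _ hT ⟨Or.inr (Or.inl k1), k2⟩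
          obtain ⟨a1, a2, a3, a4⟩ := adj _ _ _ hT.1
          obtain ⟨w, j1, j2, j3⟩ := hdeg v q r
          have e := le_antisymm (below _ _ _ h hfl w j1) (above _ _ _ (Or.inl k1) hfl w j1)
          rcases lt_or_gt_of_ne (hx.ne j1.ne) with j | j
          · have e2 := sl_right (y := y) a4
            rw [← hfl] at e2
            exact j3 (line_unique hx n1 hp0 hp1 j1 a2 e e2 (mul_pos (by linarith) (by linarith)))
          · exact j2 (line_unique hx n1 hp0 hp1 j1 a1 e (sl_left a3)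
              (mul_pos_of_neg_of_neg (by linarith) (by linarith)))
        · exact nb _ _ _ _ _ k1 h
    · exact hop _ _ _ _ hlt
  have upp : ∀ q v r, Up q v r → sl x y v r ≤ sl x y q v →
      sl x (fun v => y v + ε * δ v) v r < sl x (fun v => y v + ε * δ v) q v := by
    intro q v r h hle
    rcases hle.eq_or_lt with hfl | hlt
    · have := hδ' q v r ⟨Or.inr (Or.inl h), hfl.symm⟩
      rw [if_pos ⟨q, r, h, hfl.symm⟩] at this
      rw [sl_add, sl_add]; nlinarith
    · exact hop _ _ _ _ hlt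
  refine ⟨fun v => y v + ε * δ v, fun a M Q b h => ?_, hf0.strict hop
    (fun q v r h1 h2 => dn q v r (Or.inr ⟨h1, h2⟩) (cvx_elim hinc hcvx h1 h2)) ?_⟩
  · have hf := hF _ _ _ _ h
    exact hf.strict hop
      (fun q v r h1 h2 => dn q v r (Or.inl ⟨a, M, Q, b, h, h1, h2⟩) (cvx_elim hf.incM hf.cvx h1 h2))
      fun q v r h1 h2 => upp q v r ⟨a, M, Q, b, h, h1, h2⟩ (ccv_elim hf.incQ hf.ccv h1 h2)
  · intro q v r h1 h2
    have k := inv.inc _ h1
    simp at h1 h2
    rw [h1.1, h2.1] at k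
    exact absurd k (lt_irrefl _)

end Pool.Agent.MP_250189_co

/-! Assembly: greedy noncrossing drawings with strictly convex faces. -/

namespace Pool.Agent.MP_250189_co

open Set

variable {V : Type*} {G : SimpleGraph V} {x y : V → ℝ} {p : V → Pl}

lemma greedy_path [Finite V]
    (h : ∀ u v : V, u ≠ v → ∃ w, G.Adj u w ∧ dist (p w) (p v) < dist (p u) (p v)) :
    H72.Greedy G p := by
  intro u v _
  suffices k : ∀ u, ∃ w : G.Walk u v, w.IsPath ∧
      (∀ d ∈ w.darts, dist (p d.snd) (p v) < dist (p d.fst) (p v)) ∧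
      ∀ s ∈ w.support, dist (p s) (p v) ≤ dist (p u) (p v) from
    (k u).imp fun _ k => ⟨k.1, k.2.1⟩
  by_contra hn
  push Not at hn
  obtain ⟨a, ha, hmin⟩ := Set.exists_min_image {u | ∀ w : G.Walk u v, w.IsPath →
      (∀ d ∈ w.darts, dist (p d.snd) (p v) < dist (p d.fst) (p v)) →
      ∃ s ∈ w.support, dist (p u) (p v) < dist (p s) (p v)} (fun u => dist (p u) (p v))
    (toFinite _) hn
  by_cases hav : a = v
  · subst hav
    obtain ⟨s, h1, h2⟩ := ha .nil (by simp) (by simp)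
    simp only [SimpleGraph.Walk.support_nil, List.mem_singleton] at h1
    rw [h1] at h2
    exact lt_irrefl _ h2
  · obtain ⟨b, hab, hlt⟩ := h a v hav
    have : ∃ w : G.Walk b v, w.IsPath ∧
        (∀ d ∈ w.darts, dist (p d.snd) (p v) < dist (p d.fst) (p v)) ∧
        ∀ s ∈ w.support, dist (p s) (p v) ≤ dist (p b) (p v) := by
      by_contra k
      push Not at k
      exact absurd (hmin b k) (not_le.2 hlt)
    obtain ⟨w, w1, w2, w3⟩ := this
    obtain ⟨s, h1, h2⟩ := ha (.cons hab w)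
      ((SimpleGraph.Walk.cons_isPath_iff _ _).2 ⟨w1, fun k => absurd (w3 a k) (not_le.2 hlt)⟩) (by
        intro d hd
        rw [SimpleGraph.Walk.darts_cons] at hd
        rcases List.mem_cons.1 hd with rfl | hd
        exacts [hlt, w2 d hd])
    rw [SimpleGraph.Walk.support_cons] at h1
    rcases List.mem_cons.1 h1 with rfl | h1
    · exact lt_irrefl _ h2
    · linarith [w3 s h1]

lemma strict_final (hx : Function.Injective x) {u z : V} {P : List V}
    {E : Set (V × V)} {Fs : Set (V × List V × List V × V)}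
    (hs : ShF (u :: (P ++ [z])) E (u :: ([] ++ [z])) Fs)
    (hF : ∀ a M Q b, (a, M, Q, b) ∈ Fs → SFace x y a M Q b) (h0 : SFace x y u P [] z)
    (hE : ∀ a b, G.Adj a b ↔
      (a, b) ∈ E ∪ edges (u :: (P ++ [z])) ∨ (b, a) ∈ E ∪ edges (u :: (P ++ [z])))
    (hdeg : ∀ a, ∃ b, G.Adj a b) (hp0 : ∀ a, p a 0 = x a) (hp1 : ∀ a, p a 1 = y a) :
    H72.Noncrossing G p ∧ H72.StrictlyConvexFaces G p := by
  have hF' : ∀ a M Q b, (a, M, Q, b) ∈ Fs → Face x y a M Q b := fun _ _ _ _ h => (hF _ _ _ _ h).face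
  have hinc := h0.face.incM
  have inv := (hs.shell hF').inv hinc
  obtain ⟨n1, n2, hD⟩ := noncross hx inv hE hdeg hp0 hp1
  obtain ⟨fc, fz⟩ := hs.faces hF' hinc
  set EE := E ∪ edges (u :: (P ++ [z])) with hEE
  have hDr : H72.Drawn G p = segs x y EE := by
    ext w
    rw [← hD]
    refine ⟨?_, Or.inr⟩
    rintro (⟨a, rfl⟩ | h)
    · obtain ⟨b, hb⟩ := hdeg a
      exact ⟨a, b, hb, left_mem_segment _ _ _⟩
    · exact h
  have ext : ∀ a M Q b, SFace x y a M Q b → edges (a :: (M ++ [b])) ⊆ EE →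
      edges (a :: (Q ++ [b])) ⊆ EE → ∀ v,
      p v ∈ frontier (cc x y a b (a :: (M ++ [b])) (a :: (Q ++ [b]))) →
      p v ∈ (cc x y a b (a :: (M ++ [b])) (a :: (Q ++ [b]))).extremePoints ℝ := by
    intro a M Q b hf e1 e2 v hv
    obtain ⟨-, k2, -, k4⟩ := hf.polygon hp0 hp1
    rw [(cc_closed _ _).frontier_eq, k2] at hv
    obtain ⟨e, he, h⟩ := (cc_cases hf.face.incM hf.face.incQ hf.face.cvx hf.face.ccv
      subset_union_left subset_union_right hv.1).resolve_left hv.2
    have hee : e ∈ EE := he.elim (fun k => e1 k) fun k => e2 k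
    have hseg := (mem_seg hp0 hp1 (inv.s2 e hee).1).2 h
    have : v = e.1 ∨ v = e.2 := by
      by_contra hn
      push Not at hn
      exact n1 e.1 e.2 v ((hE _ _).2 (Or.inl hee)) hn.1 hn.2 hseg
    refine k4 v (he.imp (fun k => ?_) fun k => ?_) <;> rcases this with rfl | rfl
    exacts [(mem_of_edge k).1, (mem_of_edge k).2, (mem_of_edge k).1, (mem_of_edge k).2]
  refine ⟨⟨n1, n2⟩, fun w hw => ?_⟩
  rw [hDr] at hw ⊢
  have f0 := h0.face
  have hm := @mem_cc _ x y u z P [] hinc f0.incQ f0.cvx f0.ccv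
  have hmo := @mem_oc _ x y u z P [] hinc f0.incQ f0.cvx f0.ccv
  have hcs := @cc_cases _ x y u z P [] hinc f0.incQ f0.cvx f0.ccv EE subset_union_right inv.s3
  by_cases hR : w ∈ cc x y u z (u :: (P ++ [z])) (u :: ([] ++ [z]))
  · obtain ⟨h1, h2, h3, h4⟩ := hmo.1 ((hcs hR).resolve_right hw)
    obtain ⟨a, M, Q, b, h, hz⟩ := fz w (cover P u h1.le h2.le) h3 h4 hw
    have hf := hF _ _ _ _ h
    obtain ⟨c1, c2, c3⟩ := fc _ _ _ _ h
    obtain ⟨k1, k2, k3, -⟩ := hf.polygon hp0 hp1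
    have hcomp := comp_eq (D := segs x y EE) hz (oc_open _ _) (oc_convex _ _).isPreconnected
      (fun v hv => (c3 v hv).1) fun v hv =>
        cc_cases hf.face.incM hf.face.incQ hf.face.cvx hf.face.ccv c1 c2
          (closure_minimal (oc_sub_cc _ _) (cc_closed _ _) hv)
    rw [hcomp]
    exact ⟨_, _, k1, k2.symm ▸ k3, ext a M Q b hf c1 c2, fun _ => k2.symm,
      fun k => absurd ((cc_bounded M Q).subset (oc_sub_cc _ _)) k⟩
  · obtain ⟨k1, k2, k3, -⟩ := h0.polygon hp0 hp1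
    have hDR : segs x y EE ⊆ cc x y u z (u :: (P ++ [z])) (u :: ([] ++ [z])) := by
      rintro v ⟨e, he, h1, h2, h3⟩
      obtain ⟨h4, h5, h6⟩ := (inv.s2 e he).2 _ h1 h2
      rw [mem_dom hinc] at h4
      exact hm.2 ⟨h4.1, h4.2, by rwa [h3], by rwa [h3]⟩
    have hb := cc_bounded (x := x) (y := y) (a := u) (b := z) P []
    have hcomp : connectedComponentIn (segs x y EE)ᶜ w =
        (cc x y u z (u :: (P ++ [z])) (u :: ([] ++ [z])))ᶜ := by
      refine comp_eq hR (cc_closed _ _).isOpen_compl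
        (compl_preconnected (cc_convex _ _) hb (k3.mono (oc_sub_cc _ _)))
        (compl_subset_compl.2 hDR) fun v hv => ?_
      by_cases hvR : v ∈ cc x y u z (u :: (P ++ [z])) (u :: ([] ++ [z]))
      · refine Or.inr ((hcs hvR).resolve_left fun ho => ?_)
        rw [closure_compl, k2] at hv
        exact hv ho
      · exact Or.inl hvR
    rw [hcomp]
    refine ⟨_, _, k1, k2.symm ▸ k3, ext u P [] z h0 subset_union_right inv.s3, fun h => ?_,
      fun _ => rfl⟩
    exact absurd (by simpa using hb.union h) (NormedSpace.unbounded_univ ℝ Pl)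

theorem main_strict [Finite V] (G : SimpleGraph V) (h4 : 4 ≤ Nat.card V)
    (h3 : ∀ a b : V, a ≠ b → (G.induce ({a, b}ᶜ : Set V)).Connected) (hpl : H72.Planar G) :
    ∃ p : V → EuclideanSpace ℝ (Fin 2), Function.Injective p ∧ H72.Greedy G p ∧
      H72.Noncrossing G p ∧ H72.StrictlyConvexFaces G p := by
  obtain ⟨q, γ, q1, q2, q3⟩ := hpl
  have hc : ∀ C : Set V, C.ncard ≤ 2 → Conn G Cᶜ := by
    intro C hC a ha b hb
    have h1 : C ⊆ ({a, b} : Set V)ᶜ := by
      rintro c hc (rfl | rfl)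
      exacts [ha hc, hb hc]
    have h2 : 2 ≤ (({a, b} : Set V)ᶜ).ncard := by
      have := Set.ncard_add_ncard_compl ({a, b} : Set V)
      have := ncard_pair_le a b
      omega
    obtain ⟨D, d1, d2, d3⟩ := Set.exists_subsuperset_card_eq h1 hC h2
    obtain ⟨c, d, hcd, rfl⟩ := Set.ncard_eq_two.1 d3
    exact (conn_of_induce (h3 c d hcd) a (fun k => d2 k (Or.inl rfl)) b
      fun k => d2 k (Or.inr rfl)).mono (compl_subset_compl.2 d1)
  have hd : ∀ a b c : V, ∃ d, d ≠ a ∧ d ≠ b ∧ d ≠ c := by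
    intro a b c
    by_contra hn
    have h1 : (univ : Set V) ⊆ {a, b, c} := by
      intro d _
      by_contra k
      simp only [mem_insert_iff, mem_singleton_iff, not_or] at k
      exact hn ⟨d, k⟩
    have h2 := Set.ncard_le_ncard h1
    have h3 := Set.ncard_insert_le a ({b, c} : Set V)
    have h5 := ncard_pair_le b c
    rw [Set.ncard_univ] at h2
    omega
  have hdeg : ∀ v a c : V, ∃ w, G.Adj v w ∧ w ≠ a ∧ w ≠ c := by
    intro v a c
    obtain ⟨d, k1, k2, k3⟩ := hd v a c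
    obtain ⟨w, hw, h⟩ := exists_nbr (hc (({a, c} : Set V) \ {v})
      ((Set.ncard_le_ncard sdiff_subset).trans (ncard_pair_le a c))) (a := v) (b := d)
      (fun k => k.2 rfl) (fun k => k.1.elim k2 k3) k1.symm
    exact ⟨w, h, fun e => hw ⟨Or.inl e, h.ne.symm⟩, fun e => hw ⟨Or.inr e, h.ne.symm⟩⟩
  obtain ⟨z⟩ : Nonempty V := (Nat.card_pos_iff.1 (by omega)).1
  obtain ⟨u, hzu, -⟩ := hdeg z z z
  obtain ⟨x, y, P, E, k1, k2, k3, k4, k5, k6⟩ := exists_shelling hc hd
    (noK_of_curves G q γ q1 q2 q3) hzu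
  obtain ⟨Fs, s1, s2⟩ := k2.shF
  obtain ⟨y', t1, t2⟩ := strictify k1 s1 s2 k3 k4 k5 hdeg
  obtain ⟨κ, hκ, k7⟩ := exists_squash x y' k6
  have hop : ∀ a b c d, sl x y' a b < sl x y' c d →
      sl x (fun a => κ * y' a) a b < sl x (fun a => κ * y' a) c d := by
    intro a b c d h
    have e : ∀ a b, sl x (fun a => κ * y' a) a b = κ * sl x y' a b := fun a b => by
      unfold sl; ring
    rw [e, e]
    exact mul_lt_mul_of_pos_left h hκ
  have fin := strict_final (p := fun a => WithLp.toLp 2 ![x a, κ * y' a]) k1 s1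
    (fun a M Q b h => (t1 a M Q b h).op hop) (t2.op hop) k5
    (fun a => (hdeg a a a).imp fun _ h => h.1) (fun _ => rfl) (fun _ => rfl)
  refine ⟨fun a => WithLp.toLp 2 ![x a, κ * y' a], fun a b hab => k1 ?_,
    greedy_path fun a t hat => ?_, fin⟩
  · exact congrArg (fun p : EuclideanSpace ℝ (Fin 2) => p 0) hab
  · obtain ⟨w, j1, j2⟩ := k7 a t hat
    refine ⟨w, j1, ?_⟩
    rw [EuclideanSpace.dist_eq, EuclideanSpace.dist_eq]
    refine Real.sqrt_lt_sqrt (by positivity) ?_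
    simpa [Fin.sum_univ_two, Real.dist_eq, sq_abs] using j2

end Pool.Agent.MP_250189_co
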